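import Mathlib

set_option autoImplicit false

open MeasureTheory Set Filter Topology

namespace Pool.Agent.Work.MP_e9f444_mp

/-- First partial derivative of a function on the plane (identified with `ℂ`). -/
noncomputable def dx {E : Type*} [NormedAddCommGroup E] [NormedSpace ℝ E] (f : ℂ → E) (z : ℂ) : E :=
  fderiv ℝ f z 1

/-- Second partial derivative of a function on the plane (identified with `ℂ`). -/
noncomputable def dy {E : Type*} [NormedAddCommGroup E] [NormedSpace ℝ E] (f : ℂ → E) (z : ℂ) : E :=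
  fderiv ℝ f z Complex.I

/-- The Laplacian. -/
noncomputable def lap (f : ℂ → ℝ) (z : ℂ) : ℝ := dx (dx f) z + dy (dy f) z

/-- Bounded functions. -/
def Bd (f : ℂ → ℝ) : Prop := ∃ C, ∀ z, |f z| ≤ C

/-- `B k f`: `f` is `C^k` with bounded partial derivatives up to order `k`. -/
def B : ℕ → (ℂ → ℝ) → Prop
  | 0, f => Continuous f ∧ Bd f
  | (k + 1), f => Differentiable ℝ f ∧ Bd f ∧ B k (dx f) ∧ B k (dy f)

lemma B.continuous : ∀ {k : ℕ} {f : ℂ → ℝ}, B k f → Continuous f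
  | 0, _, h => h.1
  | (_ + 1), _, h => h.1.continuous

lemma B.bd : ∀ {k : ℕ} {f : ℂ → ℝ}, B k f → Bd f
  | 0, _, h => h.2
  | (_ + 1), _, h => h.2.1

lemma B.pred : ∀ {k : ℕ} {f : ℂ → ℝ}, B (k + 1) f → B k f
  | 0, _, h => ⟨h.1.continuous, h.2.1⟩
  | (_ + 1), _, h => ⟨h.1, h.2.1, h.2.2.1.pred, h.2.2.2.pred⟩

lemma dx_add {f g : ℂ → ℝ} (hf : Differentiable ℝ f) (hg : Differentiable ℝ g) :
    dx (fun z => f z + g z) = fun z => dx f z + dx g z := by
  funext z
  simp only [dx]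
  rw [fderiv_fun_add (hf z) (hg z)]
  rfl

lemma dy_add {f g : ℂ → ℝ} (hf : Differentiable ℝ f) (hg : Differentiable ℝ g) :
    dy (fun z => f z + g z) = fun z => dy f z + dy g z := by
  funext z
  simp only [dy]
  rw [fderiv_fun_add (hf z) (hg z)]
  rfl

lemma dx_mul {f g : ℂ → ℝ} (hf : Differentiable ℝ f) (hg : Differentiable ℝ g) :
    dx (fun z => f z * g z) = fun z => f z * dx g z + g z * dx f z := by
  funext z
  simp only [dx]
  rw [fderiv_fun_mul (hf z) (hg z)]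
  simp

lemma dy_mul {f g : ℂ → ℝ} (hf : Differentiable ℝ f) (hg : Differentiable ℝ g) :
    dy (fun z => f z * g z) = fun z => f z * dy g z + g z * dy f z := by
  funext z
  simp only [dy]
  rw [fderiv_fun_mul (hf z) (hg z)]
  simp

lemma dx_const (c : ℝ) : dx (fun _ => c) = fun _ => 0 := by
  funext z; simp [dx]

lemma dy_const (c : ℝ) : dy (fun _ => c) = fun _ => 0 := by
  funext z; simp [dy]

lemma dx_exp {f : ℂ → ℝ} (hf : Differentiable ℝ f) :
    dx (fun z => Real.exp (f z)) = fun z => Real.exp (f z) * dx f z := by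
  funext z
  simp only [dx]
  rw [((hf z).hasFDerivAt.exp).fderiv]
  simp

lemma dy_exp {f : ℂ → ℝ} (hf : Differentiable ℝ f) :
    dy (fun z => Real.exp (f z)) = fun z => Real.exp (f z) * dy f z := by
  funext z
  simp only [dy]
  rw [((hf z).hasFDerivAt.exp).fderiv]
  simp

lemma Bd.add {f g : ℂ → ℝ} (hf : Bd f) (hg : Bd g) : Bd (fun z => f z + g z) := by
  obtain ⟨C, hC⟩ := hf
  obtain ⟨D, hD⟩ := hg
  exact ⟨C + D, fun z => (abs_add_le _ _).trans (add_le_add (hC z) (hD z))⟩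

lemma Bd.mul {f g : ℂ → ℝ} (hf : Bd f) (hg : Bd g) : Bd (fun z => f z * g z) := by
  obtain ⟨C, hC⟩ := hf
  obtain ⟨D, hD⟩ := hg
  refine ⟨C * D, fun z => ?_⟩
  rw [abs_mul]
  exact mul_le_mul (hC z) (hD z) (abs_nonneg _) ((abs_nonneg _).trans (hC z))

lemma Bd.exp {f : ℂ → ℝ} (hf : Bd f) : Bd (fun z => Real.exp (f z)) := by
  obtain ⟨C, hC⟩ := hf
  refine ⟨Real.exp C, fun z => ?_⟩
  rw [abs_of_pos (Real.exp_pos _)]
  exact Real.exp_le_exp.2 ((le_abs_self _).trans (hC z))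

lemma B.const (c : ℝ) : ∀ k : ℕ, B k (fun _ => c)
  | 0 => ⟨continuous_const, ⟨|c|, fun _ => le_rfl⟩⟩
  | (k + 1) => by
    refine ⟨differentiable_const c, ⟨|c|, fun _ => le_rfl⟩, ?_, ?_⟩
    · rw [dx_const]; exact B.const 0 k
    · rw [dy_const]; exact B.const 0 k

lemma B.add : ∀ {k : ℕ} {f g : ℂ → ℝ}, B k f → B k g → B k (fun z => f z + g z)
  | 0, _, _, hf, hg => ⟨hf.1.add hg.1, hf.2.add hg.2⟩
  | (k + 1), f, g, hf, hg => by
    refine ⟨hf.1.add hg.1, hf.2.1.add hg.2.1, ?_, ?_⟩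
    · rw [dx_add hf.1 hg.1]; exact B.add hf.2.2.1 hg.2.2.1
    · rw [dy_add hf.1 hg.1]; exact B.add hf.2.2.2 hg.2.2.2

lemma B.mul : ∀ {k : ℕ} {f g : ℂ → ℝ}, B k f → B k g → B k (fun z => f z * g z)
  | 0, _, _, hf, hg => ⟨hf.1.mul hg.1, hf.2.mul hg.2⟩
  | (k + 1), f, g, hf, hg => by
    refine ⟨hf.1.mul hg.1, hf.2.1.mul hg.2.1, ?_, ?_⟩
    · rw [dx_mul hf.1 hg.1]; exact (B.mul hf.pred hg.2.2.1).add (B.mul hg.pred hf.2.2.1)
    · rw [dy_mul hf.1 hg.1]; exact (B.mul hf.pred hg.2.2.2).add (B.mul hg.pred hf.2.2.2)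

lemma B.exp : ∀ {k : ℕ} {f : ℂ → ℝ}, B k f → B k (fun z => Real.exp (f z))
  | 0, _, hf => ⟨Real.continuous_exp.comp hf.1, hf.2.exp⟩
  | (k + 1), f, hf => by
    refine ⟨hf.1.exp, hf.2.1.exp, ?_, ?_⟩
    · rw [dx_exp hf.1]; exact (B.exp hf.pred).mul hf.2.2.1
    · rw [dy_exp hf.1]; exact (B.exp hf.pred).mul hf.2.2.2

lemma B.const_mul {k : ℕ} {f : ℂ → ℝ} (c : ℝ) (hf : B k f) : B k (fun z => c * f z) :=
  (B.const c k).mul hf

lemma B.neg {k : ℕ} {f : ℂ → ℝ} (hf : B k f) : B k (fun z => - f z) := by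
  have := hf.const_mul (-1)
  simpa using this

lemma B.sub {k : ℕ} {f g : ℂ → ℝ} (hf : B k f) (hg : B k g) : B k (fun z => f z - g z) := by
  have := hf.add hg.neg
  simpa [sub_eq_add_neg] using this

lemma B.pow {k : ℕ} {f : ℂ → ℝ} (hf : B k f) (n : ℕ) : B k (fun z => f z ^ n) := by
  induction n with
  | zero => simpa using B.const 1 k
  | succ n ih => simpa [pow_succ] using ih.mul hf

lemma B.prod {k : ℕ} {ι : Type*} (s : Finset ι) {f : ι → ℂ → ℝ} (hf : ∀ i ∈ s, B k (f i)) :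
    B k (fun z => ∏ i ∈ s, f i z) := by
  classical
  induction s using Finset.induction_on with
  | empty => simpa using B.const 1 k
  | insert i s hi ih =>
    simp only [Finset.prod_insert hi]
    exact (hf i (Finset.mem_insert_self _ _)).mul
      (ih (fun j hj => hf j (Finset.mem_insert_of_mem hj)))

lemma B.sum {k : ℕ} {ι : Type*} (s : Finset ι) {f : ι → ℂ → ℝ} (hf : ∀ i ∈ s, B k (f i)) :
    B k (fun z => ∑ i ∈ s, f i z) := by
  classical
  induction s using Finset.induction_on with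
  | empty => simpa using B.const 0 k
  | insert i s hi ih =>
    simp only [Finset.sum_insert hi]
    exact (hf i (Finset.mem_insert_self _ _)).add
      (ih (fun j hj => hf j (Finset.mem_insert_of_mem hj)))

lemma fderiv_eq_dx_dy {E : Type*} [NormedAddCommGroup E] [NormedSpace ℝ E] (f : ℂ → E) (z w : ℂ) :
    fderiv ℝ f z w = w.re • dx f z + w.im • dy f z := by
  have h : w = w.re • (1 : ℂ) + w.im • Complex.I := by
    apply Complex.ext <;> simp
  conv_lhs => rw [h]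
  rw [map_add, map_smul, map_smul]
  rfl

lemma fderiv_eq' {E : Type*} [NormedAddCommGroup E] [NormedSpace ℝ E] (f : ℂ → E) :
    fderiv ℝ f = fun z => Complex.reCLM.smulRight (dx f z) + Complex.imCLM.smulRight (dy f z) := by
  funext z
  ext w
  rw [fderiv_eq_dx_dy]
  simp

lemma B.contDiff : ∀ {k : ℕ} {f : ℂ → ℝ}, B k f → ContDiff ℝ k f
  | 0, _, h => contDiff_zero.2 h.1
  | (k + 1), f, h => by
    have h1 : ((k + 1 : ℕ) : WithTop ℕ∞) = (k : WithTop ℕ∞) + 1 := by push_cast; rfl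
    rw [h1, contDiff_succ_iff_fderiv]
    refine ⟨h.1, by simp, ?_⟩
    rw [fderiv_eq']
    exact ((ContinuousLinearMap.smulRightL ℝ ℂ ℝ Complex.reCLM).contDiff.comp h.2.2.1.contDiff).add
      ((ContinuousLinearMap.smulRightL ℝ ℂ ℝ Complex.imCLM).contDiff.comp h.2.2.2.contDiff)

end Pool.Agent.Work.MP_e9f444_mp
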