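import Mathlib
import Pool.Agent.Work.MP_e9f444_mp.Calc

set_option autoImplicit false

open MeasureTheory Set Filter Topology

namespace Pool.Agent.Work.MP_e9f444_mp

/-- Normalising constant. -/
noncomputable def gc : ℝ := ∫ y : ℂ, Real.exp (-‖y‖ ^ 2)

lemma integrable_exp_b {b : ℝ} (hb : 0 < b) : Integrable (fun y : ℂ => Real.exp (-b * ‖y‖ ^ 2)) := by
  have h := GaussianFourier.integrable_cexp_neg_mul_sq_norm_add (V := ℂ) (b := (b : ℂ))
    (by simpa using hb) 0 0
  have h2 := h.norm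
  refine h2.congr (ae_of_all _ fun y => ?_)
  simp [Complex.norm_exp]
  norm_cast
  simp

lemma integrable_exp_one : Integrable (fun y : ℂ => Real.exp (-‖y‖ ^ 2)) := by
  have := integrable_exp_b (b := 1) one_pos
  simpa using this

lemma gc_pos : 0 < gc := by
  unfold gc
  exact integral_exp_pos integrable_exp_one

/-- The normalised Gaussian weight. -/
noncomputable def gam (y : ℂ) : ℝ := Real.exp (-‖y‖ ^ 2) / gc

lemma gam_pos (y : ℂ) : 0 < gam y := div_pos (Real.exp_pos _) gc_pos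

lemma gam_cont : Continuous gam := by
  unfold gam; fun_prop

lemma gam_int : Integrable gam := integrable_exp_one.div_const _

lemma integral_gam : ∫ y, gam y = 1 := by
  unfold gam
  rw [integral_div]
  exact div_self gc_pos.ne'

lemma mul_exp_le (r : ℝ) (_hr : 0 ≤ r) : r * Real.exp (-r ^ 2) ≤ Real.exp (-(1 / 2) * r ^ 2) := by
  have h1 : r ≤ Real.exp (r ^ 2 / 2) := by
    have := Real.add_one_le_exp (r ^ 2 / 2)
    nlinarith [sq_nonneg (r - 1)]
  calc r * Real.exp (-r ^ 2) ≤ Real.exp (r ^ 2 / 2) * Real.exp (-r ^ 2) :=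
        mul_le_mul_of_nonneg_right h1 (Real.exp_pos _).le
    _ = Real.exp (-(1 / 2) * r ^ 2) := by
        rw [← Real.exp_add]; congr 1; ring

lemma norm_mul_gam_int : Integrable (fun y : ℂ => ‖y‖ * gam y) := by
  have h := (integrable_exp_b (b := 1 / 2) (by norm_num)).div_const gc
  refine h.mono' (by have := gam_cont; fun_prop) (ae_of_all _ fun y => ?_)
  rw [Real.norm_of_nonneg (mul_nonneg (norm_nonneg _) (gam_pos _).le)]
  unfold gam
  rw [← mul_div_assoc]
  exact div_le_div_of_nonneg_right (mul_exp_le _ (norm_nonneg _)) gc_pos.le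

lemma hasFDerivAt_gam (u : ℂ) : HasFDerivAt gam ((-2 * gam u) • innerSL ℝ u) u := by
  have h := ((hasStrictFDerivAt_norm_sq u).hasFDerivAt.neg.exp).mul_const gc⁻¹
  have h2 : (fun x : ℂ => Real.exp (-‖x‖ ^ 2) * gc⁻¹) = gam := by
    funext x; rw [gam, div_eq_mul_inv]
  have h3 : (fun x : ℂ => Real.exp ((-fun x : ℂ => ‖x‖ ^ 2) x) * gc⁻¹) = gam := h2
  rw [h3] at h
  convert! h using 1
  ext w
  simp [gam]
  ring

lemma hasFDerivAt_gauss_shift {g : ℂ → ℝ} (hg : Measurable g) {C : ℝ} (hC : ∀ y, |g y| ≤ C) :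
    HasFDerivAt (fun w => ∫ y, gam (y - w) * g y) (∫ y, (2 * gam y * g y) • innerSL ℝ y) 0 := by
  have hC0 : 0 ≤ C := (abs_nonneg _).trans (hC 0)
  have key := hasFDerivAt_integral_of_dominated_of_fderiv_le (μ := (volume : Measure ℂ))
    (F := fun w y => gam (y - w) * g y) (x₀ := (0 : ℂ)) (s := Metric.ball 0 1)
    (F' := fun w y => (2 * gam (y - w) * g y) • innerSL ℝ (y - w))
    (bound := fun y => 2 * C * (Real.exp (1 / 2) * Real.exp (-(1 / 4) * ‖y‖ ^ 2) / gc))
    (Metric.ball_mem_nhds _ one_pos) ?_ ?_ ?_ ?_ ?_ ?_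
  · simpa using key
  · refine Eventually.of_forall fun w => ?_
    have h1 : Continuous fun y => gam (y - w) := gam_cont.comp (by fun_prop)
    exact (h1.measurable.mul hg).aestronglyMeasurable
  · refine (gam_int.const_mul C).mono' ?_ (ae_of_all _ fun y => ?_)
    · have h1 : Continuous fun y => gam (y - 0) := gam_cont.comp (by fun_prop)
      exact (h1.measurable.mul hg).aestronglyMeasurable
    · rw [norm_mul, sub_zero, Real.norm_of_nonneg (gam_pos _).le, mul_comm C]
      exact mul_le_mul_of_nonneg_left (hC y) (gam_pos _).le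
  · have h1 : Measurable fun y : ℂ => 2 * gam (y - 0) * g y := by
      have : Continuous fun y => gam (y - 0) := gam_cont.comp (by fun_prop)
      exact (measurable_const.mul this.measurable).mul hg
    have h2 : Continuous fun y : ℂ => innerSL ℝ (y - 0) := by fun_prop
    exact h1.aestronglyMeasurable.smul h2.aestronglyMeasurable
  · refine ae_of_all _ fun y w hw => ?_
    have hw' : ‖w‖ < 1 := by simpa using hw
    rw [norm_smul, innerSL_apply_norm, norm_mul, norm_mul,
      Real.norm_of_nonneg (gam_pos _).le, Real.norm_of_nonneg (by norm_num : (0:ℝ) ≤ 2)]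
    have h3 : ‖y - w‖ * gam (y - w) ≤ Real.exp (1 / 2) * Real.exp (-(1 / 4) * ‖y‖ ^ 2) / gc := by
      unfold gam
      rw [← mul_div_assoc]
      apply div_le_div_of_nonneg_right _ gc_pos.le
      refine (mul_exp_le _ (norm_nonneg _)).trans ?_
      rw [← Real.exp_add]
      apply Real.exp_le_exp.2
      have h4 : ‖y‖ ≤ ‖y - w‖ + ‖w‖ := by
        have := norm_add_le (y - w) w
        simpa using this
      nlinarith [norm_nonneg (y - w), norm_nonneg w, norm_nonneg y, sq_nonneg (‖y - w‖ - ‖w‖)]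
    calc 2 * gam (y - w) * ‖g y‖ * ‖y - w‖ = 2 * ‖g y‖ * (‖y - w‖ * gam (y - w)) := by ring
      _ ≤ 2 * C * (Real.exp (1 / 2) * Real.exp (-(1 / 4) * ‖y‖ ^ 2) / gc) := by
          apply mul_le_mul _ h3 (mul_nonneg (norm_nonneg _) (gam_pos _).le) (by positivity)
          exact mul_le_mul_of_nonneg_left (hC y) (by norm_num)
  · have h := ((integrable_exp_b (b := 1 / 4) (by norm_num)).const_mul (Real.exp (1 / 2))).div_const gc
    exact h.const_mul (2 * C)
  · refine ae_of_all _ fun y w hw => ?_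
    have h1 : HasFDerivAt (fun w : ℂ => y - w) (-(ContinuousLinearMap.id ℝ ℂ)) w := by
      simpa using (hasFDerivAt_id w).const_sub y
    have h2 := ((hasFDerivAt_gam (y - w)).comp w h1).mul_const (g y)
    convert! h2 using 1
    ext u
    simp
    ring

/-- Gaussian average of `h` at scale `s` around `x`. -/
noncomputable def P (h : ℂ → ℝ) (s : ℝ) (x : ℂ) : ℝ := ∫ y, gam y * h (x + (2 * s) • y)

/-- Weighted Gaussian average; the gradient of `P h s` is `s⁻¹ • Q h s`. -/
noncomputable def Q (h : ℂ → ℝ) (s : ℝ) (x : ℂ) : ℂ →L[ℝ] ℝ :=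
  ∫ y, (gam y * h (x + (2 * s) • y)) • innerSL ℝ y

lemma meas_shift {h : ℂ → ℝ} (hh : Measurable h) (s : ℝ) (x : ℂ) :
    Measurable fun y : ℂ => h (x + (2 * s) • y) :=
  hh.comp (by fun_prop : Measurable fun y : ℂ => x + (2 * s) • y)

lemma P_integrable {h : ℂ → ℝ} (hh : Measurable h) {C : ℝ} (hC : ∀ y, |h y| ≤ C) (s : ℝ) (x : ℂ) :
    Integrable fun y => gam y * h (x + (2 * s) • y) := by
  refine (gam_int.const_mul C).mono' ?_ (ae_of_all _ fun y => ?_)
  · exact (gam_cont.measurable.mul (meas_shift hh s x)).aestronglyMeasurable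
  · rw [norm_mul, Real.norm_of_nonneg (gam_pos _).le, mul_comm C]
    exact mul_le_mul_of_nonneg_left (hC _) (gam_pos _).le

lemma abs_P_le {h : ℂ → ℝ} {C : ℝ} (hC : ∀ y, |h y| ≤ C) (s : ℝ) (x : ℂ) :
    |P h s x| ≤ C := by
  have h1 : ‖P h s x‖ ≤ ∫ y, C * gam y := by
    apply norm_integral_le_of_norm_le (gam_int.const_mul C)
    refine ae_of_all _ fun y => ?_
    rw [norm_mul, Real.norm_of_nonneg (gam_pos _).le, mul_comm C]
    exact mul_le_mul_of_nonneg_left (hC _) (gam_pos _).le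
  rwa [integral_const_mul, integral_gam, mul_one] at h1

/-- The constant `∫ ‖y‖ γ(y) dy`. -/
noncomputable def gm : ℝ := ∫ y : ℂ, ‖y‖ * gam y

lemma norm_Q_le {h : ℂ → ℝ} {C : ℝ} (hC : ∀ y, |h y| ≤ C) (s : ℝ) (x : ℂ) :
    ‖Q h s x‖ ≤ C * gm := by
  have h1 : ‖Q h s x‖ ≤ ∫ y, C * (‖y‖ * gam y) := by
    apply norm_integral_le_of_norm_le (norm_mul_gam_int.const_mul C)
    refine ae_of_all _ fun y => ?_
    rw [norm_smul, norm_mul, Real.norm_of_nonneg (gam_pos _).le, innerSL_apply_norm]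
    have := mul_le_mul_of_nonneg_left (hC (x + (2 * s) • y)) (gam_pos y).le
    calc gam y * ‖h (x + (2 * s) • y)‖ * ‖y‖ ≤ gam y * C * ‖y‖ :=
          mul_le_mul_of_nonneg_right this (norm_nonneg _)
      _ = C * (‖y‖ * gam y) := by ring
  rwa [integral_const_mul] at h1

lemma hasFDerivAt_P {h : ℂ → ℝ} (hh : Measurable h) {C : ℝ} (hC : ∀ y, |h y| ≤ C) {s : ℝ}
    (hs : 0 < s) (x : ℂ) : HasFDerivAt (P h s) (s⁻¹ • Q h s x) x := by
  have h1 := hasFDerivAt_gauss_shift (meas_shift hh s x) (C := C) (fun y => hC _)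
  have h2 : HasFDerivAt (fun x' : ℂ => (2 * s)⁻¹ • (x' - x)) ((2 * s)⁻¹ • ContinuousLinearMap.id ℝ ℂ) x :=
    ((hasFDerivAt_id (𝕜 := ℝ) x).sub_const x).fun_const_smul ((2 * s)⁻¹)
  have h3 : (fun x' : ℂ => (2 * s)⁻¹ • (x' - x)) x = 0 := by simp
  rw [← h3] at h1
  have h4 := h1.comp x h2
  have h5 : ((fun w => ∫ y, gam (y - w) * h (x + (2 * s) • y)) ∘
      fun x' : ℂ => (2 * s)⁻¹ • (x' - x)) = P h s := by
    funext x'
    simp only [Function.comp, P]
    rw [← integral_add_right_eq_self _ ((2 * s)⁻¹ • (x' - x))]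
    congr 1
    funext y
    congr 2
    · ring
    · rw [smul_add, smul_smul, mul_inv_cancel₀ (by positivity), one_smul]
      ring
  rw [h5] at h4
  convert! h4 using 1
  rw [Q]
  ext u
  have hint : Integrable (fun y => (gam y * h (x + (2 * s) • y)) • innerSL ℝ y) := by
    refine (norm_mul_gam_int.const_mul C).mono' ?_ (ae_of_all _ fun y => ?_)
    · have : Continuous fun y : ℂ => innerSL ℝ y := by fun_prop
      exact (gam_cont.measurable.mul (meas_shift hh s x)).aestronglyMeasurable.smul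
        this.aestronglyMeasurable
    · rw [norm_smul, norm_mul, Real.norm_of_nonneg (gam_pos _).le, innerSL_apply_norm]
      have := mul_le_mul_of_nonneg_left (hC (x + (2 * s) • y)) (gam_pos y).le
      calc gam y * ‖h (x + (2 * s) • y)‖ * ‖y‖ ≤ gam y * C * ‖y‖ :=
            mul_le_mul_of_nonneg_right this (norm_nonneg _)
        _ = C * (‖y‖ * gam y) := by ring
  have h6 : (∫ y, (2 * gam y * h (x + (2 * s) • y)) • innerSL ℝ y) =
      (2 : ℝ) • ∫ y, (gam y * h (x + (2 * s) • y)) • innerSL ℝ y := by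
    rw [← integral_smul]
    congr 1
    funext y
    rw [smul_smul, mul_assoc]
  rw [h6]
  simp only [_root_.smul_apply, ContinuousLinearMap.comp_apply,
    ContinuousLinearMap.id_apply, smul_eq_mul, map_smul]
  field_simp

end Pool.Agent.Work.MP_e9f444_mp
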