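import Mathlib
import Pool.Agent.Work.MP_e9f444_mp.Gauss

set_option autoImplicit false

open MeasureTheory Set Filter Topology

namespace Pool.Agent.Work.MP_e9f444_mp

/-- Radial weight of the resolvent. -/
noncomputable def wK (K s : ℝ) : ℝ := 2 * s * Real.exp (-K * s ^ 2)

/-- Radial weight of the gradient of the resolvent. -/
noncomputable def vK (K s : ℝ) : ℝ := 2 * Real.exp (-K * s ^ 2)

lemma wK_nonneg (K : ℝ) {s : ℝ} (hs : 0 < s) : 0 ≤ wK K s := by
  unfold wK; positivity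

lemma vK_pos (K s : ℝ) : 0 < vK K s := by
  unfold vK; positivity

lemma wK_cont (K : ℝ) : Continuous (wK K) := by unfold wK; fun_prop

lemma vK_cont (K : ℝ) : Continuous (vK K) := by unfold vK; fun_prop

lemma wK_int {K : ℝ} (hK : 0 < K) : Integrable (wK K) := by
  have h := (integrable_mul_exp_neg_mul_sq hK).const_mul 2
  refine h.congr (ae_of_all _ fun s => ?_)
  simp only [wK]; ring

lemma vK_int {K : ℝ} (hK : 0 < K) : Integrable (vK K) :=
  (integrable_exp_neg_mul_sq hK).const_mul 2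

lemma integral_wK {K : ℝ} (hK : 0 < K) : ∫ s in Ioi 0, wK K s = 1 / K := by
  have h := integral_Ioi_of_hasDerivAt_of_tendsto' (a := 0) (f := fun s : ℝ => - Real.exp (-K * s ^ 2) / K)
    (f' := wK K) (m := 0) ?_ (wK_int hK).integrableOn ?_
  · rw [h]; simp
    field_simp
  · intro s _
    have h1 : HasDerivAt (fun s : ℝ => -K * s ^ 2) (-K * (2 * s)) s := by
      simpa using (hasDerivAt_pow 2 s).const_mul (-K)
    have h2 := (h1.exp.neg).div_const K
    convert! h2 using 1
    unfold wK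
    field_simp
  · have h1 : Tendsto (fun s : ℝ => Real.exp (-K * s ^ 2)) atTop (𝓝 0) := by
      exact Real.tendsto_exp_atBot.comp
        ((tendsto_pow_atTop two_ne_zero).const_mul_atTop_of_neg (neg_lt_zero.2 hK))
    have := (h1.neg).div_const K
    simpa using this

lemma meas_P {h : ℂ → ℝ} (hh : Measurable h) (x : ℂ) : StronglyMeasurable fun s => P h s x := by
  unfold P
  apply StronglyMeasurable.integral_prod_right (f := fun (s : ℝ) (y : ℂ) => gam y * h (x + (2 * s) • y))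
  apply Measurable.stronglyMeasurable
  apply Measurable.mul (gam_cont.measurable.comp measurable_snd)
  apply hh.comp
  fun_prop

lemma meas_Q {h : ℂ → ℝ} (hh : Measurable h) (x : ℂ) : StronglyMeasurable fun s => Q h s x := by
  unfold Q
  apply StronglyMeasurable.integral_prod_right
    (f := fun (s : ℝ) (y : ℂ) => (gam y * h (x + (2 * s) • y)) • innerSL ℝ y)
  refine StronglyMeasurable.smul (f := fun p : ℝ × ℂ => gam p.2 * h (x + (2 * p.1) • p.2))
    (g := fun p : ℝ × ℂ => innerSL ℝ p.2) ?_ ?_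
  · apply Measurable.stronglyMeasurable
    apply Measurable.mul (gam_cont.measurable.comp measurable_snd)
    apply hh.comp
    fun_prop
  · exact (by fun_prop : Continuous fun p : ℝ × ℂ => innerSL ℝ p.2).stronglyMeasurable

/-- The resolvent `(-Δ + K)⁻¹ h`. -/
noncomputable def R (K : ℝ) (h : ℂ → ℝ) (x : ℂ) : ℝ := ∫ s in Ioi 0, wK K s * P h s x

/-- The gradient of the resolvent. -/
noncomputable def R' (K : ℝ) (h : ℂ → ℝ) (x : ℂ) : ℂ →L[ℝ] ℝ := ∫ s in Ioi 0, vK K s • Q h s x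

lemma R_integrable {K : ℝ} (hK : 0 < K) {h : ℂ → ℝ} (hh : Measurable h) {C : ℝ}
    (hC : ∀ y, |h y| ≤ C) (x : ℂ) : IntegrableOn (fun s => wK K s * P h s x) (Ioi 0) := by
  refine ((wK_int hK).integrableOn.const_mul C).mono' ?_ ?_
  · exact ((wK_cont K).stronglyMeasurable.mul (meas_P hh x)).aestronglyMeasurable
  · refine (ae_restrict_iff' measurableSet_Ioi).2 (ae_of_all _ fun s hs => ?_)
    rw [norm_mul, Real.norm_of_nonneg (wK_nonneg K hs), mul_comm C]
    exact mul_le_mul_of_nonneg_left (abs_P_le hC s x) (wK_nonneg K hs)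

lemma abs_R_le {K : ℝ} (hK : 0 < K) {h : ℂ → ℝ} {C : ℝ} (hC : ∀ y, |h y| ≤ C) (x : ℂ) :
    |R K h x| ≤ C / K := by
  have h1 : ‖R K h x‖ ≤ ∫ s in Ioi 0, C * wK K s := by
    apply norm_integral_le_of_norm_le ((wK_int hK).integrableOn.const_mul C)
    refine (ae_restrict_iff' measurableSet_Ioi).2 (ae_of_all _ fun s hs => ?_)
    rw [norm_mul, Real.norm_of_nonneg (wK_nonneg K hs), mul_comm C]
    exact mul_le_mul_of_nonneg_left (abs_P_le hC s x) (wK_nonneg K hs)
  rwa [integral_const_mul, integral_wK hK, mul_one_div] at h1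

lemma norm_R'_le {K : ℝ} (hK : 0 < K) {h : ℂ → ℝ} {C : ℝ} (hC : ∀ y, |h y| ≤ C) (x : ℂ) :
    ‖R' K h x‖ ≤ C * gm * ∫ s in Ioi 0, vK K s := by
  have h1 : ‖R' K h x‖ ≤ ∫ s in Ioi 0, (C * gm) * vK K s := by
    apply norm_integral_le_of_norm_le ((vK_int hK).integrableOn.const_mul (C * gm))
    refine ae_of_all _ fun s => ?_
    rw [norm_smul, Real.norm_of_nonneg (vK_pos K s).le, mul_comm (C * gm)]
    exact mul_le_mul_of_nonneg_left (norm_Q_le hC s x) (vK_pos K s).le
  rwa [integral_const_mul] at h1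

lemma hasFDerivAt_R {K : ℝ} (hK : 0 < K) {h : ℂ → ℝ} (hh : Measurable h) {C : ℝ}
    (hC : ∀ y, |h y| ≤ C) (x : ℂ) : HasFDerivAt (R K h) (R' K h x) x := by
  have key := hasFDerivAt_integral_of_dominated_of_fderiv_le (μ := volume.restrict (Ioi (0 : ℝ)))
    (F := fun x s => wK K s * P h s x) (x₀ := x) (s := Metric.ball x 1)
    (F' := fun x s => vK K s • Q h s x)
    (bound := fun s => (C * gm) * vK K s)
    (Metric.ball_mem_nhds _ one_pos) ?_ ?_ ?_ ?_ ?_ ?_
  · exact key
  · exact Eventually.of_forall fun w =>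
      ((wK_cont K).stronglyMeasurable.mul (meas_P hh w)).aestronglyMeasurable
  · exact R_integrable hK hh hC x
  · exact ((vK_cont K).stronglyMeasurable.smul (meas_Q hh x)).aestronglyMeasurable
  · refine ae_of_all _ fun s w _ => ?_
    rw [norm_smul, Real.norm_of_nonneg (vK_pos K s).le, mul_comm (C * gm)]
    exact mul_le_mul_of_nonneg_left (norm_Q_le hC s w) (vK_pos K s).le
  · exact (vK_int hK).integrableOn.const_mul (C * gm)
  · refine (ae_restrict_iff' measurableSet_Ioi).2 (ae_of_all _ fun s hs w _ => ?_)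
    have h1 := (hasFDerivAt_P hh hC hs w).const_mul (wK K s)
    convert! h1 using 1
    rw [smul_smul]
    congr 1
    have hs' : s ≠ 0 := (ne_of_gt hs)
    unfold vK wK
    field_simp

lemma Q_cont {h : ℂ → ℝ} (hh : Continuous h) {C : ℝ} (hC : ∀ y, |h y| ≤ C) (s : ℝ) :
    Continuous (Q h s) := by
  apply continuous_of_dominated (bound := fun y => C * (‖y‖ * gam y))
  · intro x
    have : Continuous fun y : ℂ => innerSL ℝ y := by fun_prop
    exact (gam_cont.measurable.mul (meas_shift hh.measurable s x)).aestronglyMeasurable.smul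
        this.aestronglyMeasurable
  · intro x
    refine ae_of_all _ fun y => ?_
    rw [norm_smul, norm_mul, Real.norm_of_nonneg (gam_pos _).le, innerSL_apply_norm]
    have := mul_le_mul_of_nonneg_left (hC (x + (2 * s) • y)) (gam_pos y).le
    calc gam y * ‖h (x + (2 * s) • y)‖ * ‖y‖ ≤ gam y * C * ‖y‖ :=
          mul_le_mul_of_nonneg_right this (norm_nonneg _)
      _ = C * (‖y‖ * gam y) := by ring
  · exact norm_mul_gam_int.const_mul C
  · refine ae_of_all _ fun y => ?_
    exact (continuous_const.mul (hh.comp (by fun_prop))).smul continuous_const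

lemma R'_cont {K : ℝ} (hK : 0 < K) {h : ℂ → ℝ} (hh : Continuous h) {C : ℝ} (hC : ∀ y, |h y| ≤ C) :
    Continuous (R' K h) := by
  apply continuous_of_dominated (bound := fun s => (C * gm) * vK K s)
  · intro x
    exact ((vK_cont K).stronglyMeasurable.smul (meas_Q hh.measurable x)).aestronglyMeasurable
  · intro x
    refine ae_of_all _ fun s => ?_
    rw [norm_smul, Real.norm_of_nonneg (vK_pos K s).le, mul_comm (C * gm)]
    exact mul_le_mul_of_nonneg_left (norm_Q_le hC s x) (vK_pos K s).le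
  · exact (vK_int hK).integrableOn.const_mul (C * gm)
  · exact ae_of_all _ fun s => (Q_cont hh hC s).const_smul (vK K s)

lemma R_B1 {K : ℝ} (hK : 0 < K) {h : ℂ → ℝ} (hh : B 0 h) : B 1 (R K h) := by
  obtain ⟨hc, C, hC⟩ := hh
  have hd := fun x => hasFDerivAt_R hK hc.measurable hC x
  have hx : dx (R K h) = fun x => R' K h x 1 := by
    funext x; rw [dx, (hd x).fderiv]
  have hy : dy (R K h) = fun x => R' K h x Complex.I := by
    funext x; rw [dy, (hd x).fderiv]
  refine ⟨fun x => (hd x).differentiableAt, ⟨C / K, abs_R_le hK hC⟩, ?_, ?_⟩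
  · rw [hx]
    refine ⟨(R'_cont hK hc hC).clm_apply continuous_const,
      ⟨C * gm * ∫ s in Ioi 0, vK K s, fun x => ?_⟩⟩
    have := (R' K h x).le_opNorm 1
    rw [norm_one, mul_one] at this
    exact this.trans (norm_R'_le hK hC x)
  · rw [hy]
    refine ⟨(R'_cont hK hc hC).clm_apply continuous_const,
      ⟨C * gm * ∫ s in Ioi 0, vK K s, fun x => ?_⟩⟩
    have := (R' K h x).le_opNorm Complex.I
    rw [Complex.norm_I, mul_one] at this
    exact this.trans (norm_R'_le hK hC x)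

lemma P_tendsto {h : ℕ → ℂ → ℝ} {g : ℂ → ℝ} (hh : ∀ n, Measurable (h n)) {C : ℝ}
    (hC : ∀ n y, |h n y| ≤ C) (hg : ∀ y, Tendsto (fun n => h n y) atTop (𝓝 (g y))) (s : ℝ) (x : ℂ) :
    Tendsto (fun n => P (h n) s x) atTop (𝓝 (P g s x)) := by
  unfold P
  apply tendsto_integral_of_dominated_convergence (fun y => C * gam y)
  · intro n
    exact (gam_cont.measurable.mul (meas_shift (hh n) s x)).aestronglyMeasurable
  · exact gam_int.const_mul C
  · intro n
    refine ae_of_all _ fun y => ?_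
    rw [norm_mul, Real.norm_of_nonneg (gam_pos _).le, mul_comm C]
    exact mul_le_mul_of_nonneg_left (hC _ _) (gam_pos _).le
  · exact ae_of_all _ fun y => (hg _).const_mul _

lemma R_tendsto {K : ℝ} (hK : 0 < K) {h : ℕ → ℂ → ℝ} {g : ℂ → ℝ} (hh : ∀ n, Measurable (h n)) {C : ℝ}
    (hC : ∀ n y, |h n y| ≤ C) (hg : ∀ y, Tendsto (fun n => h n y) atTop (𝓝 (g y))) (x : ℂ) :
    Tendsto (fun n => R K (h n) x) atTop (𝓝 (R K g x)) := by
  unfold R
  apply tendsto_integral_of_dominated_convergence (fun s => C * wK K s)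
  · intro n
    exact ((wK_cont K).stronglyMeasurable.mul (meas_P (hh n) x)).aestronglyMeasurable
  · exact (wK_int hK).integrableOn.const_mul C
  · intro n
    refine (ae_restrict_iff' measurableSet_Ioi).2 (ae_of_all _ fun s hs => ?_)
    rw [norm_mul, Real.norm_of_nonneg (wK_nonneg K hs), mul_comm C]
    exact mul_le_mul_of_nonneg_left (abs_P_le (hC n) s x) (wK_nonneg K hs)
  · exact ae_of_all _ fun s => (P_tendsto hh hC hg s x).const_mul _

lemma P_sub {h g : ℂ → ℝ} (hh : Measurable h) (hg : Measurable g) {C D : ℝ} (hC : ∀ y, |h y| ≤ C)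
    (hD : ∀ y, |g y| ≤ D) (s : ℝ) (x : ℂ) :
    P (fun z => h z - g z) s x = P h s x - P g s x := by
  unfold P
  rw [← integral_sub (P_integrable hh hC s x) (P_integrable hg hD s x)]
  congr 1
  funext y
  ring

lemma R_sub {K : ℝ} (hK : 0 < K) {h g : ℂ → ℝ} (hh : Measurable h) (hg : Measurable g) {C D : ℝ}
    (hC : ∀ y, |h y| ≤ C) (hD : ∀ y, |g y| ≤ D) (x : ℂ) :
    R K (fun z => h z - g z) x = R K h x - R K g x := by
  unfold R
  rw [← integral_sub (R_integrable hK hh hC x) (R_integrable hK hg hD x)]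
  congr 1
  funext s
  rw [P_sub hh hg hC hD]
  ring

lemma R_const_mul (K c : ℝ) (h : ℂ → ℝ) (x : ℂ) : R K (fun z => c * h z) x = c * R K h x := by
  unfold R P
  rw [← integral_const_mul]
  congr 1
  funext s
  have : (∫ y, gam y * (c * h (x + (2 * s) • y))) = c * ∫ y, gam y * h (x + (2 * s) • y) := by
    rw [← integral_const_mul]
    congr 1
    funext y
    ring
  rw [this]
  ring

lemma R_translate (K : ℝ) (h : ℂ → ℝ) (a x : ℂ) : R K (fun z => h (z + a)) x = R K h (x + a) := by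
  unfold R P
  congr 1
  funext s
  congr 2
  funext y
  rw [add_right_comm]

lemma P_mono {h g : ℂ → ℝ} (hh : Measurable h) (hg : Measurable g) {C D : ℝ} (hC : ∀ y, |h y| ≤ C)
    (hD : ∀ y, |g y| ≤ D) (hle : ∀ y, h y ≤ g y) (s : ℝ) (x : ℂ) : P h s x ≤ P g s x := by
  unfold P
  apply integral_mono (P_integrable hh hC s x) (P_integrable hg hD s x)
  intro y
  exact mul_le_mul_of_nonneg_left (hle _) (gam_pos _).le

lemma R_mono {K : ℝ} (hK : 0 < K) {h g : ℂ → ℝ} (hh : Measurable h) (hg : Measurable g) {C D : ℝ}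
    (hC : ∀ y, |h y| ≤ C) (hD : ∀ y, |g y| ≤ D) (hle : ∀ y, h y ≤ g y) (x : ℂ) :
    R K h x ≤ R K g x := by
  unfold R
  apply setIntegral_mono_on (R_integrable hK hh hC x) (R_integrable hK hg hD x) measurableSet_Ioi
  intro s hs
  exact mul_le_mul_of_nonneg_left (P_mono hh hg hC hD hle s x) (wK_nonneg K hs)

lemma norm_fderiv_le {h : ℂ → ℝ} {C D : ℝ} (hC : ∀ y, |dx h y| ≤ C) (hD : ∀ y, |dy h y| ≤ D) (x : ℂ) :
    ‖fderiv ℝ h x‖ ≤ C + D := by
  have hC0 := (abs_nonneg _).trans (hC 0)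
  have hD0 := (abs_nonneg _).trans (hD 0)
  apply ContinuousLinearMap.opNorm_le_bound _ (add_nonneg hC0 hD0)
  intro w
  rw [fderiv_eq_dx_dy]
  refine (norm_add_le _ _).trans ?_
  rw [norm_smul, norm_smul, add_mul]
  have h1 := Complex.abs_re_le_norm w
  have h2 := Complex.abs_im_le_norm w
  have h3 := hC x
  have h4 := hD x
  apply add_le_add
  · rw [mul_comm]
    exact mul_le_mul h3 h1 (abs_nonneg _) hC0
  · rw [mul_comm]
    exact mul_le_mul h4 h2 (abs_nonneg _) hD0

lemma B1_lip {h : ℂ → ℝ} (hh : B 1 h) : ∃ L, ∀ x y, |h x - h y| ≤ L * ‖x - y‖ := by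
  obtain ⟨hd, -, ⟨-, C, hC⟩, ⟨-, D, hD⟩⟩ := hh
  refine ⟨C + D, fun x y => ?_⟩
  exact Convex.norm_image_sub_le_of_norm_fderiv_le (𝕜 := ℝ) (s := univ) (fun z _ => hd z)
    (fun z _ => norm_fderiv_le hC hD z) convex_univ (mem_univ _) (mem_univ _)

lemma fderiv_R_apply {K : ℝ} (hK : 0 < K) {h : ℂ → ℝ} (hh : B 1 h) (x w : ℂ) :
    fderiv ℝ (R K h) x w = R K (fun z => fderiv ℝ h z w) x := by
  obtain ⟨L, hL⟩ := B1_lip hh
  obtain ⟨C, hC⟩ := hh.bd
  have hm := hh.continuous.measurable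
  have h1 : Tendsto (fun n : ℕ => ‖((n : ℝ) + 1)‖) atTop atTop := by
    have : Tendsto (fun n : ℕ => ((n : ℝ) + 1)) atTop atTop :=
      tendsto_atTop_add_const_right _ _ tendsto_natCast_atTop_atTop
    exact tendsto_norm_atTop_atTop.comp this
  have h2 := (hasFDerivAt_R hK hm hC x).lim w h1
  have h3 : ∀ n : ℕ, ((n : ℝ) + 1) • (R K h (x + ((n : ℝ) + 1)⁻¹ • w) - R K h x) =
      R K (fun z => ((n : ℝ) + 1) * (h (z + ((n : ℝ) + 1)⁻¹ • w) - h z)) x := by
    intro n
    have hm2 : Measurable fun z => h (z + ((n : ℝ) + 1)⁻¹ • w) :=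
      hm.comp (by fun_prop : Measurable fun z : ℂ => z + ((n : ℝ) + 1)⁻¹ • w)
    rw [R_const_mul, R_sub hK hm2 hm (fun y => hC _) hC, R_translate, smul_eq_mul]
  simp_rw [h3] at h2
  rw [(hasFDerivAt_R hK hm hC x).fderiv]
  refine tendsto_nhds_unique h2 (R_tendsto hK (C := L * ‖w‖) ?_ ?_ ?_ x)
  · intro n
    exact measurable_const.mul
      ((hm.comp (by fun_prop : Measurable fun z : ℂ => z + ((n : ℝ) + 1)⁻¹ • w)).sub hm)
  · intro n y
    have hn : (0 : ℝ) < (n : ℝ) + 1 := by positivity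
    rw [abs_mul, abs_of_pos hn]
    have h4 := hL (y + ((n : ℝ) + 1)⁻¹ • w) y
    rw [add_sub_cancel_left, norm_smul, norm_inv, Real.norm_of_nonneg hn.le] at h4
    calc ((n : ℝ) + 1) * |h (y + ((n : ℝ) + 1)⁻¹ • w) - h y|
        ≤ ((n : ℝ) + 1) * (L * (((n : ℝ) + 1)⁻¹ * ‖w‖)) := mul_le_mul_of_nonneg_left h4 hn.le
      _ = L * ‖w‖ := by field_simp
  · intro y
    exact ((hh.1 y).hasFDerivAt).lim w h1

lemma dx_R {K : ℝ} (hK : 0 < K) {h : ℂ → ℝ} (hh : B 1 h) : dx (R K h) = R K (dx h) := by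
  funext x
  exact fderiv_R_apply hK hh x 1

lemma dy_R {K : ℝ} (hK : 0 < K) {h : ℂ → ℝ} (hh : B 1 h) : dy (R K h) = R K (dy h) := by
  funext x
  exact fderiv_R_apply hK hh x Complex.I

lemma B.of_le : ∀ {j k : ℕ} {f : ℂ → ℝ}, j ≤ k → B k f → B j f := by
  intro j k f hjk h
  induction k with
  | zero =>
    have : j = 0 := by omega
    subst this; exact h
  | succ k ih =>
    rcases Nat.lt_or_ge j (k + 1) with h1 | h1
    · exact ih (by omega) h.pred
    · have : j = k + 1 := by omega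
      subst this; exact h

/-- The resolvent gains one derivative. -/
lemma R_B {K : ℝ} (hK : 0 < K) : ∀ {k : ℕ} {h : ℂ → ℝ}, B k h → B (k + 1) (R K h)
  | 0, _, hh => R_B1 hK hh
  | (k + 1), h, hh => by
    have h1 : B 1 h := B.of_le (by omega) hh
    have h2 := R_B1 hK (B.of_le (Nat.zero_le _) hh)
    refine ⟨h2.1, h2.2.1, ?_, ?_⟩
    · rw [dx_R hK h1]
      exact R_B hK hh.2.2.1
    · rw [dy_R hK h1]
      exact R_B hK hh.2.2.2

end Pool.Agent.Work.MP_e9f444_mp
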