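import Mathlib
import Pool.Agent.Work.MP_e9f444_mp.Resolvent

set_option autoImplicit false

open MeasureTheory Set Filter Topology

namespace Pool.Agent.Work.MP_e9f444_mp

/-- Derivative of `P h s x` in `s`. -/
noncomputable def DP (h : ℂ → ℝ) (s : ℝ) (x : ℂ) : ℝ :=
  2 * ∫ y, gam y * (y.re * dx h (x + (2 * s) • y) + y.im * dy h (x + (2 * s) • y))

lemma DP_bound_aux {h : ℂ → ℝ} {C D : ℝ} (hC : ∀ y, |dx h y| ≤ C) (hD : ∀ y, |dy h y| ≤ D)
    (s : ℝ) (x y : ℂ) :
    ‖gam y * (y.re * dx h (x + (2 * s) • y) + y.im * dy h (x + (2 * s) • y))‖ ≤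
      (C + D) * (‖y‖ * gam y) := by
  have hC0 := (abs_nonneg _).trans (hC 0)
  have hD0 := (abs_nonneg _).trans (hD 0)
  rw [norm_mul, Real.norm_of_nonneg (gam_pos _).le]
  have h1 : ‖y.re * dx h (x + (2 * s) • y) + y.im * dy h (x + (2 * s) • y)‖ ≤ ‖y‖ * C + ‖y‖ * D := by
    refine (norm_add_le _ _).trans ?_
    rw [norm_mul, norm_mul]
    exact add_le_add
      (mul_le_mul (Complex.abs_re_le_norm y) (hC _) (abs_nonneg _) (norm_nonneg _))
      (mul_le_mul (Complex.abs_im_le_norm y) (hD _) (abs_nonneg _) (norm_nonneg _))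
  calc _ ≤ gam y * (‖y‖ * C + ‖y‖ * D) := mul_le_mul_of_nonneg_left h1 (gam_pos _).le
    _ = (C + D) * (‖y‖ * gam y) := by ring

lemma abs_DP_le {h : ℂ → ℝ} {C D : ℝ} (hC : ∀ y, |dx h y| ≤ C) (hD : ∀ y, |dy h y| ≤ D)
    (s : ℝ) (x : ℂ) : |DP h s x| ≤ 2 * ((C + D) * gm) := by
  have h1 : ‖∫ y, gam y * (y.re * dx h (x + (2 * s) • y) + y.im * dy h (x + (2 * s) • y))‖ ≤
      ∫ y : ℂ, (C + D) * (‖y‖ * gam y) := by
    apply norm_integral_le_of_norm_le (norm_mul_gam_int.const_mul _)
    exact ae_of_all _ fun y => DP_bound_aux hC hD s x y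
  rw [integral_const_mul] at h1
  unfold DP
  rw [abs_mul, abs_two]
  exact mul_le_mul_of_nonneg_left h1 (by norm_num)

lemma hasDerivAt_P {h : ℂ → ℝ} (hh : B 1 h) (s : ℝ) (x : ℂ) :
    HasDerivAt (fun s => P h s x) (DP h s x) s := by
  obtain ⟨hd, ⟨E, hE⟩, ⟨hcx, C, hC⟩, ⟨hcy, D, hD⟩⟩ := hh
  have hm := hd.continuous.measurable
  have key := hasDerivAt_integral_of_dominated_loc_of_deriv_le (μ := (volume : Measure ℂ))
    (F := fun s y => gam y * h (x + (2 * s) • y)) (x₀ := s) (s := univ)
    (F' := fun s y => 2 * (gam y * (y.re * dx h (x + (2 * s) • y) + y.im * dy h (x + (2 * s) • y))))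
    (bound := fun y => 2 * ((C + D) * (‖y‖ * gam y))) univ_mem ?_ ?_ ?_ ?_ ?_ ?_
  · have := key.2
    rw [integral_const_mul] at this
    exact this
  · exact Eventually.of_forall fun s => (gam_cont.measurable.mul (meas_shift hm s x)).aestronglyMeasurable
  · exact P_integrable hm hE s x
  · apply Continuous.aestronglyMeasurable
    apply continuous_const.mul
    apply gam_cont.mul
    apply Continuous.add
    · exact Complex.continuous_re.mul (hcx.comp (by fun_prop))
    · exact Complex.continuous_im.mul (hcy.comp (by fun_prop))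
  · refine ae_of_all _ fun y s _ => ?_
    rw [norm_mul, Real.norm_of_nonneg (by norm_num : (0:ℝ) ≤ 2)]
    exact mul_le_mul_of_nonneg_left (DP_bound_aux hC hD s x y) (by norm_num)
  · exact (norm_mul_gam_int.const_mul _).const_mul 2
  · refine ae_of_all _ fun y s _ => ?_
    have h1 : HasDerivAt (fun s : ℝ => x + (2 * s) • y) ((2 : ℝ) • y) s := by
      have h2 : HasDerivAt (fun s : ℝ => 2 * s) 2 s := by
        simpa using (hasDerivAt_id s).const_mul 2
      exact (h2.smul_const y).const_add x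
    have h3 := ((hd (x + (2 * s) • y)).hasFDerivAt.comp_hasDerivAt s h1).const_mul (gam y)
    convert! h3 using 1
    rw [map_smul, fderiv_eq_dx_dy]
    simp only [smul_eq_mul]
    ring

lemma Q_apply {h : ℂ → ℝ} (hh : Measurable h) {C : ℝ} (hC : ∀ y, |h y| ≤ C) (s : ℝ) (x w : ℂ) :
    Q h s x w = ∫ y, gam y * h (x + (2 * s) • y) * (y.re * w.re + y.im * w.im) := by
  unfold Q
  have hint : Integrable (fun y => (gam y * h (x + (2 * s) • y)) • innerSL ℝ y) := by
    refine (norm_mul_gam_int.const_mul C).mono' ?_ (ae_of_all _ fun y => ?_)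
    · have : Continuous fun y : ℂ => innerSL ℝ y := by fun_prop
      exact (gam_cont.measurable.mul (meas_shift hh s x)).aestronglyMeasurable.smul
        this.aestronglyMeasurable
    · rw [norm_smul, norm_mul, Real.norm_of_nonneg (gam_pos _).le, innerSL_apply_norm]
      have := mul_le_mul_of_nonneg_left (hC (x + (2 * s) • y)) (gam_pos y).le
      calc gam y * ‖h (x + (2 * s) • y)‖ * ‖y‖ ≤ gam y * C * ‖y‖ :=
            mul_le_mul_of_nonneg_right this (norm_nonneg _)
        _ = C * (‖y‖ * gam y) := by ring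
  rw [ContinuousLinearMap.integral_apply hint]
  congr 1
  funext y
  simp only [_root_.smul_apply, innerSL_apply_apply, Complex.inner, smul_eq_mul, Complex.mul_re,
    Complex.conj_re, Complex.conj_im]
  ring

lemma Q_add_eq {h : ℂ → ℝ} (hh : B 1 h) (s : ℝ) (x : ℂ) :
    2 * (Q (dx h) s x 1 + Q (dy h) s x Complex.I) = DP h s x := by
  obtain ⟨hd, -, ⟨hcx, C, hC⟩, ⟨hcy, D, hD⟩⟩ := hh
  rw [Q_apply hcx.measurable hC, Q_apply hcy.measurable hD, DP]
  congr 1
  rw [← integral_add]
  · congr 1
    funext y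
    simp
    ring
  · refine (norm_mul_gam_int.const_mul C).mono' ?_ (ae_of_all _ fun y => ?_)
    · apply Continuous.aestronglyMeasurable
      have : Continuous fun y : ℂ => dx h (x + (2 * s) • y) := hcx.comp (by fun_prop)
      have := gam_cont
      fun_prop
    · simp only [Complex.one_re, Complex.one_im, mul_one, mul_zero, add_zero]
      rw [norm_mul, norm_mul, Real.norm_of_nonneg (gam_pos _).le]
      calc gam y * ‖dx h (x + (2 * s) • y)‖ * ‖y.re‖ ≤ gam y * C * ‖y‖ := by
            apply mul_le_mul _ (Complex.abs_re_le_norm y) (abs_nonneg _)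
            · exact mul_nonneg (gam_pos _).le ((abs_nonneg _).trans (hC 0))
            · exact mul_le_mul_of_nonneg_left (hC _) (gam_pos _).le
        _ = C * (‖y‖ * gam y) := by ring
  · refine (norm_mul_gam_int.const_mul D).mono' ?_ (ae_of_all _ fun y => ?_)
    · apply Continuous.aestronglyMeasurable
      have : Continuous fun y : ℂ => dy h (x + (2 * s) • y) := hcy.comp (by fun_prop)
      have := gam_cont
      fun_prop
    · simp only [Complex.I_re, Complex.I_im, mul_one, mul_zero, zero_add]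
      rw [norm_mul, norm_mul, Real.norm_of_nonneg (gam_pos _).le]
      calc gam y * ‖dy h (x + (2 * s) • y)‖ * ‖y.im‖ ≤ gam y * D * ‖y‖ := by
            apply mul_le_mul _ (Complex.abs_im_le_norm y) (abs_nonneg _)
            · exact mul_nonneg (gam_pos _).le ((abs_nonneg _).trans (hD 0))
            · exact mul_le_mul_of_nonneg_left (hD _) (gam_pos _).le
        _ = D * (‖y‖ * gam y) := by ring

lemma R'_apply {K : ℝ} (hK : 0 < K) {h : ℂ → ℝ} (hh : Measurable h) {C : ℝ} (hC : ∀ y, |h y| ≤ C)
    (x w : ℂ) : R' K h x w = ∫ s in Ioi 0, vK K s * Q h s x w := by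
  unfold R'
  rw [ContinuousLinearMap.integral_apply]
  · rfl
  · refine ((vK_int hK).integrableOn.const_mul (C * gm)).mono' ?_ ?_
    · exact ((vK_cont K).stronglyMeasurable.smul (meas_Q hh x)).aestronglyMeasurable
    · refine ae_of_all _ fun s => ?_
      rw [norm_smul, Real.norm_of_nonneg (vK_pos K s).le, mul_comm (C * gm)]
      exact mul_le_mul_of_nonneg_left (norm_Q_le hC s x) (vK_pos K s).le

lemma R'_integrable {K : ℝ} (hK : 0 < K) {h : ℂ → ℝ} (hh : Measurable h) {C : ℝ}
    (hC : ∀ y, |h y| ≤ C) (x w : ℂ) : IntegrableOn (fun s => vK K s * Q h s x w) (Ioi 0) := by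
  refine ((vK_int hK).integrableOn.const_mul (C * gm * ‖w‖)).mono' ?_ ?_
  · exact ((vK_cont K).stronglyMeasurable.mul
      ((ContinuousLinearMap.apply ℝ ℝ w).continuous.comp_stronglyMeasurable
        (meas_Q hh x))).aestronglyMeasurable
  · refine ae_of_all _ fun s => ?_
    rw [norm_mul, Real.norm_of_nonneg (vK_pos K s).le, mul_comm (C * gm * ‖w‖)]
    apply mul_le_mul_of_nonneg_left _ (vK_pos K s).le
    exact ((Q h s x).le_opNorm w).trans (mul_le_mul_of_nonneg_right (norm_Q_le hC s x) (norm_nonneg _))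

lemma lap_R {K : ℝ} (hK : 0 < K) {h : ℂ → ℝ} (hh : B 1 h) (x : ℂ) :
    lap (R K h) x = K * R K h x - h x := by
  have hh' := hh
  obtain ⟨hd, ⟨E, hE⟩, ⟨hcx, C, hC⟩, ⟨hcy, D, hD⟩⟩ := hh
  have e1 : dx (dx (R K h)) x = ∫ s in Ioi 0, vK K s * Q (dx h) s x 1 := by
    rw [dx_R hK hh', dx, (hasFDerivAt_R hK hcx.measurable hC x).fderiv, R'_apply hK hcx.measurable hC]
  have e2 : dy (dy (R K h)) x = ∫ s in Ioi 0, vK K s * Q (dy h) s x Complex.I := by
    rw [dy_R hK hh', dy, (hasFDerivAt_R hK hcy.measurable hD x).fderiv, R'_apply hK hcy.measurable hD]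
  have e3 : lap (R K h) x = ∫ s in Ioi 0, Real.exp (-K * s ^ 2) * DP h s x := by
    rw [lap, e1, e2, ← integral_add (R'_integrable hK hcx.measurable hC x 1)
      (R'_integrable hK hcy.measurable hD x Complex.I)]
    congr 1
    funext s
    rw [← Q_add_eq hh']
    unfold vK
    ring
  have hi1 : IntegrableOn (fun s => Real.exp (-K * s ^ 2) * DP h s x) (Ioi 0) := by
    refine ((integrable_exp_neg_mul_sq hK).integrableOn.const_mul (2 * ((C + D) * gm))).mono' ?_ ?_
    · have h1 : (fun s => Real.exp (-K * s ^ 2) * DP h s x) =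
          fun s => Real.exp (-K * s ^ 2) * deriv (fun s => P h s x) s := by
        funext s
        rw [(hasDerivAt_P hh' s x).deriv]
      rw [h1]
      exact (Continuous.measurable (by fun_prop)).aestronglyMeasurable.mul
        (measurable_deriv _).aestronglyMeasurable
    · refine ae_of_all _ fun s => ?_
      rw [norm_mul, Real.norm_of_nonneg (Real.exp_pos _).le, mul_comm]
      exact mul_le_mul_of_nonneg_right (abs_DP_le hC hD s x) (Real.exp_pos _).le
  have hi2 := R_integrable hK hd.continuous.measurable hE x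
  have e4 : ∫ s in Ioi 0, (Real.exp (-K * s ^ 2) * DP h s x - K * (wK K s * P h s x)) = - h x := by
    have h0 : P h 0 x = h x := by
      unfold P
      simp only [mul_zero, zero_smul, add_zero]
      rw [integral_mul_const, integral_gam, one_mul]
    have := integral_Ioi_of_hasDerivAt_of_tendsto' (a := 0)
      (f := fun s => Real.exp (-K * s ^ 2) * P h s x)
      (f' := fun s => Real.exp (-K * s ^ 2) * DP h s x - K * (wK K s * P h s x)) (m := 0)
      ?_ (hi1.sub (hi2.const_mul K)) ?_
    · rw [this, h0]; simp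
    · intro s _
      have h1 : HasDerivAt (fun s : ℝ => -K * s ^ 2) (-K * (2 * s)) s := by
        simpa using (hasDerivAt_pow 2 s).const_mul (-K)
      have h2 := h1.exp.mul (hasDerivAt_P hh' s x)
      convert! h2 using 1
      unfold wK
      ring
    · have h1 : Tendsto (fun s : ℝ => Real.exp (-K * s ^ 2) * E) atTop (𝓝 0) := by
        have := (Real.tendsto_exp_atBot.comp
          ((tendsto_pow_atTop (α := ℝ) two_ne_zero).const_mul_atTop_of_neg
            (neg_lt_zero.2 hK))).mul_const E
        simpa using this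
      apply squeeze_zero_norm _ h1
      intro s
      rw [norm_mul, Real.norm_of_nonneg (Real.exp_pos _).le]
      exact mul_le_mul_of_nonneg_left (abs_P_le hE s x) (Real.exp_pos _).le
  rw [integral_sub hi1 (hi2.const_mul K), integral_const_mul, ← e3] at e4
  change lap (R K h) x - K * R K h x = - h x at e4
  linarith

end Pool.Agent.Work.MP_e9f444_mp
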