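import Mathlib
import Pool.Agent.Work.MP_e9f444_mp.LapR

set_option autoImplicit false

open MeasureTheory Set Filter Topology

namespace Pool.Agent.Work.MP_e9f444_mp

lemma differentiableAt_fderiv_apply {f : ℂ → ℝ} {x : ℂ} (hf : ContDiffAt ℝ 2 f x) (w : ℂ) :
    DifferentiableAt ℝ (fun z => fderiv ℝ f z w) x := by
  have h1 : ContDiffAt ℝ 1 (fderiv ℝ f) x := hf.fderiv_right (m := 1) (by norm_num)
  exact (h1.differentiableAt one_ne_zero).clm_apply (differentiableAt_const w)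

lemma eventually_differentiableAt {f : ℂ → ℝ} {x : ℂ} (hf : ContDiffAt ℝ 2 f x) :
    ∀ᶠ z in 𝓝 x, DifferentiableAt ℝ f z := by
  filter_upwards [hf.eventually (by simp)] with z hz
  exact hz.differentiableAt (by norm_num)

lemma second_deriv_test {f : ℂ → ℝ} {x : ℂ} (hf : ContDiffAt ℝ 2 f x) (hm : IsLocalMax f x) (w : ℂ) :
    fderiv ℝ (fun z => fderiv ℝ f z w) x w ≤ 0 := by
  by_contra hneg
  push Not at hneg
  set φ : ℝ → ℝ := fun t => f (x + t • w) with hφ
  have hγ : ∀ t : ℝ, HasDerivAt (fun t : ℝ => x + t • w) w t := by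
    intro t
    have := (hasDerivAt_id t).smul_const w
    simpa using this.const_add x
  have hγ0 : Tendsto (fun t : ℝ => x + t • w) (𝓝 0) (𝓝 x) := by
    have := (hγ 0).continuousAt.tendsto
    simpa using this
  have h1 : deriv φ =ᶠ[𝓝 0] fun t => fderiv ℝ f (x + t • w) w := by
    filter_upwards [hγ0.eventually (eventually_differentiableAt hf)] with t ht
    exact (ht.hasFDerivAt.comp_hasDerivAt t (hγ t)).deriv
  have h2 : HasDerivAt (fun t : ℝ => fderiv ℝ f (x + t • w) w)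
      (fderiv ℝ (fun z => fderiv ℝ f z w) x w) 0 := by
    have h3 : DifferentiableAt ℝ (fun z => fderiv ℝ f z w) (x + (0 : ℝ) • w) := by
      simpa using differentiableAt_fderiv_apply hf w
    have h4 := h3.hasFDerivAt.comp_hasDerivAt (0 : ℝ) (hγ 0)
    have e : x + (0 : ℝ) • w = x := by simp
    rw [e] at h4
    exact h4
  have h5 : deriv (deriv φ) 0 = fderiv ℝ (fun z => fderiv ℝ f z w) x w := by
    rw [h1.deriv_eq]; exact h2.deriv
  have hmax : IsLocalMax φ 0 := by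
    have : ∀ᶠ t in 𝓝 (0 : ℝ), f (x + t • w) ≤ f x := hγ0.eventually hm
    filter_upwards [this] with t ht
    simpa [hφ] using ht
  have hd0 : deriv φ 0 = 0 := hmax.deriv_eq_zero
  have hcont : ContinuousAt φ 0 := by
    have h3 : DifferentiableAt ℝ f (x + (0 : ℝ) • w) := by
      simpa using hf.differentiableAt (by norm_num)
    exact (h3.hasFDerivAt.comp_hasDerivAt (0 : ℝ) (hγ 0)).continuousAt
  have hmin : IsLocalMin φ 0 := isLocalMin_of_deriv_deriv_pos (by rw [h5]; exact hneg) hd0 hcont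
  have hconst : φ =ᶠ[𝓝 0] fun _ => φ 0 := by
    filter_upwards [hmax, hmin] with t h6 h7
    exact le_antisymm h6 h7
  have h8 : deriv φ =ᶠ[𝓝 0] fun _ => 0 := by
    have := hconst.deriv
    refine this.trans ?_
    simp
  have h9 : deriv (deriv φ) 0 = 0 := by
    rw [h8.deriv_eq]; simp
  rw [h5] at h9
  linarith

lemma lap_nonpos {f : ℂ → ℝ} {x : ℂ} (hf : ContDiffAt ℝ 2 f x) (hm : IsLocalMax f x) :
    lap f x ≤ 0 :=
  add_nonpos (second_deriv_test hf hm 1) (second_deriv_test hf hm Complex.I)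

lemma dx_congr {f g : ℂ → ℝ} {x : ℂ} (h : f =ᶠ[𝓝 x] g) : dx f x = dx g x := by
  unfold dx; rw [h.fderiv_eq]

lemma dy_congr {f g : ℂ → ℝ} {x : ℂ} (h : f =ᶠ[𝓝 x] g) : dy f x = dy g x := by
  unfold dy; rw [h.fderiv_eq]

lemma dx_add' {f g : ℂ → ℝ} {x : ℂ} (hf : DifferentiableAt ℝ f x) (hg : DifferentiableAt ℝ g x) :
    dx (fun z => f z + g z) x = dx f x + dx g x := by
  unfold dx; rw [fderiv_fun_add hf hg]; rfl

lemma dy_add' {f g : ℂ → ℝ} {x : ℂ} (hf : DifferentiableAt ℝ f x) (hg : DifferentiableAt ℝ g x) :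
    dy (fun z => f z + g z) x = dy f x + dy g x := by
  unfold dy; rw [fderiv_fun_add hf hg]; rfl

lemma dx_mul' {f g : ℂ → ℝ} {x : ℂ} (hf : DifferentiableAt ℝ f x) (hg : DifferentiableAt ℝ g x) :
    dx (fun z => f z * g z) x = f x * dx g x + g x * dx f x := by
  unfold dx; rw [fderiv_fun_mul hf hg]; simp

lemma dy_mul' {f g : ℂ → ℝ} {x : ℂ} (hf : DifferentiableAt ℝ f x) (hg : DifferentiableAt ℝ g x) :
    dy (fun z => f z * g z) x = f x * dy g x + g x * dy f x := by
  unfold dy; rw [fderiv_fun_mul hf hg]; simp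

lemma diff_dx {f : ℂ → ℝ} {x : ℂ} (hf : ContDiffAt ℝ 2 f x) : DifferentiableAt ℝ (dx f) x :=
  differentiableAt_fderiv_apply hf 1

lemma diff_dy {f : ℂ → ℝ} {x : ℂ} (hf : ContDiffAt ℝ 2 f x) : DifferentiableAt ℝ (dy f) x :=
  differentiableAt_fderiv_apply hf Complex.I

lemma lap_add {f g : ℂ → ℝ} {x : ℂ} (hf : ContDiffAt ℝ 2 f x) (hg : ContDiffAt ℝ 2 g x) :
    lap (fun z => f z + g z) x = lap f x + lap g x := by
  have h1 : dx (fun z => f z + g z) =ᶠ[𝓝 x] fun z => dx f z + dx g z := by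
    filter_upwards [eventually_differentiableAt hf, eventually_differentiableAt hg] with z h1 h2
    exact dx_add' h1 h2
  have h2 : dy (fun z => f z + g z) =ᶠ[𝓝 x] fun z => dy f z + dy g z := by
    filter_upwards [eventually_differentiableAt hf, eventually_differentiableAt hg] with z h1 h2
    exact dy_add' h1 h2
  unfold lap
  rw [dx_congr h1, dy_congr h2, dx_add' (diff_dx hf) (diff_dx hg), dy_add' (diff_dy hf) (diff_dy hg)]
  ring

lemma lap_const_mul {f : ℂ → ℝ} {x : ℂ} (c : ℝ) (hf : ContDiffAt ℝ 2 f x) :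
    lap (fun z => c * f z) x = c * lap f x := by
  have h1 : dx (fun z => c * f z) =ᶠ[𝓝 x] fun z => c * dx f z := by
    filter_upwards [eventually_differentiableAt hf] with z h1
    rw [dx_mul' (differentiableAt_const c) h1]
    simp [dx_const]
  have h2 : dy (fun z => c * f z) =ᶠ[𝓝 x] fun z => c * dy f z := by
    filter_upwards [eventually_differentiableAt hf] with z h1
    rw [dy_mul' (differentiableAt_const c) h1]
    simp [dy_const]
  unfold lap
  rw [dx_congr h1, dy_congr h2, dx_mul' (differentiableAt_const c) (diff_dx hf),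
    dy_mul' (differentiableAt_const c) (diff_dy hf)]
  simp [dx_const, dy_const]
  ring

lemma lap_neg {f : ℂ → ℝ} {x : ℂ} (hf : ContDiffAt ℝ 2 f x) :
    lap (fun z => - f z) x = - lap f x := by
  have := lap_const_mul (-1) hf
  simpa using this

lemma lap_sub {f g : ℂ → ℝ} {x : ℂ} (hf : ContDiffAt ℝ 2 f x) (hg : ContDiffAt ℝ 2 g x) :
    lap (fun z => f z - g z) x = lap f x - lap g x := by
  have := lap_add hf hg.neg
  have h2 := lap_neg hg
  simp only [sub_eq_add_neg]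
  rw [← h2, ← this]

lemma lap_const (c : ℝ) (x : ℂ) : lap (fun _ => c) x = 0 := by
  unfold lap
  rw [dx_const, dy_const, dx_const, dy_const]
  simp

lemma lap_congr {f g : ℂ → ℝ} {x : ℂ} (h : f =ᶠ[𝓝 x] g) : lap f x = lap g x := by
  unfold lap
  have h1 : dx f =ᶠ[𝓝 x] dx g := by
    filter_upwards [h.eventuallyEq_nhds] with z hz using dx_congr hz
  have h2 : dy f =ᶠ[𝓝 x] dy g := by
    filter_upwards [h.eventuallyEq_nhds] with z hz using dy_congr hz
  rw [dx_congr h1, dy_congr h2]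

lemma dx_comp {φ : ℝ → ℝ} {φ' : ℝ} {g : ℂ → ℝ} {x : ℂ} (h : HasDerivAt φ φ' (g x))
    (hg : DifferentiableAt ℝ g x) : dx (fun z => φ (g z)) x = φ' * dx g x := by
  unfold dx
  have := h.comp_hasFDerivAt x hg.hasFDerivAt
  have h2 : fderiv ℝ (fun z => φ (g z)) x = φ' • fderiv ℝ g x := this.fderiv
  rw [h2]
  simp

lemma dy_comp {φ : ℝ → ℝ} {φ' : ℝ} {g : ℂ → ℝ} {x : ℂ} (h : HasDerivAt φ φ' (g x))
    (hg : DifferentiableAt ℝ g x) : dy (fun z => φ (g z)) x = φ' * dy g x := by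
  unfold dy
  have := h.comp_hasFDerivAt x hg.hasFDerivAt
  have h2 : fderiv ℝ (fun z => φ (g z)) x = φ' • fderiv ℝ g x := this.fderiv
  rw [h2]
  simp

lemma lap_comp {φ φ1 : ℝ → ℝ} {φ2 : ℝ} {g : ℂ → ℝ} {x : ℂ}
    (h1 : ∀ᶠ t in 𝓝 (g x), HasDerivAt φ (φ1 t) t) (h2 : HasDerivAt φ1 φ2 (g x))
    (hg : ContDiffAt ℝ 2 g x) :
    lap (fun z => φ (g z)) x = φ1 (g x) * lap g x + φ2 * ((dx g x) ^ 2 + (dy g x) ^ 2) := by
  have hgc : Tendsto g (𝓝 x) (𝓝 (g x)) := hg.continuousAt.tendsto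
  have e1 : dx (fun z => φ (g z)) =ᶠ[𝓝 x] fun z => φ1 (g z) * dx g z := by
    filter_upwards [eventually_differentiableAt hg, hgc.eventually h1] with z hz1 hz2
    exact dx_comp hz2 hz1
  have e2 : dy (fun z => φ (g z)) =ᶠ[𝓝 x] fun z => φ1 (g z) * dy g z := by
    filter_upwards [eventually_differentiableAt hg, hgc.eventually h1] with z hz1 hz2
    exact dy_comp hz2 hz1
  have hg1 : DifferentiableAt ℝ g x := hg.differentiableAt (by norm_num)
  have e3 : DifferentiableAt ℝ (fun z => φ1 (g z)) x :=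
    (h2.comp_hasFDerivAt x hg1.hasFDerivAt).differentiableAt
  unfold lap
  rw [dx_congr e1, dy_congr e2, dx_mul' e3 (diff_dx hg), dy_mul' e3 (diff_dy hg),
    dx_comp h2 hg1, dy_comp h2 hg1]
  ring

/-- `1 / (1 + |z|²)`. -/
noncomputable def sfun (z : ℂ) : ℝ := (1 + ‖z‖ ^ 2)⁻¹

lemma sfun_pos (z : ℂ) : 0 < sfun z := by unfold sfun; positivity

lemma sfun_le_one (z : ℂ) : sfun z ≤ 1 := by
  unfold sfun
  exact inv_le_one_of_one_le₀ (by nlinarith [sq_nonneg ‖z‖])

lemma polynomial_fderiv (p : Polynomial ℂ) (z : ℂ) :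
    HasFDerivAt (fun z => p.eval z) ((p.derivative.eval z) • (1 : ℂ →L[ℝ] ℂ)) z :=
  (p.hasDerivAt z).complexToReal_fderiv

lemma contDiff_polynomial (p : Polynomial ℂ) : ContDiff ℝ ⊤ (fun z : ℂ => p.eval z) := by
  have h : ContDiff ℂ ⊤ (fun z : ℂ => p.eval z) := by
    have := p.contDiff_aeval (n := ⊤) (𝕜 := ℂ) (R := ℂ)
    simpa using this
  exact h.restrict_scalars ℝ

lemma contDiff_normSq_polynomial (p : Polynomial ℂ) :
    ContDiff ℝ ⊤ (fun z : ℂ => ‖p.eval z‖ ^ 2) :=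
  (contDiff_polynomial p).norm_sq ℝ

lemma dx_normSq_polynomial (p : Polynomial ℂ) (z : ℂ) :
    dx (fun z => ‖p.eval z‖ ^ 2) z =
      2 * ((p.eval z).re * (p.derivative.eval z).re + (p.eval z).im * (p.derivative.eval z).im) := by
  unfold dx
  rw [((polynomial_fderiv p z).norm_sq).fderiv]
  simp [Complex.inner]
  ring

lemma dy_normSq_polynomial (p : Polynomial ℂ) (z : ℂ) :
    dy (fun z => ‖p.eval z‖ ^ 2) z =
      2 * (-(p.eval z).re * (p.derivative.eval z).im + (p.eval z).im * (p.derivative.eval z).re) := by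
  unfold dy
  rw [((polynomial_fderiv p z).norm_sq).fderiv]
  simp [Complex.inner]
  ring

lemma dx_re_polynomial (p : Polynomial ℂ) (z : ℂ) :
    dx (fun z => (p.eval z).re) z = (p.derivative.eval z).re := by
  unfold dx
  have := (Complex.reCLM.hasFDerivAt (x := p.eval z)).comp z (polynomial_fderiv p z)
  have h2 : fderiv ℝ (fun z => (p.eval z).re) z = Complex.reCLM.comp
    ((p.derivative.eval z) • (1 : ℂ →L[ℝ] ℂ)) := this.fderiv
  rw [h2]; simp

lemma dx_im_polynomial (p : Polynomial ℂ) (z : ℂ) :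
    dx (fun z => (p.eval z).im) z = (p.derivative.eval z).im := by
  unfold dx
  have := (Complex.imCLM.hasFDerivAt (x := p.eval z)).comp z (polynomial_fderiv p z)
  have h2 : fderiv ℝ (fun z => (p.eval z).im) z = Complex.imCLM.comp
    ((p.derivative.eval z) • (1 : ℂ →L[ℝ] ℂ)) := this.fderiv
  rw [h2]; simp

lemma dy_re_polynomial (p : Polynomial ℂ) (z : ℂ) :
    dy (fun z => (p.eval z).re) z = -(p.derivative.eval z).im := by
  unfold dy
  have := (Complex.reCLM.hasFDerivAt (x := p.eval z)).comp z (polynomial_fderiv p z)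
  have h2 : fderiv ℝ (fun z => (p.eval z).re) z = Complex.reCLM.comp
    ((p.derivative.eval z) • (1 : ℂ →L[ℝ] ℂ)) := this.fderiv
  rw [h2]; simp

lemma dy_im_polynomial (p : Polynomial ℂ) (z : ℂ) :
    dy (fun z => (p.eval z).im) z = (p.derivative.eval z).re := by
  unfold dy
  have := (Complex.imCLM.hasFDerivAt (x := p.eval z)).comp z (polynomial_fderiv p z)
  have h2 : fderiv ℝ (fun z => (p.eval z).im) z = Complex.imCLM.comp
    ((p.derivative.eval z) • (1 : ℂ →L[ℝ] ℂ)) := this.fderiv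
  rw [h2]; simp

lemma diff_re_polynomial (p : Polynomial ℂ) : Differentiable ℝ (fun z : ℂ => (p.eval z).re) :=
  fun z => ((Complex.reCLM.hasFDerivAt (x := p.eval z)).comp z (polynomial_fderiv p z)).differentiableAt

lemma diff_im_polynomial (p : Polynomial ℂ) : Differentiable ℝ (fun z : ℂ => (p.eval z).im) :=
  fun z => ((Complex.imCLM.hasFDerivAt (x := p.eval z)).comp z (polynomial_fderiv p z)).differentiableAt

lemma lap_normSq_polynomial (p : Polynomial ℂ) (z : ℂ) :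
    lap (fun z => ‖p.eval z‖ ^ 2) z = 4 * ‖p.derivative.eval z‖ ^ 2 := by
  have e1 : dx (fun z => ‖p.eval z‖ ^ 2) = fun z =>
      2 * ((p.eval z).re * (p.derivative.eval z).re + (p.eval z).im * (p.derivative.eval z).im) := by
    funext z; exact dx_normSq_polynomial p z
  have e2 : dy (fun z => ‖p.eval z‖ ^ 2) = fun z =>
      2 * ((-1) * ((p.eval z).re * (p.derivative.eval z).im) +
        (p.eval z).im * (p.derivative.eval z).re) := by
    funext z; rw [dy_normSq_polynomial p z]; ring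
  have r0 := diff_re_polynomial p
  have i0 := diff_im_polynomial p
  have r1 := diff_re_polynomial p.derivative
  have i1 := diff_im_polynomial p.derivative
  unfold lap
  rw [e1, e2]
  rw [dx_mul' (differentiableAt_const _) (((r0 z).fun_mul (r1 z)).fun_add ((i0 z).fun_mul (i1 z))),
    dx_add' ((r0 z).fun_mul (r1 z)) ((i0 z).fun_mul (i1 z)), dx_mul' (r0 z) (r1 z),
    dx_mul' (i0 z) (i1 z), dy_mul' (differentiableAt_const _)
      (((differentiableAt_const _).fun_mul ((r0 z).fun_mul (i1 z))).fun_add ((i0 z).fun_mul (r1 z))),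
    dy_add' ((differentiableAt_const _).fun_mul ((r0 z).fun_mul (i1 z))) ((i0 z).fun_mul (r1 z)),
    dy_mul' (differentiableAt_const _) ((r0 z).fun_mul (i1 z)),
    dy_mul' (r0 z) (i1 z), dy_mul' (i0 z) (r1 z)]
  simp only [dx_re_polynomial, dx_im_polynomial, dy_re_polynomial, dy_im_polynomial, dx_const,
    dy_const]
  rw [← Complex.normSq_eq_norm_sq, Complex.normSq_apply]
  ring

lemma grad_normSq_polynomial (p : Polynomial ℂ) (z : ℂ) :
    (dx (fun z => ‖p.eval z‖ ^ 2) z) ^ 2 + (dy (fun z => ‖p.eval z‖ ^ 2) z) ^ 2 =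
      4 * ‖p.eval z‖ ^ 2 * ‖p.derivative.eval z‖ ^ 2 := by
  rw [dx_normSq_polynomial, dy_normSq_polynomial, ← Complex.normSq_eq_norm_sq,
    ← Complex.normSq_eq_norm_sq, Complex.normSq_apply, Complex.normSq_apply]
  ring

/-- `Δ log (c + |p|²) = 4 c |p'|² / (c + |p|²)²`. -/
lemma lap_log_polynomial (p : Polynomial ℂ) {c : ℝ} {z : ℂ} (h : 0 < c + ‖p.eval z‖ ^ 2) :
    lap (fun z => Real.log (c + ‖p.eval z‖ ^ 2)) z =
      4 * c * ‖p.derivative.eval z‖ ^ 2 / (c + ‖p.eval z‖ ^ 2) ^ 2 := by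
  have h1 : ∀ᶠ t in 𝓝 (‖p.eval z‖ ^ 2), HasDerivAt (fun t => Real.log (c + t)) (c + t)⁻¹ t := by
    have : ∀ᶠ t in 𝓝 (‖p.eval z‖ ^ 2), 0 < c + t :=
      (continuous_const.add continuous_id).continuousAt.eventually (lt_mem_nhds h)
    filter_upwards [this] with t ht
    have h2 := ((hasDerivAt_id t).const_add c).log ht.ne'
    simpa using h2
  have h2 : HasDerivAt (fun t => (c + t)⁻¹) (-((c + ‖p.eval z‖ ^ 2) ^ 2)⁻¹) (‖p.eval z‖ ^ 2) := by
    have := ((hasDerivAt_id (‖p.eval z‖ ^ 2)).const_add c).inv h.ne'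
    convert! this using 1
    rw [neg_div, one_div]
    rfl
  have := lap_comp h1 h2 ((contDiff_normSq_polynomial p).contDiffAt.of_le (by exact le_top))
  rw [this, lap_normSq_polynomial, grad_normSq_polynomial]
  field_simp
  ring

lemma contDiffAt_log_polynomial (p : Polynomial ℂ) {c : ℝ} {z : ℂ} (h : 0 < c + ‖p.eval z‖ ^ 2) :
    ContDiffAt ℝ 2 (fun z => Real.log (c + ‖p.eval z‖ ^ 2)) z := by
  refine ContDiffAt.log (f := fun z => c + ‖p.eval z‖ ^ 2) ?_ h.ne'
  exact contDiffAt_const.add ((contDiff_normSq_polynomial p).contDiffAt.of_le (by exact le_top))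

lemma lap_log_one_add (z : ℂ) : lap (fun z => Real.log (1 + ‖z‖ ^ 2)) z = 4 * sfun z ^ 2 := by
  have h : 0 < (1 : ℝ) + ‖(Polynomial.X : Polynomial ℂ).eval z‖ ^ 2 := by positivity
  have := lap_log_polynomial Polynomial.X h
  simp only [Polynomial.eval_X, Polynomial.derivative_X, Polynomial.eval_one, norm_one] at this
  rw [this, sfun]
  field_simp

lemma contDiff_log_one_add : ContDiff ℝ ⊤ (fun z : ℂ => Real.log (1 + ‖z‖ ^ 2)) := by
  apply ContDiff.log
  · exact contDiff_const.add (contDiff_id.norm_sq ℝ)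
  · intro z; positivity

/-- Maximum principle on the plane. -/
theorem max_principle {g : ℂ → ℝ} {K : ℝ} (hK : 0 < K) (hg : Continuous g) {M : ℝ}
    (hM : ∀ x, g x ≤ M)
    (h : ∀ x, 0 < g x → ∃ G : ℂ → ℝ, ContDiffAt ℝ 2 G x ∧ G x = g x ∧ (∀ᶠ y in 𝓝 x, G y ≤ g y) ∧
      K * g x ≤ lap G x) : ∀ x, g x ≤ 0 := by
  by_contra hcon
  push Not at hcon
  obtain ⟨x₁, hx₁⟩ := hcon
  set L : ℂ → ℝ := fun z => Real.log (1 + ‖z‖ ^ 2) with hL
  have hL0 : ∀ z, 0 ≤ L z := fun z => Real.log_nonneg (by nlinarith [sq_nonneg ‖z‖])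
  have hLc : Continuous L := contDiff_log_one_add.continuous
  obtain ⟨ε, hε, hε1, hε2⟩ : ∃ ε : ℝ, 0 < ε ∧ ε * L x₁ ≤ g x₁ / 2 ∧ 4 * ε < K * (g x₁ / 2) := by
    refine ⟨min (g x₁ / 2 / (L x₁ + 1)) (K * (g x₁ / 2) / 8), ?_, ?_, ?_⟩
    · have := hL0 x₁
      positivity
    · have h0 := hL0 x₁
      calc _ ≤ (g x₁ / 2 / (L x₁ + 1)) * (L x₁ + 1) := by
            apply mul_le_mul (min_le_left _ _) (by linarith) h0 (by positivity)
        _ = g x₁ / 2 := by field_simp
    · have := min_le_right (g x₁ / 2 / (L x₁ + 1)) (K * (g x₁ / 2) / 8)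
      have h3 : 0 < K * (g x₁ / 2) := by positivity
      linarith
  have hΨc : Continuous fun x => g x - ε * L x := hg.sub (continuous_const.mul hLc)
  have hLt : Tendsto L (cocompact ℂ) atTop := by
    apply Real.tendsto_log_atTop.comp
    apply tendsto_atTop_add_const_left
    exact (tendsto_pow_atTop two_ne_zero).comp tendsto_norm_cocompact_atTop
  have hev : ∀ᶠ x in cocompact ℂ, g x - ε * L x ≤ g x₁ - ε * L x₁ := by
    have h1 := hLt.eventually_ge_atTop ((M - (g x₁ - ε * L x₁)) / ε)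
    filter_upwards [h1] with x hx
    rw [div_le_iff₀ hε] at hx
    have := hM x
    linarith
  obtain ⟨x₀, hx₀⟩ := hΨc.exists_forall_ge' x₁ hev
  have hgx₀ : g x₁ / 2 ≤ g x₀ := by
    have h1 := hx₀ x₁
    have h2 := mul_nonneg hε.le (hL0 x₀)
    linarith
  obtain ⟨G, hG1, hG2, hG3, hG4⟩ := h x₀ (by linarith)
  have hLC : ContDiffAt ℝ 2 L x₀ := contDiff_log_one_add.contDiffAt.of_le (by exact le_top)
  have hloc : IsLocalMax (fun z => G z - ε * L z) x₀ := by
    filter_upwards [hG3] with y hy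
    have := hx₀ y
    rw [hG2]
    linarith
  have h1 := lap_nonpos (hG1.sub (contDiffAt_const.mul hLC)) hloc
  have h2 := lap_sub hG1 (contDiffAt_const (c := ε).mul hLC)
  have h3 := lap_const_mul ε hLC
  have h4 : lap L x₀ = 4 * sfun x₀ ^ 2 := lap_log_one_add x₀
  have h5 : sfun x₀ ^ 2 ≤ 1 := by
    have := sfun_le_one x₀
    have := (sfun_pos x₀).le
    nlinarith
  change lap (fun z => G z - ε * L z) x₀ ≤ 0 at h1
  rw [h2, h3, h4] at h1
  have h6 : K * (g x₁ / 2) ≤ K * g x₀ := mul_le_mul_of_nonneg_left hgx₀ hK.le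
  nlinarith

end Pool.Agent.Work.MP_e9f444_mp
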