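import Mathlib
import Pool.Agent.Work.MP_e9f444_mp.MaxPrin

set_option autoImplicit false

open MeasureTheory Set Filter Topology

namespace Pool.Agent.Work.MP_e9f444_mp

/-- One step of the monotone iteration. -/
noncomputable def T (K : ℝ) (F : ℂ → ℝ → ℝ) (v : ℂ → ℝ) : ℂ → ℝ :=
  R K (fun x => K * v x - F x (v x))

theorem exists_solution {F : ℂ → ℝ → ℝ} {K m M C : ℝ} (hK : 0 < K)
    (hFc : ∀ x, Continuous (F x))
    (hFm : ∀ v : ℂ → ℝ, Measurable v → Measurable (fun x => F x (v x)))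
    (hFB : ∀ k v, B k v → B k (fun x => F x (v x)))
    (hFb : ∀ x v, m ≤ v → v ≤ M → |F x v| ≤ C)
    (hmono : ∀ x v v', m ≤ v → v ≤ v' → v' ≤ M → K * v - F x v ≤ K * v' - F x v')
    (vm : ℂ → ℝ) (hvm : ∀ k, B k vm) (hvm1 : ∀ x, m ≤ vm x) (hsub : ∀ x, F x (vm x) ≤ lap vm x)
    (vp : ℂ → ℝ) (hvpc : Continuous vp) (hvp : ∀ x, vp x ≤ M) (hle : ∀ x, vm x ≤ vp x)
    (hsup : ∀ x, ∃ G : ℂ → ℝ, ContDiffAt ℝ 2 G x ∧ G x = vp x ∧ (∀ᶠ y in 𝓝 x, vp y ≤ G y) ∧
      lap G x ≤ F x (vp x)) :
    ∃ v : ℂ → ℝ, (∀ k, B k v) ∧ (∀ x, vm x ≤ v x) ∧ (∀ x, v x ≤ vp x) ∧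
      ∀ x, lap v x = F x (v x) := by
  have hBH : ∀ k v, B k v → B k (fun x => K * v x - F x (v x)) := fun k v hv =>
    (hv.const_mul K).sub (hFB k v hv)
  have hBT : ∀ v, (∀ k, B k v) → ∀ k, B k (T K F v) := fun v hv k =>
    (R_B hK (hBH k v (hv k))).pred
  have hlapT : ∀ v, (∀ k, B k v) → ∀ x, lap (T K F v) x = K * T K F v x - (K * v x - F x (v x)) :=
    fun v hv x => lap_R hK (hBH 1 v (hv 1)) x
  have hC2 : ∀ v, (∀ k, B k v) → ∀ x, ContDiffAt ℝ 2 v x := fun v hv x =>
    (hv 2).contDiff.contDiffAt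
  -- upper barrier
  have hup : ∀ v, (∀ k, B k v) → (∀ x, vm x ≤ v x) → (∀ x, v x ≤ vp x) →
      ∀ x, T K F v x ≤ vp x := by
    intro v hv h1 h2
    obtain ⟨D, hD⟩ := (hBT v hv 0).bd
    have key := max_principle (g := fun x => T K F v x - vp x) (M := D - m) hK
      ((hBT v hv 0).continuous.sub hvpc) ?_ ?_
    · intro x
      have := key x
      linarith
    · intro x
      have e1 := (le_abs_self _).trans (hD x)
      have e2 := hvm1 x
      have e3 := hle x
      linarith
    · intro x hx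
      obtain ⟨G, hG1, hG2, hG3, hG4⟩ := hsup x
      refine ⟨fun y => T K F v y - G y, (hC2 _ (hBT v hv) x).sub hG1, by simp only [hG2], ?_, ?_⟩
      · filter_upwards [hG3] with y hy
        linarith
      · rw [lap_sub (hC2 _ (hBT v hv) x) hG1, hlapT v hv x]
        have e1 := hmono x (v x) (vp x) ((hvm1 x).trans (h1 x)) (h2 x) (hvp x)
        rw [mul_sub]
        linarith
  have hdown : ∀ x, vm x ≤ T K F vm x := by
    obtain ⟨D, hD⟩ := (hBT vm hvm 0).bd
    obtain ⟨E, hE⟩ := (hvm 0).bd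
    have key := max_principle (g := fun x => vm x - T K F vm x) (M := E + D) hK
      ((hvm 0).continuous.sub (hBT vm hvm 0).continuous) ?_ ?_
    · intro x
      have := key x
      linarith
    · intro x
      have e1 := (neg_abs_le _).trans' (neg_le_neg (hD x))
      have e2 := (le_abs_self _).trans (hE x)
      linarith
    · intro x hx
      refine ⟨fun y => vm y - T K F vm y, (hC2 _ hvm x).sub (hC2 _ (hBT vm hvm) x), rfl,
        Eventually.of_forall fun y => le_rfl, ?_⟩
      rw [lap_sub (hC2 _ hvm x) (hC2 _ (hBT vm hvm) x), hlapT vm hvm x]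
      have e1 := hsub x
      rw [mul_sub]
      linarith
  -- bound for the right-hand sides
  set D : ℝ := K * (|m| + |M|) + C with hDdef
  have hHb : ∀ v : ℂ → ℝ, (∀ x, m ≤ v x) → (∀ x, v x ≤ M) → ∀ x, |K * v x - F x (v x)| ≤ D := by
    intro v h1 h2 x
    have e1 : |K * v x| ≤ K * (|m| + |M|) := by
      rw [abs_mul, abs_of_pos hK]
      apply mul_le_mul_of_nonneg_left _ hK.le
      rw [abs_le]
      constructor
      · have := neg_abs_le m
        have := abs_nonneg M
        linarith [h1 x]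
      · have := le_abs_self M
        have := abs_nonneg m
        linarith [h2 x]
    have e2 := hFb x (v x) (h1 x) (h2 x)
    calc |K * v x - F x (v x)| ≤ |K * v x| + |F x (v x)| := abs_sub _ _
      _ ≤ D := add_le_add e1 e2
  have hTmono : ∀ v w, (∀ k, B k v) → (∀ k, B k w) → (∀ x, vm x ≤ v x) → (∀ x, v x ≤ w x) →
      (∀ x, w x ≤ vp x) → ∀ x, T K F v x ≤ T K F w x := by
    intro v w hv hw h1 h2 h3 x
    exact R_mono hK (hBH 0 v (hv 0)).continuous.measurable (hBH 0 w (hw 0)).continuous.measurable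
      (hHb v (fun x => (hvm1 x).trans (h1 x)) (fun x => (h2 x).trans ((h3 x).trans (hvp x))))
      (hHb w (fun x => (hvm1 x).trans ((h1 x).trans (h2 x))) (fun x => (h3 x).trans (hvp x)))
      (fun y => hmono y (v y) (w y) ((hvm1 y).trans (h1 y)) (h2 y) ((h3 y).trans (hvp y))) x
  set u : ℕ → ℂ → ℝ := fun n => (T K F)^[n] vm with hu
  have hu0 : u 0 = vm := rfl
  have hus : ∀ n, u (n + 1) = T K F (u n) := fun n => Function.iterate_succ_apply' _ _ _
  have hall : ∀ n, (∀ k, B k (u n)) ∧ (∀ x, vm x ≤ u n x) ∧ (∀ x, u n x ≤ vp x) ∧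
      ∀ x, u n x ≤ u (n + 1) x := by
    intro n
    induction n with
    | zero =>
      refine ⟨hvm, fun x => le_rfl, hle, ?_⟩
      intro x
      rw [hus 0, hu0]
      exact hdown x
    | succ n ih =>
      obtain ⟨i1, i2, i3, i4⟩ := ih
      have j1 : ∀ k, B k (u (n + 1)) := by rw [hus]; exact hBT _ i1
      have j3 : ∀ x, u (n + 1) x ≤ vp x := by rw [hus]; exact hup _ i1 i2 i3
      refine ⟨j1, fun x => (i2 x).trans (i4 x), j3, ?_⟩
      intro x
      rw [hus (n + 1)]
      conv_lhs => rw [hus n]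
      exact hTmono _ _ i1 j1 i2 i4 j3 x
  have hbdd : ∀ x, BddAbove (range fun n => u n x) := fun x =>
    ⟨vp x, by rintro _ ⟨n, rfl⟩; exact (hall n).2.2.1 x⟩
  have hmn : ∀ x, Monotone fun n => u n x := fun x => monotone_nat_of_le_succ fun n => (hall n).2.2.2 x
  set v : ℂ → ℝ := fun x => ⨆ n, u n x with hv
  have htend : ∀ x, Tendsto (fun n => u n x) atTop (𝓝 (v x)) := fun x =>
    tendsto_atTop_ciSup (hmn x) (hbdd x)
  have hvm2 : ∀ x, vm x ≤ v x := fun x => ge_of_tendsto' (htend x) fun n => (hall n).2.1 x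
  have hvp2 : ∀ x, v x ≤ vp x := fun x => le_of_tendsto' (htend x) fun n => (hall n).2.2.1 x
  have hvmeas : Measurable v :=
    measurable_of_tendsto_metrizable (fun n => ((hall n).1 0).continuous.measurable)
      (tendsto_pi_nhds.2 htend)
  have hfix : v = T K F v := by
    funext x
    have h1 : Tendsto (fun n => u (n + 1) x) atTop (𝓝 (v x)) := (htend x).comp (tendsto_add_atTop_nat 1)
    have h2 : Tendsto (fun n => u (n + 1) x) atTop (𝓝 (T K F v x)) := by
      simp_rw [hus]
      unfold T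
      apply R_tendsto hK (C := D)
      · intro n
        exact (hBH 0 _ ((hall n).1 0)).continuous.measurable
      · intro n y
        exact hHb (u n) (fun x => (hvm1 x).trans ((hall n).2.1 x))
          (fun x => ((hall n).2.2.1 x).trans (hvp x)) y
      · intro y
        exact ((htend y).const_mul K).sub (((hFc y).tendsto _).comp (htend y))
    exact tendsto_nhds_unique h1 h2
  have hHv : ∀ x, |K * v x - F x (v x)| ≤ D :=
    hHb v (fun x => (hvm1 x).trans (hvm2 x)) (fun x => (hvp2 x).trans (hvp x))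
  have hmeasH : Measurable fun x => K * v x - F x (v x) := (hvmeas.const_mul K).sub (hFm v hvmeas)
  have hB0 : B 0 v := by
    rw [hfix]
    refine ⟨?_, ⟨D / K, abs_R_le hK hHv⟩⟩
    exact continuous_iff_continuousAt.2 fun x => (hasFDerivAt_R hK hmeasH hHv x).continuousAt
  have hBk : ∀ k, B k v := by
    intro k
    induction k with
    | zero => exact hB0
    | succ k ih =>
      rw [hfix]
      exact R_B hK (hBH k v ih)
  refine ⟨v, hBk, hvm2, hvp2, fun x => ?_⟩
  have h1 := hlapT v hBk x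
  rw [← hfix] at h1
  rw [h1]
  ring

end Pool.Agent.Work.MP_e9f444_mp
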