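import Mathlib
import Pool.Agent.Work.MP_e9f444_mp.Iter

set_option autoImplicit false

open MeasureTheory Set Filter Topology

namespace Pool.Agent.Work.MP_e9f444_mp

/-- `x / (1 + |z|²)`. -/
noncomputable def xs (z : ℂ) : ℝ := z.re * sfun z

/-- `y / (1 + |z|²)`. -/
noncomputable def ys (z : ℂ) : ℝ := z.im * sfun z

lemma norm_sq_mul_sfun (z : ℂ) : ‖z‖ ^ 2 * sfun z = 1 - sfun z := by
  unfold sfun
  field_simp
  ring

lemma norm_sq_eq (z : ℂ) : ‖z‖ ^ 2 = z.re ^ 2 + z.im ^ 2 := by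
  rw [← Complex.normSq_eq_norm_sq, Complex.normSq_apply]; ring

lemma diff_normSq : Differentiable ℝ (fun z : ℂ => ‖z‖ ^ 2) :=
  fun z => (hasStrictFDerivAt_norm_sq z).hasFDerivAt.differentiableAt

lemma dx_normSq (z : ℂ) : dx (fun z => ‖z‖ ^ 2) z = 2 * z.re := by
  have := dx_normSq_polynomial Polynomial.X z
  simpa using this

lemma dy_normSq (z : ℂ) : dy (fun z => ‖z‖ ^ 2) z = 2 * z.im := by
  have := dy_normSq_polynomial Polynomial.X z
  simpa using this

lemma hasDerivAt_inv_one_add {t : ℝ} (ht : 0 < 1 + t) :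
    HasDerivAt (fun t : ℝ => (1 + t)⁻¹) (-((1 + t)⁻¹ ^ 2)) t := by
  have := ((hasDerivAt_id t).const_add 1).inv ht.ne'
  convert! this using 1
  rw [inv_pow, neg_div, one_div]
  rfl

lemma diff_sfun : Differentiable ℝ sfun := by
  intro z
  have h := (hasDerivAt_inv_one_add (t := ‖z‖ ^ 2) (by positivity)).comp_hasFDerivAt z
    (diff_normSq z).hasFDerivAt
  exact h.differentiableAt

lemma dx_sfun : dx sfun = fun z => -2 * (xs z * sfun z) := by
  funext z
  have h := dx_comp (g := fun z : ℂ => ‖z‖ ^ 2)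
    (hasDerivAt_inv_one_add (t := ‖z‖ ^ 2) (by positivity)) (diff_normSq z)
  rw [dx_normSq] at h
  have h2 : dx sfun z = -((1 + ‖z‖ ^ 2)⁻¹ ^ 2) * (2 * z.re) := h
  rw [h2]
  unfold xs sfun
  ring

lemma dy_sfun : dy sfun = fun z => -2 * (ys z * sfun z) := by
  funext z
  have h := dy_comp (g := fun z : ℂ => ‖z‖ ^ 2)
    (hasDerivAt_inv_one_add (t := ‖z‖ ^ 2) (by positivity)) (diff_normSq z)
  rw [dy_normSq] at h
  have h2 : dy sfun z = -((1 + ‖z‖ ^ 2)⁻¹ ^ 2) * (2 * z.im) := h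
  rw [h2]
  unfold ys sfun
  ring

lemma diff_re : Differentiable ℝ (fun z : ℂ => z.re) := Complex.reCLM.differentiable

lemma diff_im : Differentiable ℝ (fun z : ℂ => z.im) := Complex.imCLM.differentiable

lemma dx_re' (z : ℂ) : dx (fun z : ℂ => z.re) z = 1 := by
  have h : fderiv ℝ (fun z : ℂ => z.re) z = Complex.reCLM := Complex.reCLM.fderiv
  simp [dx, h]

lemma dy_re' (z : ℂ) : dy (fun z : ℂ => z.re) z = 0 := by
  have h : fderiv ℝ (fun z : ℂ => z.re) z = Complex.reCLM := Complex.reCLM.fderiv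
  simp [dy, h]

lemma dx_im' (z : ℂ) : dx (fun z : ℂ => z.im) z = 0 := by
  have h : fderiv ℝ (fun z : ℂ => z.im) z = Complex.imCLM := Complex.imCLM.fderiv
  simp [dx, h]

lemma dy_im' (z : ℂ) : dy (fun z : ℂ => z.im) z = 1 := by
  have h : fderiv ℝ (fun z : ℂ => z.im) z = Complex.imCLM := Complex.imCLM.fderiv
  simp [dy, h]

lemma dx_xs : dx xs = fun z => sfun z - 2 * (xs z * xs z) := by
  funext z
  have h := dx_mul' (diff_re z) (diff_sfun z)
  rw [dx_re', dx_sfun] at h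
  have h2 : dx xs z = z.re * (-2 * (xs z * sfun z)) + sfun z * 1 := h
  rw [h2]; unfold xs; ring

lemma dy_xs : dy xs = fun z => -2 * (xs z * ys z) := by
  funext z
  have h := dy_mul' (diff_re z) (diff_sfun z)
  rw [dy_re', dy_sfun] at h
  have h2 : dy xs z = z.re * (-2 * (ys z * sfun z)) + sfun z * 0 := h
  rw [h2]; unfold xs ys; ring

lemma dx_ys : dx ys = fun z => -2 * (xs z * ys z) := by
  funext z
  have h := dx_mul' (diff_im z) (diff_sfun z)
  rw [dx_im', dx_sfun] at h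
  have h2 : dx ys z = z.im * (-2 * (xs z * sfun z)) + sfun z * 0 := h
  rw [h2]; unfold xs ys; ring

lemma dy_ys : dy ys = fun z => sfun z - 2 * (ys z * ys z) := by
  funext z
  have h := dy_mul' (diff_im z) (diff_sfun z)
  rw [dy_im', dy_sfun] at h
  have h2 : dy ys z = z.im * (-2 * (ys z * sfun z)) + sfun z * 1 := h
  rw [h2]; unfold ys; ring

lemma bd_sfun : Bd sfun := ⟨1, fun z => by rw [abs_of_pos (sfun_pos z)]; exact sfun_le_one z⟩

lemma bd_xs : Bd xs := by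
  refine ⟨1, fun z => ?_⟩
  unfold xs
  rw [abs_mul, abs_of_pos (sfun_pos z)]
  have h1 := Complex.abs_re_le_norm z
  have h2 := norm_sq_mul_sfun z
  have h3 := sfun_pos z
  have h4 : |z.re| ≤ 1 + ‖z‖ ^ 2 := by nlinarith [sq_nonneg (‖z‖ - 1)]
  calc |z.re| * sfun z ≤ (1 + ‖z‖ ^ 2) * sfun z := mul_le_mul_of_nonneg_right h4 h3.le
    _ = 1 := by rw [add_mul, h2]; ring

lemma bd_ys : Bd ys := by
  refine ⟨1, fun z => ?_⟩
  unfold ys
  rw [abs_mul, abs_of_pos (sfun_pos z)]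
  have h1 := Complex.abs_im_le_norm z
  have h2 := norm_sq_mul_sfun z
  have h3 := sfun_pos z
  have h4 : |z.im| ≤ 1 + ‖z‖ ^ 2 := by nlinarith [sq_nonneg (‖z‖ - 1)]
  calc |z.im| * sfun z ≤ (1 + ‖z‖ ^ 2) * sfun z := mul_le_mul_of_nonneg_right h4 h3.le
    _ = 1 := by rw [add_mul, h2]; ring

lemma B_all : ∀ k, B k sfun ∧ B k xs ∧ B k ys := by
  have hs := diff_sfun
  have hx : Differentiable ℝ xs := diff_re.mul hs
  have hy : Differentiable ℝ ys := diff_im.mul hs
  intro k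
  induction k with
  | zero => exact ⟨⟨hs.continuous, bd_sfun⟩, ⟨hx.continuous, bd_xs⟩, ⟨hy.continuous, bd_ys⟩⟩
  | succ k ih =>
    obtain ⟨i1, i2, i3⟩ := ih
    refine ⟨⟨hs, bd_sfun, ?_, ?_⟩, ⟨hx, bd_xs, ?_, ?_⟩, ⟨hy, bd_ys, ?_, ?_⟩⟩
    · rw [dx_sfun]; exact (i2.mul i1).const_mul _
    · rw [dy_sfun]; exact (i3.mul i1).const_mul _
    · rw [dx_xs]; exact i1.sub ((i2.mul i2).const_mul _)
    · rw [dy_xs]; exact (i2.mul i3).const_mul _
    · rw [dx_ys]; exact (i2.mul i3).const_mul _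
    · rw [dy_ys]; exact i1.sub ((i3.mul i3).const_mul _)

lemma B_sfun (k : ℕ) : B k sfun := (B_all k).1

lemma rpow_aux {b : ℝ} {t : ℝ} (ht : 0 < t) : HasDerivAt (fun t : ℝ => t ^ b) (b * t ^ (b - 1)) t :=
  Real.hasDerivAt_rpow_const (Or.inl ht.ne')

lemma B_rpow {b : ℝ} (hb : 0 ≤ b) : ∀ k, B k (fun z => sfun z ^ b) := by
  have hd : Differentiable ℝ (fun z => sfun z ^ b) := fun z =>
    ((rpow_aux (b := b) (sfun_pos z)).comp_hasFDerivAt z (diff_sfun z).hasFDerivAt).differentiableAt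
  have hbd : Bd (fun z => sfun z ^ b) := ⟨1, fun z => by
    rw [abs_of_pos (Real.rpow_pos_of_pos (sfun_pos z) b)]
    exact Real.rpow_le_one (sfun_pos z).le (sfun_le_one z) hb⟩
  have h1 : dx (fun z => sfun z ^ b) = fun z => (-2 * b) * (sfun z ^ b * xs z) := by
    funext z
    rw [dx_comp (rpow_aux (b := b) (sfun_pos z)) (diff_sfun z), dx_sfun,
      Real.rpow_sub_one (sfun_pos z).ne']
    have := (sfun_pos z).ne'
    field_simp
  have h2 : dy (fun z => sfun z ^ b) = fun z => (-2 * b) * (sfun z ^ b * ys z) := by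
    funext z
    rw [dy_comp (rpow_aux (b := b) (sfun_pos z)) (diff_sfun z), dy_sfun,
      Real.rpow_sub_one (sfun_pos z).ne']
    have := (sfun_pos z).ne'
    field_simp
  intro k
  induction k with
  | zero => exact ⟨hd.continuous, hbd⟩
  | succ k ih =>
    refine ⟨hd, hbd, ?_, ?_⟩
    · rw [h1]; exact (ih.mul (B_all k).2.1).const_mul _
    · rw [h2]; exact (ih.mul (B_all k).2.2).const_mul _

lemma lap_sfun (z : ℂ) : lap sfun z = 4 * sfun z ^ 2 - 8 * sfun z ^ 3 := by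
  have hs := diff_sfun z
  have hx : DifferentiableAt ℝ xs z := (diff_re z).mul hs
  have hy : DifferentiableAt ℝ ys z := (diff_im z).mul hs
  unfold lap
  rw [dx_sfun, dy_sfun, dx_mul' (differentiableAt_const _) (hx.fun_mul hs),
    dy_mul' (differentiableAt_const _) (hy.fun_mul hs), dx_mul' hx hs, dy_mul' hy hs,
    dx_sfun, dy_sfun, dx_xs, dy_ys]
  simp only [dx_const, dy_const]
  have h1 : xs z * xs z + ys z * ys z = sfun z * (1 - sfun z) := by
    rw [← norm_sq_mul_sfun, norm_sq_eq]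
    unfold xs ys
    ring
  linear_combination (8 * sfun z) * h1

lemma grad_sfun (z : ℂ) : (dx sfun z) ^ 2 + (dy sfun z) ^ 2 = 4 * sfun z ^ 3 * (1 - sfun z) := by
  rw [dx_sfun, dy_sfun]
  have h1 : xs z * xs z + ys z * ys z = sfun z * (1 - sfun z) := by
    rw [← norm_sq_mul_sfun, norm_sq_eq]
    unfold xs ys
    ring
  simp only
  linear_combination (4 * sfun z ^ 2) * h1

lemma lap_sfun_pow (n : ℕ) (z : ℂ) : lap (fun z => sfun z ^ (n + 1)) z =
    4 * (n + 1) ^ 2 * sfun z ^ (n + 2) - 4 * (n + 1) * (n + 2) * sfun z ^ (n + 3) := by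
  have h2 : ContDiffAt ℝ 2 sfun z := (B_sfun 2).contDiff.contDiffAt
  have h3 : HasDerivAt (fun t : ℝ => ((n : ℝ) + 1) * t ^ n) (((n : ℝ) + 1) * (n * sfun z ^ (n - 1)))
      (sfun z) := (hasDerivAt_pow n (sfun z)).const_mul _
  have h4 : ∀ᶠ t in 𝓝 (sfun z), HasDerivAt (fun t : ℝ => t ^ (n + 1)) (((n : ℝ) + 1) * t ^ n) t :=
    Eventually.of_forall fun t => by simpa using hasDerivAt_pow (n + 1) t
  rw [lap_comp h4 h3 h2, lap_sfun, grad_sfun]
  rcases n with _ | n
  · push_cast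
    ring
  · simp only [Nat.add_sub_cancel]
    push_cast
    ring

/-- The subsolution is `-C₀ + N * subsum m`. -/
noncomputable def subsum (m : ℕ) (z : ℂ) : ℝ := ∑ j ∈ Finset.range m, (1 / ((j : ℝ) + 1)) * sfun z ^ (j + 1)

lemma B_subsum (m k : ℕ) : B k (subsum m) :=
  B.sum _ fun j _ => ((B_sfun k).pow (j + 1)).const_mul _

lemma subsum_nonneg (m : ℕ) (z : ℂ) : 0 ≤ subsum m z :=
  Finset.sum_nonneg fun j _ => mul_nonneg (by positivity) (pow_nonneg (sfun_pos z).le _)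

lemma subsum_le (m : ℕ) (z : ℂ) : subsum m z ≤ m := by
  have : subsum m z ≤ ∑ j ∈ Finset.range m, (1 : ℝ) := by
    apply Finset.sum_le_sum
    intro j _
    have h1 : (1 / ((j : ℝ) + 1)) ≤ 1 := by
      rw [div_le_one (by positivity)]
      have : (0 : ℝ) ≤ j := Nat.cast_nonneg j
      linarith
    have h2 : sfun z ^ (j + 1) ≤ 1 := pow_le_one₀ (sfun_pos z).le (sfun_le_one z)
    calc (1 / ((j : ℝ) + 1)) * sfun z ^ (j + 1) ≤ 1 * 1 :=
          mul_le_mul h1 h2 (pow_nonneg (sfun_pos z).le _) zero_le_one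
      _ = 1 := one_mul 1
  simpa using this

lemma lap_subsum (m : ℕ) (z : ℂ) :
    lap (subsum m) z = 4 * sfun z ^ 2 - 4 * (m + 1) * sfun z ^ (m + 2) := by
  induction m with
  | zero =>
    have : subsum 0 = fun _ => 0 := by funext z; simp [subsum]
    rw [this, lap_const]
    push_cast
    ring
  | succ m ih =>
    have h1 : subsum (m + 1) = fun z => subsum m z + (1 / ((m : ℝ) + 1)) * sfun z ^ (m + 1) := by
      funext z; simp [subsum, Finset.sum_range_succ]
    have h2 : ContDiffAt ℝ 2 (subsum m) z := (B_subsum m 2).contDiff.contDiffAt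
    have h3 : ContDiffAt ℝ 2 (fun z => sfun z ^ (m + 1)) z :=
      ((B_sfun 2).pow (m + 1)).contDiff.contDiffAt
    rw [h1, lap_add h2 (contDiffAt_const.mul h3), ih, lap_const_mul _ h3, lap_sfun_pow]
    push_cast
    field_simp
    ring

end Pool.Agent.Work.MP_e9f444_mp
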