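import Mathlib
import Pool.Agent.Work.MP_e9f444_mp.Coef

set_option autoImplicit false

open MeasureTheory Set Filter Topology

namespace Pool.Agent.Work.MP_e9f444_mp

lemma int_mul_bdd {F u : ℂ → ℝ} (hF : Integrable F) (hu : B 0 u) : Integrable (fun z => F z * u z) := by
  obtain ⟨hc, C, hC⟩ := hu
  refine (hF.norm.mul_const C).mono' (hF.aestronglyMeasurable.mul hc.aestronglyMeasurable)
    (ae_of_all _ fun z => ?_)
  rw [norm_mul]
  exact mul_le_mul_of_nonneg_left (hC z) (norm_nonneg _)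

/-- Gaussian cutoff. -/
noncomputable def psi (ρ : ℝ) (z : ℂ) : ℝ := Real.exp (-ρ ^ 2 * ‖z‖ ^ 2)

lemma psi_pos (ρ : ℝ) (z : ℂ) : 0 < psi ρ z := Real.exp_pos _

lemma psi_hasDerivAt (ρ t : ℝ) : HasDerivAt (fun t : ℝ => Real.exp (-ρ ^ 2 * t))
    (-ρ ^ 2 * Real.exp (-ρ ^ 2 * t)) t := by
  have := ((hasDerivAt_id t).const_mul (-ρ ^ 2)).exp
  convert! this using 1
  simp only [id]
  ring

lemma psi_hasDerivAt2 (ρ t : ℝ) : HasDerivAt (fun t : ℝ => -ρ ^ 2 * Real.exp (-ρ ^ 2 * t))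
    (ρ ^ 4 * Real.exp (-ρ ^ 2 * t)) t := by
  have := (psi_hasDerivAt ρ t).const_mul (-ρ ^ 2)
  convert! this using 1
  ring

lemma dx_psi (ρ : ℝ) : dx (psi ρ) = fun z => (-2 * ρ ^ 2) * (z.re * psi ρ z) := by
  funext z
  have h := dx_comp (g := fun z : ℂ => ‖z‖ ^ 2) (psi_hasDerivAt ρ (‖z‖ ^ 2)) (diff_normSq z)
  rw [dx_normSq] at h
  have h2 : dx (psi ρ) z = -ρ ^ 2 * Real.exp (-ρ ^ 2 * ‖z‖ ^ 2) * (2 * z.re) := h
  rw [h2, psi]; ring

lemma dy_psi (ρ : ℝ) : dy (psi ρ) = fun z => (-2 * ρ ^ 2) * (z.im * psi ρ z) := by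
  funext z
  have h := dy_comp (g := fun z : ℂ => ‖z‖ ^ 2) (psi_hasDerivAt ρ (‖z‖ ^ 2)) (diff_normSq z)
  rw [dy_normSq] at h
  have h2 : dy (psi ρ) z = -ρ ^ 2 * Real.exp (-ρ ^ 2 * ‖z‖ ^ 2) * (2 * z.im) := h
  rw [h2, psi]; ring

lemma diff_psi (ρ : ℝ) : Differentiable ℝ (psi ρ) := fun z => by
  have h := (psi_hasDerivAt ρ (‖z‖ ^ 2)).comp_hasFDerivAt z (diff_normSq z).hasFDerivAt
  exact h.differentiableAt

lemma dxx_psi (ρ : ℝ) (z : ℂ) : dx (dx (psi ρ)) z = (-2 * ρ ^ 2 + 4 * ρ ^ 4 * z.re ^ 2) * psi ρ z := by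
  rw [dx_psi, dx_mul' (differentiableAt_const _) ((diff_re z).fun_mul (diff_psi ρ z)),
    dx_mul' (diff_re z) (diff_psi ρ z), dx_re', dx_psi, dx_const]
  ring

lemma dyy_psi (ρ : ℝ) (z : ℂ) : dy (dy (psi ρ)) z = (-2 * ρ ^ 2 + 4 * ρ ^ 4 * z.im ^ 2) * psi ρ z := by
  rw [dy_psi, dy_mul' (differentiableAt_const _) ((diff_im z).fun_mul (diff_psi ρ z)),
    dy_mul' (diff_im z) (diff_psi ρ z), dy_im', dy_psi, dy_const]
  ring

lemma lap_psi (ρ : ℝ) (z : ℂ) : lap (psi ρ) z = (-4 * ρ ^ 2 + 4 * ρ ^ 4 * ‖z‖ ^ 2) * psi ρ z := by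
  unfold lap
  rw [dxx_psi, dyy_psi, norm_sq_eq]
  ring

lemma int_G {b : ℝ} (hb : 0 < b) :
    Integrable (fun z : ℂ => (1 + ‖z‖ ^ 2) * Real.exp (-b * ‖z‖ ^ 2)) := by
  refine ((integrable_exp_b (b := b / 2) (by positivity)).const_mul (1 + 2 / b)).mono' ?_
    (ae_of_all _ fun z => ?_)
  · exact (by fun_prop : Continuous fun z : ℂ => (1 + ‖z‖ ^ 2) * Real.exp (-b * ‖z‖ ^ 2)).aestronglyMeasurable
  · rw [Real.norm_of_nonneg (by positivity)]
    set t := ‖z‖ ^ 2 with ht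
    have ht0 : 0 ≤ t := by positivity
    have h1 : (b / 2) * t + 1 ≤ Real.exp ((b / 2) * t) := Real.add_one_le_exp _
    have h2 : t ≤ (2 / b) * Real.exp ((b / 2) * t) := by
      have h3 : (b / 2) * t ≤ Real.exp ((b / 2) * t) := by linarith
      have h4 : (2 / b) * ((b / 2) * t) ≤ (2 / b) * Real.exp ((b / 2) * t) :=
        mul_le_mul_of_nonneg_left h3 (by positivity)
      have h5 : (2 / b) * ((b / 2) * t) = t := by field_simp
      linarith
    have h3 : 1 ≤ Real.exp ((b / 2) * t) := by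
      have : 0 ≤ (b / 2) * t := by positivity
      linarith
    have h6 : 1 + t ≤ (1 + 2 / b) * Real.exp ((b / 2) * t) := by linarith
    calc (1 + t) * Real.exp (-b * t) ≤ ((1 + 2 / b) * Real.exp ((b / 2) * t)) * Real.exp (-b * t) :=
          mul_le_mul_of_nonneg_right h6 (Real.exp_pos _).le
      _ = (1 + 2 / b) * Real.exp (-(b / 2) * t) := by
          rw [mul_assoc, ← Real.exp_add]; congr 2; ring

lemma int_of_bound {ρ : ℝ} (hρ : 0 < ρ) {F : ℂ → ℝ} (hF : Continuous F) {C : ℝ}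
    (h : ∀ z, |F z| ≤ C * ((1 + ‖z‖ ^ 2) * psi ρ z)) : Integrable F := by
  have hi := (int_G (b := ρ ^ 2) (by positivity)).const_mul C
  exact hi.mono' hF.aestronglyMeasurable (ae_of_all _ h)

lemma psi_cont (ρ : ℝ) : Continuous (psi ρ) := (diff_psi ρ).continuous

lemma int_psi {ρ : ℝ} (hρ : 0 < ρ) : Integrable (psi ρ) := by
  refine int_of_bound hρ (psi_cont ρ) (C := 1) fun z => ?_
  rw [abs_of_pos (psi_pos ρ z), one_mul]
  have := psi_pos ρ z
  nlinarith [mul_nonneg (sq_nonneg ‖z‖) this.le]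

lemma int_dx_psi {ρ : ℝ} (hρ : 0 < ρ) : Integrable (dx (psi ρ)) := by
  rw [dx_psi]
  refine int_of_bound hρ (by have := psi_cont ρ; fun_prop) (C := 2 * ρ ^ 2) fun z => ?_
  have h1 : |(-2 : ℝ) * ρ ^ 2| = 2 * ρ ^ 2 := by
    rw [abs_mul, abs_of_nonneg (sq_nonneg ρ)]; norm_num
  rw [abs_mul, h1, abs_mul, abs_of_pos (psi_pos ρ z)]
  apply mul_le_mul_of_nonneg_left _ (by positivity)
  apply mul_le_mul_of_nonneg_right _ (psi_pos ρ z).le
  have := Complex.abs_re_le_norm z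
  nlinarith [sq_nonneg (‖z‖ - 1)]

lemma int_dy_psi {ρ : ℝ} (hρ : 0 < ρ) : Integrable (dy (psi ρ)) := by
  rw [dy_psi]
  refine int_of_bound hρ (by have := psi_cont ρ; fun_prop) (C := 2 * ρ ^ 2) fun z => ?_
  have h1 : |(-2 : ℝ) * ρ ^ 2| = 2 * ρ ^ 2 := by
    rw [abs_mul, abs_of_nonneg (sq_nonneg ρ)]; norm_num
  rw [abs_mul, h1, abs_mul, abs_of_pos (psi_pos ρ z)]
  apply mul_le_mul_of_nonneg_left _ (by positivity)
  apply mul_le_mul_of_nonneg_right _ (psi_pos ρ z).le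
  have := Complex.abs_im_le_norm z
  nlinarith [sq_nonneg (‖z‖ - 1)]

lemma int_dxx_psi {ρ : ℝ} (hρ : 0 < ρ) : Integrable (dx (dx (psi ρ))) := by
  have e : dx (dx (psi ρ)) = fun z => (-2 * ρ ^ 2 + 4 * ρ ^ 4 * z.re ^ 2) * psi ρ z := by
    funext z; exact dxx_psi ρ z
  rw [e]
  refine int_of_bound hρ (by have := psi_cont ρ; fun_prop) (C := 2 * ρ ^ 2 + 4 * ρ ^ 4) fun z => ?_
  rw [abs_mul, abs_of_pos (psi_pos ρ z), ← mul_assoc]
  apply mul_le_mul_of_nonneg_right _ (psi_pos ρ z).le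
  have h1 : z.re ^ 2 ≤ ‖z‖ ^ 2 := by rw [norm_sq_eq]; nlinarith [sq_nonneg z.im]
  have h2 : 0 ≤ ρ ^ 2 := sq_nonneg _
  have h3 : 0 ≤ ρ ^ 4 := by positivity
  have h4 := mul_nonneg h2 (sq_nonneg ‖z‖)
  have h5 := mul_le_mul_of_nonneg_left h1 h3
  have h6 := mul_nonneg h3 (sq_nonneg z.re)
  rw [abs_le]
  constructor <;> nlinarith

lemma int_dyy_psi {ρ : ℝ} (hρ : 0 < ρ) : Integrable (dy (dy (psi ρ))) := by
  have e : dy (dy (psi ρ)) = fun z => (-2 * ρ ^ 2 + 4 * ρ ^ 4 * z.im ^ 2) * psi ρ z := by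
    funext z; exact dyy_psi ρ z
  rw [e]
  refine int_of_bound hρ (by have := psi_cont ρ; fun_prop) (C := 2 * ρ ^ 2 + 4 * ρ ^ 4) fun z => ?_
  rw [abs_mul, abs_of_pos (psi_pos ρ z), ← mul_assoc]
  apply mul_le_mul_of_nonneg_right _ (psi_pos ρ z).le
  have h1 : z.im ^ 2 ≤ ‖z‖ ^ 2 := by rw [norm_sq_eq]; nlinarith [sq_nonneg z.re]
  have h2 : 0 ≤ ρ ^ 2 := sq_nonneg _
  have h3 : 0 ≤ ρ ^ 4 := by positivity
  have h4 := mul_nonneg h2 (sq_nonneg ‖z‖)
  have h5 := mul_le_mul_of_nonneg_left h1 h3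
  have h6 := mul_nonneg h3 (sq_nonneg z.im)
  rw [abs_le]
  constructor <;> nlinarith

lemma diff_dx_psi (ρ : ℝ) : Differentiable ℝ (dx (psi ρ)) := by
  rw [dx_psi]
  exact fun z => (differentiableAt_const _).fun_mul ((diff_re z).fun_mul (diff_psi ρ z))

lemma diff_dy_psi (ρ : ℝ) : Differentiable ℝ (dy (psi ρ)) := by
  rw [dy_psi]
  exact fun z => (differentiableAt_const _).fun_mul ((diff_im z).fun_mul (diff_psi ρ z))

lemma ibp {ρ : ℝ} (hρ : 0 < ρ) {w : ℂ → ℝ} (hw : B 2 w) :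
    ∫ z, psi ρ z * lap w z = ∫ z, lap (psi ρ) z * w z := by
  obtain ⟨hd, hb, hx, hy⟩ := hw
  have hw0 : B 0 w := ⟨hd.continuous, hb⟩
  have x1 : ∫ z, psi ρ z * dx (dx w) z = - ∫ z, dx (psi ρ) z * dx w z :=
    integral_mul_fderiv_eq_neg_fderiv_mul_of_integrable (f := psi ρ) (g := dx w) (v := 1)
      (int_mul_bdd (int_dx_psi hρ) hx.pred) (int_mul_bdd (int_psi hρ) hx.2.2.1)
      (int_mul_bdd (int_psi hρ) hx.pred) (fun z _ => diff_psi ρ z) (fun z _ => hx.1 z)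
  have x2 : ∫ z, dx (psi ρ) z * dx w z = - ∫ z, dx (dx (psi ρ)) z * w z :=
    integral_mul_fderiv_eq_neg_fderiv_mul_of_integrable (f := dx (psi ρ)) (g := w) (v := 1)
      (int_mul_bdd (int_dxx_psi hρ) hw0) (int_mul_bdd (int_dx_psi hρ) hx.pred)
      (int_mul_bdd (int_dx_psi hρ) hw0) (fun z _ => diff_dx_psi ρ z) (fun z _ => hd z)
  have y1 : ∫ z, psi ρ z * dy (dy w) z = - ∫ z, dy (psi ρ) z * dy w z :=
    integral_mul_fderiv_eq_neg_fderiv_mul_of_integrable (f := psi ρ) (g := dy w) (v := Complex.I)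
      (int_mul_bdd (int_dy_psi hρ) hy.pred) (int_mul_bdd (int_psi hρ) hy.2.2.2)
      (int_mul_bdd (int_psi hρ) hy.pred) (fun z _ => diff_psi ρ z) (fun z _ => hy.1 z)
  have y2 : ∫ z, dy (psi ρ) z * dy w z = - ∫ z, dy (dy (psi ρ)) z * w z :=
    integral_mul_fderiv_eq_neg_fderiv_mul_of_integrable (f := dy (psi ρ)) (g := w) (v := Complex.I)
      (int_mul_bdd (int_dyy_psi hρ) hw0) (int_mul_bdd (int_dy_psi hρ) hy.pred)
      (int_mul_bdd (int_dy_psi hρ) hw0) (fun z _ => diff_dy_psi ρ z) (fun z _ => hd z)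
  unfold lap
  simp_rw [mul_add, add_mul]
  rw [integral_add (int_mul_bdd (int_psi hρ) hx.2.2.1) (int_mul_bdd (int_psi hρ) hy.2.2.2),
    integral_add (int_mul_bdd (int_dxx_psi hρ) hw0) (int_mul_bdd (int_dyy_psi hρ) hw0)]
  linarith

lemma lap_psi_le (ρ : ℝ) (z : ℂ) : |lap (psi ρ) z| ≤
    ρ ^ 2 * (4 * ((1 + ‖ρ • z‖ ^ 2) * Real.exp (-1 * ‖ρ • z‖ ^ 2))) := by
  rw [lap_psi, abs_mul, abs_of_pos (psi_pos ρ z), norm_smul, mul_pow, Real.norm_eq_abs, sq_abs, psi]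
  have h1 : -1 * (ρ ^ 2 * ‖z‖ ^ 2) = -ρ ^ 2 * ‖z‖ ^ 2 := by ring
  rw [h1]
  have h2 : |(-4 * ρ ^ 2 + 4 * ρ ^ 4 * ‖z‖ ^ 2)| ≤ ρ ^ 2 * (4 * (1 + ρ ^ 2 * ‖z‖ ^ 2)) := by
    have h3 : 0 ≤ ρ ^ 4 * ‖z‖ ^ 2 := by positivity
    have h4 : 0 ≤ ρ ^ 2 := sq_nonneg _
    rw [abs_le]
    constructor <;> nlinarith
  calc _ ≤ (ρ ^ 2 * (4 * (1 + ρ ^ 2 * ‖z‖ ^ 2))) * Real.exp (-ρ ^ 2 * ‖z‖ ^ 2) :=
        mul_le_mul_of_nonneg_right h2 (Real.exp_pos _).le
    _ = _ := by ring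

lemma integral_lap_psi_le {ρ : ℝ} (hρ : 0 < ρ) {w : ℂ → ℝ} {C : ℝ} (hC : ∀ z, |w z| ≤ C) :
    |∫ z, lap (psi ρ) z * w z| ≤
      C * ∫ z : ℂ, 4 * ((1 + ‖z‖ ^ 2) * Real.exp (-1 * ‖z‖ ^ 2)) := by
  have hC0 : 0 ≤ C := (abs_nonneg _).trans (hC 0)
  have hint := (int_G (b := 1) one_pos).const_mul 4
  have hint2 : Integrable (fun z : ℂ => 4 * ((1 + ‖ρ • z‖ ^ 2) * Real.exp (-1 * ‖ρ • z‖ ^ 2))) :=
    (integrable_comp_smul_iff volume (fun z : ℂ => 4 * ((1 + ‖z‖ ^ 2) * Real.exp (-1 * ‖z‖ ^ 2)))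
      hρ.ne').2 hint
  have h1 : ‖∫ z, lap (psi ρ) z * w z‖ ≤
      ∫ z : ℂ, (C * ρ ^ 2) * (4 * ((1 + ‖ρ • z‖ ^ 2) * Real.exp (-1 * ‖ρ • z‖ ^ 2))) := by
    apply norm_integral_le_of_norm_le (hint2.const_mul _)
    refine ae_of_all _ fun z => ?_
    rw [norm_mul]
    calc ‖lap (psi ρ) z‖ * ‖w z‖ ≤
          (ρ ^ 2 * (4 * ((1 + ‖ρ • z‖ ^ 2) * Real.exp (-1 * ‖ρ • z‖ ^ 2)))) * C :=
          mul_le_mul (lap_psi_le ρ z) (hC z) (norm_nonneg _) (by positivity)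
      _ = _ := by ring
  refine h1.trans (le_of_eq ?_)
  rw [integral_const_mul,
    Measure.integral_comp_smul volume (fun z : ℂ => 4 * ((1 + ‖z‖ ^ 2) * Real.exp (-1 * ‖z‖ ^ 2))) ρ]
  have h2 : Module.finrank ℝ ℂ = 2 := Complex.finrank_real_complex
  rw [h2, abs_of_pos (by positivity), smul_eq_mul]
  field_simp

/-- A nonnegative function `-a Δw + g₀` with `w` bounded and `g₀` integrable is integrable. -/
theorem integrable_of_lap {w g₀ : ℂ → ℝ} (hw : B 2 w) (hg₀ : Integrable g₀) (hg₀c : Continuous g₀)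
    (hnn : ∀ z, 0 ≤ - lap w z + g₀ z) : Integrable (fun z => - lap w z + g₀ z) := by
  obtain ⟨C, hC⟩ := hw.bd
  have hlapc : B 0 (lap w) := by
    have : lap w = fun z => dx (dx w) z + dy (dy w) z := rfl
    rw [this]
    exact hw.2.2.1.2.2.1.add hw.2.2.2.2.2.2
  have hcont : Continuous fun z => - lap w z + g₀ z := hlapc.1.neg.add hg₀c
  set I₀ : ℝ := C * (∫ z : ℂ, 4 * ((1 + ‖z‖ ^ 2) * Real.exp (-1 * ‖z‖ ^ 2))) + ∫ z, |g₀ z| with hI₀
  have hkey : ∀ ρ : ℝ, 0 < ρ → ∫ z, psi ρ z * (- lap w z + g₀ z) ≤ I₀ := by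
    intro ρ hρ
    have i1 : Integrable fun z => psi ρ z * lap w z := int_mul_bdd (int_psi hρ) hlapc
    have hψ1 : ∀ z, psi ρ z ≤ 1 := fun z => by
      unfold psi
      apply Real.exp_le_one_iff.2
      have : 0 ≤ ρ ^ 2 * ‖z‖ ^ 2 := by positivity
      linarith
    have i2 : Integrable fun z => psi ρ z * g₀ z := by
      refine hg₀.norm.mono' ((psi_cont ρ).aestronglyMeasurable.mul hg₀.aestronglyMeasurable)
        (ae_of_all _ fun z => ?_)
      rw [norm_mul, Real.norm_of_nonneg (psi_pos ρ z).le]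
      calc _ ≤ 1 * ‖g₀ z‖ := mul_le_mul_of_nonneg_right (hψ1 z) (norm_nonneg _)
        _ = _ := one_mul _
    have e1 : ∫ z, psi ρ z * (- lap w z + g₀ z) =
        - (∫ z, psi ρ z * lap w z) + ∫ z, psi ρ z * g₀ z := by
      have e0 : (fun z => psi ρ z * (- lap w z + g₀ z)) =
          fun z => psi ρ z * g₀ z - psi ρ z * lap w z := by
        funext z; ring
      rw [e0, integral_sub i2 i1]
      ring
    have e2 := integral_lap_psi_le hρ hC
    have e3 : ∫ z, psi ρ z * g₀ z ≤ ∫ z, |g₀ z| := by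
      apply integral_mono i2 hg₀.norm
      intro z
      simp only
      calc psi ρ z * g₀ z ≤ psi ρ z * |g₀ z| :=
            mul_le_mul_of_nonneg_left (le_abs_self _) (psi_pos ρ z).le
        _ ≤ 1 * |g₀ z| := mul_le_mul_of_nonneg_right (hψ1 z) (abs_nonneg _)
        _ = _ := one_mul _
    rw [e1, ibp hρ hw]
    have e4 := neg_abs_le (∫ z, lap (psi ρ) z * w z)
    linarith
  refine (aecover_closedBall (μ := (volume : Measure ℂ)) (x := (0 : ℂ)) (r := fun n : ℕ => (n : ℝ) + 1)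
    (tendsto_atTop_add_const_right _ _ tendsto_natCast_atTop_atTop)).integrable_of_integral_bounded_of_nonneg_ae
    (Real.exp 1 * I₀) ?_ (ae_of_all _ hnn) (Eventually.of_forall fun n => ?_)
  · intro n
    exact hcont.continuousOn.integrableOn_compact (isCompact_closedBall _ _)
  · have hR : (0 : ℝ) < (n : ℝ) + 1 := by positivity
    set R : ℝ := (n : ℝ) + 1 with hRdef
    have hρ : 0 < R⁻¹ := by positivity
    have hb : ∀ z ∈ Metric.closedBall (0 : ℂ) R, 1 ≤ Real.exp 1 * psi R⁻¹ z := by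
      intro z hz
      have hz' : ‖z‖ ≤ R := by simpa using hz
      rw [psi, ← Real.exp_add]
      apply Real.one_le_exp
      have h1 : R⁻¹ ^ 2 * ‖z‖ ^ 2 ≤ 1 := by
        rw [← mul_pow]
        apply pow_le_one₀ (by positivity)
        rw [inv_mul_le_iff₀ hR]
        linarith
      linarith
    have i3 : Integrable fun z => psi R⁻¹ z * (- lap w z + g₀ z) := by
      have i1 : Integrable fun z => psi R⁻¹ z * lap w z := int_mul_bdd (int_psi hρ) hlapc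
      have hψ1 : ∀ z, psi R⁻¹ z ≤ 1 := fun z => by
        unfold psi
        apply Real.exp_le_one_iff.2
        have : 0 ≤ R⁻¹ ^ 2 * ‖z‖ ^ 2 := by positivity
        linarith
      have i2 : Integrable fun z => psi R⁻¹ z * g₀ z := by
        refine hg₀.norm.mono' ((psi_cont _).aestronglyMeasurable.mul hg₀.aestronglyMeasurable)
          (ae_of_all _ fun z => ?_)
        rw [norm_mul, Real.norm_of_nonneg (psi_pos _ z).le]
        calc _ ≤ 1 * ‖g₀ z‖ := mul_le_mul_of_nonneg_right (hψ1 z) (norm_nonneg _)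
          _ = _ := one_mul _
      have : (fun z => psi R⁻¹ z * (- lap w z + g₀ z)) =
          fun z => - (psi R⁻¹ z * lap w z) + psi R⁻¹ z * g₀ z := by
        funext z; ring
      rw [this]
      exact i1.neg.add i2
    calc ∫ z in Metric.closedBall (0 : ℂ) R, (- lap w z + g₀ z)
        ≤ ∫ z in Metric.closedBall (0 : ℂ) R, Real.exp 1 * (psi R⁻¹ z * (- lap w z + g₀ z)) := by
          apply setIntegral_mono_on
            (hcont.continuousOn.integrableOn_compact (isCompact_closedBall _ _))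
            (i3.const_mul _).integrableOn measurableSet_closedBall
          intro z hz
          have := mul_le_mul_of_nonneg_right (hb z hz) (hnn z)
          linarith
      _ ≤ ∫ z, Real.exp 1 * (psi R⁻¹ z * (- lap w z + g₀ z)) := by
          apply setIntegral_le_integral (i3.const_mul _)
          refine ae_of_all _ fun z => ?_
          have := hnn z
          have := psi_pos R⁻¹ z
          positivity
      _ = Real.exp 1 * ∫ z, psi R⁻¹ z * (- lap w z + g₀ z) := integral_const_mul _ _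
      _ ≤ Real.exp 1 * I₀ := mul_le_mul_of_nonneg_left (hkey _ hρ) (Real.exp_pos _).le

lemma int_sfun_sq : Integrable (fun z : ℂ => sfun z ^ 2) := by
  have h := integrable_rpow_neg_one_add_norm_sq (E := ℂ) (μ := volume) (r := 4)
    (by rw [Complex.finrank_real_complex]; norm_num)
  refine h.congr (ae_of_all _ fun z => ?_)
  simp only
  have : (-4 : ℝ) / 2 = -((2 : ℕ) : ℝ) := by norm_num
  rw [this, Real.rpow_neg (by positivity), Real.rpow_natCast, sfun, inv_pow]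

end Pool.Agent.Work.MP_e9f444_mp
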