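import Mathlib
import Pool.Agent.Work.MP_e9f444_mp.Coef

set_option autoImplicit false

open MeasureTheory Set Filter Topology

namespace Pool.Agent.Work.MP_e9f444_mp

/-- The polynomial with the prescribed roots. -/
noncomputable def polyP {N : ℕ} (p : Fin N → ℂ) : Polynomial ℂ :=
  ∏ i, (Polynomial.X - Polynomial.C (p i))

/-- `|P(z)|²`. -/
noncomputable def tau {N : ℕ} (p : Fin N → ℂ) (z : ℂ) : ℝ := ‖(polyP p).eval z‖ ^ 2

lemma tau_nonneg {N : ℕ} (p : Fin N → ℂ) (z : ℂ) : 0 ≤ tau p z := sq_nonneg _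

lemma tau_eq {N : ℕ} (p : Fin N → ℂ) (z : ℂ) : tau p z = ∏ i, ‖z - p i‖ ^ 2 := by
  unfold tau polyP
  rw [Polynomial.eval_prod, norm_prod, Finset.prod_pow]
  simp

lemma tau_cont {N : ℕ} (p : Fin N → ℂ) : Continuous (tau p) :=
  (contDiff_normSq_polynomial (polyP p)).continuous

/-- `W = |P|² / (1 + |z|²)^N`. -/
noncomputable def Wf {N : ℕ} (p : Fin N → ℂ) (z : ℂ) : ℝ := tau p z * sfun z ^ N

lemma Wf_nonneg {N : ℕ} (p : Fin N → ℂ) (z : ℂ) : 0 ≤ Wf p z :=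
  mul_nonneg (tau_nonneg p z) (pow_nonneg (sfun_pos z).le _)

lemma Wf_eq {N : ℕ} (p : Fin N → ℂ) : Wf p = fun z => ∏ i, ((1 - sfun z) +
    ((-2 * (p i).re) * xs z + (-2 * (p i).im) * ys z) + ‖p i‖ ^ 2 * sfun z) := by
  funext z
  unfold Wf
  rw [tau_eq]
  have h1 : sfun z ^ N = ∏ _i : Fin N, sfun z := by simp
  rw [h1, ← Finset.prod_mul_distrib]
  apply Finset.prod_congr rfl
  intro i _
  rw [← norm_sq_mul_sfun, norm_sq_eq, norm_sq_eq z, norm_sq_eq (p i)]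
  simp only [Complex.sub_re, Complex.sub_im]
  unfold xs ys
  ring

lemma B_Wf {N : ℕ} (p : Fin N → ℂ) (k : ℕ) : B k (Wf p) := by
  rw [Wf_eq]
  apply B.prod
  intro i _
  obtain ⟨h1, h2, h3⟩ := B_all k
  exact (((B.const 1 k).sub h1).add ((h2.const_mul _).add (h3.const_mul _))).add (h1.const_mul _)

/-- `∏ (1 + |z - p_i|²) / (1 + |z|²)^N` is bounded. -/
lemma exists_Wm {N : ℕ} (p : Fin N → ℂ) :
    ∃ Wm : ℝ, 1 ≤ Wm ∧ ∀ z, (∏ i, (1 + ‖z - p i‖ ^ 2)) * sfun z ^ N ≤ Wm := by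
  have hB : B 0 (fun z => ∏ i, (1 + ((-2 * (p i).re) * xs z + (-2 * (p i).im) * ys z) +
      ‖p i‖ ^ 2 * sfun z)) := by
    apply B.prod
    intro i _
    obtain ⟨h1, h2, h3⟩ := B_all 0
    exact ((B.const 1 0).add ((h2.const_mul _).add (h3.const_mul _))).add (h1.const_mul _)
  obtain ⟨C, hC⟩ := hB.bd
  refine ⟨max C 1, le_max_right _ _, fun z => ?_⟩
  have h0 : (∏ i, (1 + ‖z - p i‖ ^ 2)) * sfun z ^ N =
      ∏ i, (1 + ((-2 * (p i).re) * xs z + (-2 * (p i).im) * ys z) + ‖p i‖ ^ 2 * sfun z) := by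
    have h1 : sfun z ^ N = ∏ _i : Fin N, sfun z := by simp
    rw [h1, ← Finset.prod_mul_distrib]
    apply Finset.prod_congr rfl
    intro i _
    have h2 := norm_sq_mul_sfun z
    rw [norm_sq_eq] at h2
    rw [norm_sq_eq, norm_sq_eq (p i)]
    simp only [Complex.sub_re, Complex.sub_im]
    unfold xs ys
    linear_combination h2
  rw [h0]
  exact ((le_abs_self _).trans (hC z)).trans (le_max_left _ _)

lemma tau_le_prod {N : ℕ} (p : Fin N → ℂ) (z : ℂ) : tau p z ≤ ∏ i, (1 + ‖z - p i‖ ^ 2) := by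
  rw [tau_eq]
  exact Finset.prod_le_prod (fun i _ => by positivity) (fun i _ => by linarith)

lemma growth {N : ℕ} (p : Fin N → ℂ) : ∃ A : ℝ, 1 ≤ A ∧ ∀ z : ℂ, (1 + ‖z‖ ^ 2) ^ N ≤ A * (1 + tau p z) := by
  obtain ⟨r, hr0, hr⟩ : ∃ r : ℝ, 0 ≤ r ∧ ∀ i, ‖p i‖ ≤ r := by
    refine ⟨∑ i, ‖p i‖, Finset.sum_nonneg fun i _ => norm_nonneg _, fun i => ?_⟩
    exact Finset.single_le_sum (f := fun i => ‖p i‖) (fun i _ => norm_nonneg _) (Finset.mem_univ i)
  refine ⟨8 ^ N + (1 + (2 * r + 1) ^ 2) ^ N, ?_, fun z => ?_⟩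
  · have h1 : (1 : ℝ) ≤ 8 ^ N := one_le_pow₀ (by norm_num)
    have h2 : (0 : ℝ) ≤ (1 + (2 * r + 1) ^ 2) ^ N := by positivity
    linarith
  · have ht := tau_nonneg p z
    have h8 : (0 : ℝ) ≤ 8 ^ N := by positivity
    have h9 : (0 : ℝ) ≤ (1 + (2 * r + 1) ^ 2) ^ N := by positivity
    rcases le_or_gt ‖z‖ (2 * r + 1) with h | h
    · have h1 : (1 + ‖z‖ ^ 2) ^ N ≤ (1 + (2 * r + 1) ^ 2) ^ N := by
        apply pow_le_pow_left₀ (by positivity)
        have := norm_nonneg z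
        nlinarith
      nlinarith [mul_nonneg h8 ht, mul_nonneg h9 ht]
    · have h1 : ((1 + ‖z‖ ^ 2) / 8) ^ N ≤ tau p z := by
        rw [tau_eq]
        have h2 : ((1 + ‖z‖ ^ 2) / 8) ^ N = ∏ _i : Fin N, ((1 + ‖z‖ ^ 2) / 8) := by
          rw [Finset.prod_const, Finset.card_univ, Fintype.card_fin]
        rw [h2]
        apply Finset.prod_le_prod
        · intro i _; positivity
        · intro i _
          have h3 : ‖z‖ - r ≤ ‖z - p i‖ := by
            have := norm_sub_norm_le z (p i)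
            linarith [hr i]
          have h4 : ‖z‖ / 2 ≤ ‖z - p i‖ := by linarith
          have h5 : (1 : ℝ) ≤ ‖z‖ := by linarith
          nlinarith [norm_nonneg (z - p i), norm_nonneg z]
      rw [div_pow, div_le_iff₀ (by positivity)] at h1
      nlinarith [mul_nonneg h9 ht]

/-- The multiplicity of the point `p i`. -/
noncomputable def mult {N : ℕ} (p : Fin N → ℂ) (i : Fin N) : ℕ := (Finset.univ.filter fun j => p j = p i).card

/-- The product over the strings not located at `p i`. -/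
noncomputable def polyQ {N : ℕ} (p : Fin N → ℂ) (i : Fin N) : Polynomial ℂ :=
  ∏ j ∈ Finset.univ.filter (fun j => ¬ p j = p i), (Polynomial.X - Polynomial.C (p j))

/-- `|Q_i(z)|²`. -/
noncomputable def tauQ {N : ℕ} (p : Fin N → ℂ) (i : Fin N) (z : ℂ) : ℝ := ‖(polyQ p i).eval z‖ ^ 2

lemma tauQ_nonneg {N : ℕ} (p : Fin N → ℂ) (i : Fin N) (z : ℂ) : 0 ≤ tauQ p i z := sq_nonneg _

lemma tauQ_cont {N : ℕ} (p : Fin N → ℂ) (i : Fin N) : Continuous (tauQ p i) :=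
  (contDiff_normSq_polynomial (polyQ p i)).continuous

lemma tauQ_eq {N : ℕ} (p : Fin N → ℂ) (i : Fin N) (z : ℂ) :
    tauQ p i z = ∏ j ∈ Finset.univ.filter (fun j => ¬ p j = p i), ‖z - p j‖ ^ 2 := by
  unfold tauQ polyQ
  rw [Polynomial.eval_prod, norm_prod, Finset.prod_pow]
  simp

lemma tau_split {N : ℕ} (p : Fin N → ℂ) (i : Fin N) (z : ℂ) :
    tau p z = tauQ p i z * (‖z - p i‖ ^ 2) ^ mult p i := by
  rw [tau_eq, tauQ_eq, mult, ← Finset.prod_filter_mul_prod_filter_not Finset.univ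
    (fun j => p j = p i) (fun j => ‖z - p j‖ ^ 2), mul_comm]
  congr 1
  rw [← Finset.prod_const]
  apply Finset.prod_congr rfl
  intro j hj
  rw [(Finset.mem_filter.1 hj).2]

lemma mult_pos {N : ℕ} (p : Fin N → ℂ) (i : Fin N) : 1 ≤ mult p i := by
  unfold mult
  exact Finset.card_pos.2 ⟨i, by simp⟩

lemma mult_le {N : ℕ} (p : Fin N → ℂ) (i : Fin N) : mult p i ≤ N := by
  unfold mult
  exact (Finset.card_le_univ _).trans (by simp)

/-- Distinct strings are separated. -/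
lemma gap {N : ℕ} (hN : 1 ≤ N) (p : Fin N → ℂ) :
    ∃ g : ℝ, 0 < g ∧ g ≤ 1 ∧ ∀ i j, p j ≠ p i → g ≤ ‖p i - p j‖ := by
  have : Nonempty (Fin N) := ⟨⟨0, by omega⟩⟩
  obtain ⟨x, hx⟩ := Finite.exists_min (fun x : Fin N × Fin N =>
    if p x.2 = p x.1 then (1 : ℝ) else ‖p x.1 - p x.2‖)
  refine ⟨min 1 (if p x.2 = p x.1 then (1 : ℝ) else ‖p x.1 - p x.2‖), ?_, min_le_left _ _, ?_⟩
  · apply lt_min one_pos
    split_ifs with h
    · exact one_pos
    · exact norm_pos_iff.2 (sub_ne_zero.2 (Ne.symm h))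
  · intro i j hij
    refine (min_le_right _ _).trans ((hx (i, j)).trans ?_)
    simp [hij]

lemma tauQ_ge {N : ℕ} {p : Fin N → ℂ} {g : ℝ} (hg : 0 < g) (hg1 : g ≤ 1)
    (h : ∀ i j, p j ≠ p i → g ≤ ‖p i - p j‖) (i : Fin N) (z : ℂ) (hz : ‖z - p i‖ ≤ g / 2) :
    (g ^ 2 / 4) ^ N ≤ tauQ p i z := by
  rw [tauQ_eq]
  have h1 : (g ^ 2 / 4) ^ N ≤ (g ^ 2 / 4) ^ (Finset.univ.filter (fun j => ¬ p j = p i)).card := by
    apply pow_le_pow_of_le_one (by positivity)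
    · nlinarith
    · exact (Finset.card_le_univ _).trans (by simp)
  refine h1.trans ?_
  rw [← Finset.prod_const]
  apply Finset.prod_le_prod
  · intro j _; positivity
  · intro j hj
    have h2 := h i j (Finset.mem_filter.1 hj).2
    have h3 : ‖p i - p j‖ ≤ ‖z - p i‖ + ‖z - p j‖ := by
      have := norm_sub_le (z - p j) (z - p i)
      have e : z - p j - (z - p i) = p i - p j := by ring
      rw [e] at this
      linarith
    have h4 : g / 2 ≤ ‖z - p j‖ := by linarith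
    nlinarith [norm_nonneg (z - p j)]

lemma tauQ_mul_le_prod {N : ℕ} (p : Fin N → ℂ) (i : Fin N) (z : ℂ) :
    tauQ p i z * (1 + ‖z - p i‖ ^ 2) ^ mult p i ≤ ∏ j, (1 + ‖z - p j‖ ^ 2) := by
  rw [tauQ_eq, mult, ← Finset.prod_filter_mul_prod_filter_not Finset.univ
    (fun j => p j = p i) (fun j => 1 + ‖z - p j‖ ^ 2), mul_comm, ← Finset.prod_const]
  apply mul_le_mul
  · apply le_of_eq
    apply Finset.prod_congr rfl
    intro j hj
    rw [(Finset.mem_filter.1 hj).2]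
  · exact Finset.prod_le_prod (fun i _ => by positivity) (fun i _ => by linarith)
  · exact Finset.prod_nonneg fun i _ => by positivity
  · exact Finset.prod_nonneg fun i _ => by positivity

end Pool.Agent.Work.MP_e9f444_mp
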