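import Mathlib
import Pool.Agent.Work.MP_e9f444_mp.Poly

set_option autoImplicit false

open MeasureTheory Set Filter Topology

namespace Pool.Agent.Work.MP_e9f444_mp

/-- The right-hand side of the scalar equation. -/
noncomputable def Fn {N : ℕ} (p : Fin N → ℂ) (a lam : ℝ) (z : ℂ) (v : ℝ) : ℝ :=
  lam * sfun z ^ (a * N) *
    (Real.exp (a * v - a * (Wf p z * Real.exp v)) * (Wf p z * Real.exp v - 1)) +
    4 * N * sfun z ^ 2

lemma Fn_cont {N : ℕ} (p : Fin N → ℂ) (a lam : ℝ) (z : ℂ) : Continuous (Fn p a lam z) := by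
  unfold Fn; fun_prop

lemma Fn_B {N : ℕ} (p : Fin N → ℂ) {a : ℝ} (ha : 0 ≤ a) (lam : ℝ) (k : ℕ) (v : ℂ → ℝ) (hv : B k v) :
    B k (fun z => Fn p a lam z (v z)) := by
  unfold Fn
  have h1 : B k (fun z => Wf p z * Real.exp (v z)) := (B_Wf p k).mul hv.exp
  have h2 : B k (fun z => sfun z ^ (a * N)) := B_rpow (by positivity) k
  have h3 : B k (fun z => Real.exp (a * v z - a * (Wf p z * Real.exp (v z)))) :=
    ((hv.const_mul a).sub (h1.const_mul a)).exp
  exact (((h2.const_mul lam)).mul (h3.mul (h1.sub (B.const 1 k)))).add (((B_sfun k).pow 2).const_mul _)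

lemma Fn_meas {N : ℕ} (p : Fin N → ℂ) {a : ℝ} (ha : 0 ≤ a) (lam : ℝ) (v : ℂ → ℝ) (hv : Measurable v) :
    Measurable (fun z => Fn p a lam z (v z)) := by
  unfold Fn
  have h1 : Measurable (fun z => Wf p z * Real.exp (v z)) :=
    (B_Wf p 0).continuous.measurable.mul hv.exp
  have h2 : Measurable (fun z => sfun z ^ (a * N)) := (B_rpow (by positivity) 0).continuous.measurable
  have h3 : Measurable (fun z => Real.exp (a * v z - a * (Wf p z * Real.exp (v z)))) :=
    ((hv.const_mul a).sub (h1.const_mul a)).exp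
  exact (((h2.const_mul lam)).mul (h3.mul (h1.sub measurable_const))).add
    (((B_sfun 0).continuous.measurable.pow_const 2).const_mul _)

/-- The nonlinearity in `v` alone. -/
noncomputable def gn (a W v : ℝ) : ℝ := Real.exp (a * v - a * (W * Real.exp v)) * (W * Real.exp v - 1)

lemma gn_hasDerivAt (a W v : ℝ) : HasDerivAt (gn a W)
    (Real.exp (a * v - a * (W * Real.exp v)) *
      (W * Real.exp v - a * (1 - W * Real.exp v) ^ 2)) v := by
  unfold gn
  have h1 : HasDerivAt (fun v => W * Real.exp v) (W * Real.exp v) v := (Real.hasDerivAt_exp v).const_mul W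
  have h2 : HasDerivAt (fun v => a * v - a * (W * Real.exp v)) (a * 1 - a * (W * Real.exp v)) v :=
    ((hasDerivAt_id v).const_mul a).sub (h1.const_mul a)
  convert! h2.exp.mul (h1.sub_const 1) using 1
  ring

lemma gn_sub_le {a W v v' M : ℝ} (ha : 0 ≤ a) (hW : 0 ≤ W) {Wm : ℝ} (hWm : W ≤ Wm) (h1 : v ≤ v')
    (h2 : v' ≤ M) : gn a W v' - gn a W v ≤ Real.exp (a * M) * (Wm * Real.exp M) * (v' - v) := by
  apply Convex.image_sub_le_mul_sub_of_deriv_le (convex_Iic M) (f := gn a W)
  · exact fun x _ => (gn_hasDerivAt a W x).continuousAt.continuousWithinAt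
  · exact fun x _ => (gn_hasDerivAt a W x).differentiableAt.differentiableWithinAt
  · intro x hx
    rw [(gn_hasDerivAt a W x).deriv]
    have hx' : x ≤ M := by
      have := interior_subset hx
      exact this
    have e1 : Real.exp (a * x - a * (W * Real.exp x)) ≤ Real.exp (a * M) := by
      apply Real.exp_le_exp.2
      have : 0 ≤ a * (W * Real.exp x) := by positivity
      have := mul_le_mul_of_nonneg_left hx' ha
      linarith
    have e2 : W * Real.exp x ≤ Wm * Real.exp M :=
      mul_le_mul hWm (Real.exp_le_exp.2 hx') (Real.exp_pos _).le (hW.trans hWm)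
    have e3 : 0 ≤ a * (1 - W * Real.exp x) ^ 2 := by positivity
    calc _ ≤ Real.exp (a * x - a * (W * Real.exp x)) * (Wm * Real.exp M) :=
          mul_le_mul_of_nonneg_left (by linarith) (Real.exp_pos _).le
      _ ≤ _ := mul_le_mul_of_nonneg_right e1 (by
          have := hW.trans hWm
          positivity)
  · exact h1.trans h2
  · exact h2
  · exact h1

lemma abs_gn_le {a W v M : ℝ} (ha : 0 ≤ a) (hW : 0 ≤ W) {Wm : ℝ} (hWm : W ≤ Wm) (h2 : v ≤ M) :
    |gn a W v| ≤ Real.exp (a * M) * (Wm * Real.exp M + 1) := by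
  unfold gn
  have e1 : Real.exp (a * v - a * (W * Real.exp v)) ≤ Real.exp (a * M) := by
    apply Real.exp_le_exp.2
    have : 0 ≤ a * (W * Real.exp v) := by positivity
    have := mul_le_mul_of_nonneg_left h2 ha
    linarith
  have e2 : W * Real.exp v ≤ Wm * Real.exp M :=
    mul_le_mul hWm (Real.exp_le_exp.2 h2) (Real.exp_pos _).le (hW.trans hWm)
  have e0 : 0 ≤ W * Real.exp v := by positivity
  rw [abs_mul, abs_of_pos (Real.exp_pos _)]
  apply mul_le_mul e1 _ (abs_nonneg _) (Real.exp_pos _).le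
  rw [abs_le]
  constructor <;> linarith

lemma sfun_eq_inv (z : ℂ) : (1 + ‖z‖ ^ 2) = (sfun z)⁻¹ := by
  unfold sfun; rw [inv_inv]

/-- The candidate near the string `p i`: `|Q_i|² ((d + |z - p_i|²)/2)^{n_i}`. -/
noncomputable def mi {N : ℕ} (p : Fin N → ℂ) (d : ℝ) (i : Fin N) (z : ℂ) : ℝ :=
  tauQ p i z * ((d + ‖z - p i‖ ^ 2) / 2) ^ mult p i

lemma mi_nonneg {N : ℕ} (p : Fin N → ℂ) {d : ℝ} (hd : 0 < d) (i : Fin N) (z : ℂ) : 0 ≤ mi p d i z :=
  mul_nonneg (tauQ_nonneg p i z) (by positivity)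

lemma mi_cont {N : ℕ} (p : Fin N → ℂ) (d : ℝ) (i : Fin N) : Continuous (mi p d i) := by
  have := tauQ_cont p i
  unfold mi
  fun_prop

lemma univ_ne {N : ℕ} [NeZero N] : (Finset.univ : Finset (Fin N)).Nonempty := ⟨0, Finset.mem_univ _⟩

/-- The function under the logarithm in the supersolution. -/
noncomputable def Mx {N : ℕ} [NeZero N] (p : Fin N → ℂ) (d : ℝ) (z : ℂ) : ℝ :=
  max (tau p z) (Finset.univ.sup' univ_ne (fun i => mi p d i z))

lemma tau_le_Mx {N : ℕ} [NeZero N] (p : Fin N → ℂ) (d : ℝ) (z : ℂ) : tau p z ≤ Mx p d z :=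
  le_max_left _ _

lemma mi_le_Mx {N : ℕ} [NeZero N] (p : Fin N → ℂ) (d : ℝ) (i : Fin N) (z : ℂ) :
    mi p d i z ≤ Mx p d z :=
  (Finset.le_sup' (fun i => mi p d i z) (Finset.mem_univ i)).trans (le_max_right _ _)

lemma Mx_eq {N : ℕ} [NeZero N] (p : Fin N → ℂ) (d : ℝ) (z : ℂ) :
    Mx p d z = tau p z ∨ ∃ i, Mx p d z = mi p d i z ∧ tau p z < mi p d i z := by
  obtain ⟨i, -, hi⟩ := Finset.exists_mem_eq_sup' (univ_ne (N := N)) (fun i => mi p d i z)
  rcases le_or_gt (mi p d i z) (tau p z) with h | h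
  · left
    unfold Mx
    rw [hi]
    exact max_eq_left h
  · right
    refine ⟨i, ?_, h⟩
    unfold Mx
    rw [hi]
    exact max_eq_right h.le

lemma Mx_cont {N : ℕ} [NeZero N] (p : Fin N → ℂ) (d : ℝ) : Continuous (Mx p d) := by
  unfold Mx
  apply (tau_cont p).max
  have : (fun z => Finset.univ.sup' (univ_ne (N := N)) (fun i => mi p d i z)) =
      Finset.univ.sup' (univ_ne (N := N)) (fun i => mi p d i) := by
    funext z
    rw [Finset.sup'_apply]
  rw [this]
  exact Continuous.finset_sup' univ_ne fun i _ => mi_cont p d i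

/-- Lower bound of `Mx`. -/
lemma Mx_ge {N : ℕ} [NeZero N] {p : Fin N → ℂ} {g : ℝ} (hg : 0 < g) (hg1 : g ≤ 1)
    (h : ∀ i j, p j ≠ p i → g ≤ ‖p i - p j‖) {d : ℝ} (hd : 0 < d) (hdg : d ≤ g ^ 2 / 4) (z : ℂ) :
    (g ^ 2 / 4) ^ N * (d / 2) ^ N ≤ Mx p d z := by
  have hd1 : d ≤ 1 := by nlinarith
  have e1 : (g ^ 2 / 4) ^ N ≤ 1 := pow_le_one₀ (by positivity) (by nlinarith)
  by_cases hc : ∃ i, ‖z - p i‖ ^ 2 < d
  · obtain ⟨i, hi⟩ := hc
    have h1 : ‖z - p i‖ ≤ g / 2 := by
      apply le_of_sq_le_sq _ (by positivity)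
      nlinarith
    have h2 := tauQ_ge hg hg1 h i z h1
    refine le_trans ?_ (mi_le_Mx p d i z)
    unfold mi
    have h3 : (d / 2) ^ N ≤ ((d + ‖z - p i‖ ^ 2) / 2) ^ mult p i := by
      calc (d / 2) ^ N ≤ (d / 2) ^ mult p i :=
            pow_le_pow_of_le_one (by positivity) (by linarith) (mult_le p i)
        _ ≤ ((d + ‖z - p i‖ ^ 2) / 2) ^ mult p i := by
            apply pow_le_pow_left₀ (by positivity)
            nlinarith [sq_nonneg ‖z - p i‖]
    exact mul_le_mul h2 h3 (by positivity) (tauQ_nonneg p i z)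
  · push Not at hc
    refine le_trans ?_ (tau_le_Mx p d z)
    rw [tau_eq]
    have h2 : d ^ N ≤ ∏ i, ‖z - p i‖ ^ 2 := by
      have : d ^ N = ∏ _i : Fin N, d := by
        rw [Finset.prod_const, Finset.card_univ, Fintype.card_fin]
      rw [this]
      exact Finset.prod_le_prod (fun i _ => hd.le) (fun i _ => hc i)
    calc (g ^ 2 / 4) ^ N * (d / 2) ^ N ≤ 1 * d ^ N := by
          apply mul_le_mul e1 _ (by positivity) zero_le_one
          exact pow_le_pow_left₀ (by positivity) (by linarith) N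
      _ = d ^ N := one_mul _
      _ ≤ _ := h2

/-- Supersolution. -/
noncomputable def vplus {N : ℕ} [NeZero N] (p : Fin N → ℂ) (d : ℝ) (z : ℂ) : ℝ :=
  N * Real.log (1 + ‖z‖ ^ 2) - Real.log (Mx p d z)

lemma exp_N_log {N : ℕ} (z : ℂ) : Real.exp (N * Real.log (1 + ‖z‖ ^ 2)) = (sfun z ^ N)⁻¹ := by
  rw [mul_comm, Real.exp_mul, Real.exp_log (by positivity), Real.rpow_natCast, sfun_eq_inv, inv_pow]

lemma exp_vplus {N : ℕ} [NeZero N] (p : Fin N → ℂ) {d : ℝ} (z : ℂ) (hM : 0 < Mx p d z) :
    Real.exp (vplus p d z) = (sfun z ^ N)⁻¹ * (Mx p d z)⁻¹ := by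
  unfold vplus
  rw [Real.exp_sub, exp_N_log, Real.exp_log hM]
  rfl

lemma vplus_cont {N : ℕ} [NeZero N] (p : Fin N → ℂ) {d : ℝ} (hM : ∀ z, 0 < Mx p d z) :
    Continuous (vplus p d) := by
  have h1 := Mx_cont p d
  unfold vplus
  apply Continuous.sub
  · apply continuous_const.mul
    apply Continuous.log (by fun_prop)
    intro z; positivity
  · apply Continuous.log (by fun_prop)
    intro z
    exact (hM z).ne'

/-- A positive lower bound for `1 - a n_i`. -/
lemma exists_kappa {N : ℕ} [NeZero N] (p : Fin N → ℂ) {a : ℝ} (hmult : ∀ i, a * mult p i < 1) :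
    ∃ κ : ℝ, 0 < κ ∧ ∀ i, κ ≤ 1 - a * mult p i := by
  obtain ⟨i, hi⟩ := Finite.exists_min (fun i : Fin N => 1 - a * mult p i)
  exact ⟨1 - a * mult p i, by linarith [hmult i], hi⟩

theorem exists_v {N : ℕ} (hN : 1 ≤ N) (p : Fin N → ℂ) {a : ℝ} (ha0 : 0 < a)
    (hmult : ∀ i, a * mult p i < 1) :
    ∃ lam : ℝ, 0 < lam ∧ ∃ v : ℂ → ℝ, (∀ k, B k v) ∧ ∀ z, lap v z = Fn p a lam z (v z) := by
  have : NeZero N := ⟨by omega⟩
  have ha1 : a < 1 := by
    have h1 := hmult 0
    have h2 : (1 : ℝ) ≤ mult p 0 := by exact_mod_cast mult_pos p 0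
    nlinarith
  obtain ⟨Wm, hWm1, hWm⟩ := exists_Wm p
  obtain ⟨A, hA1, hA⟩ := growth p
  obtain ⟨g, hg0, hg1, hg⟩ := gap hN p
  obtain ⟨κ, hκ0, hκ⟩ := exists_kappa p hmult
  have hNr : (1 : ℝ) ≤ N := by exact_mod_cast hN
  set c : ℝ := (g ^ 2 / 4) ^ N with hc
  have hc0 : 0 < c := by positivity
  have hc1 : c ≤ 1 := pow_le_one₀ (by positivity) (by nlinarith)
  have hWm' : ∀ z, Wf p z ≤ Wm := fun z =>
    (mul_le_mul_of_nonneg_right (tau_le_prod p z) (pow_nonneg (sfun_pos z).le _)).trans (hWm z)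
  -- subsolution
  set C₀ : ℝ := N * N + Real.log (2 * (Wm + 1)) with hC₀
  set vm : ℂ → ℝ := fun z => -C₀ + N * subsum N z with hvm
  have hlogpos : 0 ≤ Real.log (2 * (Wm + 1)) := Real.log_nonneg (by linarith)
  have hvm_le : ∀ z, vm z ≤ - Real.log (2 * (Wm + 1)) := by
    intro z
    have h1 := mul_le_mul_of_nonneg_left (subsum_le N z) (by positivity : (0 : ℝ) ≤ N)
    simp only [hvm, hC₀]
    linarith
  have hvm_ge : ∀ z, -C₀ ≤ vm z := by
    intro z
    have h1 := mul_nonneg (by positivity : (0 : ℝ) ≤ N) (subsum_nonneg N z)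
    simp only [hvm]
    linarith
  have hWvm : ∀ z, Wf p z * Real.exp (vm z) ≤ 1 / 2 := by
    intro z
    have h1 : Real.exp (vm z) ≤ (2 * (Wm + 1))⁻¹ := by
      have := Real.exp_le_exp.2 (hvm_le z)
      rwa [Real.exp_neg, Real.exp_log (by linarith)] at this
    calc Wf p z * Real.exp (vm z) ≤ Wm * (2 * (Wm + 1))⁻¹ :=
          mul_le_mul (hWm' z) h1 (Real.exp_pos _).le (by linarith)
      _ ≤ 1 / 2 := by
          rw [← div_eq_mul_inv, div_le_div_iff₀ (by linarith) (by norm_num)]
          linarith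
  set lam : ℝ := 8 * N * (N + 1) * Real.exp (a * C₀ + a / 2) with hlam
  have hlam0 : 0 < lam := by positivity
  -- parameter of the supersolution
  obtain ⟨d, hd0, hdg, hd⟩ : ∃ d : ℝ, 0 < d ∧ d ≤ g ^ 2 / 4 ∧ 2 * lam * d ^ κ ≤ c ^ a := by
    have hca : 0 < c ^ a := Real.rpow_pos_of_pos hc0 a
    refine ⟨min (g ^ 2 / 4) ((c ^ a / (2 * lam)) ^ (1 / κ)),
      lt_min (by positivity) (Real.rpow_pos_of_pos (by positivity) _), min_le_left _ _, ?_⟩
    have h2 : (min (g ^ 2 / 4) ((c ^ a / (2 * lam)) ^ (1 / κ))) ^ κ ≤ c ^ a / (2 * lam) := by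
      have h3 : (min (g ^ 2 / 4) ((c ^ a / (2 * lam)) ^ (1 / κ))) ^ κ ≤
          ((c ^ a / (2 * lam)) ^ (1 / κ)) ^ κ :=
        Real.rpow_le_rpow (lt_min (by positivity) (Real.rpow_pos_of_pos (by positivity) _)).le
          (min_le_right _ _) hκ0.le
      have h4 : ((c ^ a / (2 * lam)) ^ (1 / κ)) ^ κ = c ^ a / (2 * lam) := by
        rw [← Real.rpow_mul (by positivity), one_div, inv_mul_cancel₀ hκ0.ne', Real.rpow_one]
      exact h3.trans_eq h4
    calc _ ≤ 2 * lam * (c ^ a / (2 * lam)) := mul_le_mul_of_nonneg_left h2 (by positivity)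
      _ = c ^ a := by field_simp
  have hd1 : d ≤ 1 := by nlinarith
  set m₀ : ℝ := c * (d / 2) ^ N with hm₀
  have hm₀p : 0 < m₀ := by positivity
  have hMge : ∀ z, m₀ ≤ Mx p d z := Mx_ge hg0 hg1 hg hd0 hdg
  have hMpos : ∀ z, 0 < Mx p d z := fun z => hm₀p.trans_le (hMge z)
  set M : ℝ := Real.log (A * (1 + 1 / m₀)) with hM
  have hvpM : ∀ z, vplus p d z ≤ M := by
    intro z
    rw [← Real.exp_le_exp, exp_vplus p z (hMpos z), hM, Real.exp_log (by positivity)]
    have h1 := tau_le_Mx p d z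
    have h5 := hA z
    rw [sfun_eq_inv, inv_pow] at h5
    rw [← div_eq_mul_inv, div_le_iff₀ (hMpos z)]
    have h6 : 1 ≤ (1 / m₀) * Mx p d z := by
      rw [one_div, inv_mul_eq_div, le_div_iff₀ hm₀p, one_mul]
      exact hMge z
    calc (sfun z ^ N)⁻¹ ≤ A * (1 + tau p z) := h5
      _ ≤ A * ((1 / m₀) * Mx p d z + Mx p d z) :=
          mul_le_mul_of_nonneg_left (by linarith) (by linarith)
      _ = A * (1 + 1 / m₀) * Mx p d z := by ring
  have hMle : ∀ z, sfun z ^ N * Mx p d z ≤ Wm := by
    intro z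
    have hs : 0 ≤ sfun z ^ N := pow_nonneg (sfun_pos z).le N
    refine le_trans ?_ (hWm z)
    rw [mul_comm]
    apply mul_le_mul_of_nonneg_right _ hs
    rcases Mx_eq p d z with h | ⟨i, h, -⟩
    · rw [h]; exact tau_le_prod p z
    · rw [h]
      refine le_trans ?_ (tauQ_mul_le_prod p i z)
      apply mul_le_mul_of_nonneg_left _ (tauQ_nonneg p i z)
      apply pow_le_pow_left₀ (by positivity)
      nlinarith [sq_nonneg ‖z - p i‖]
  have hvple : ∀ z, vm z ≤ vplus p d z := by
    intro z
    refine (hvm_le z).trans ?_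
    rw [← Real.exp_le_exp, exp_vplus p z (hMpos z), Real.exp_neg, Real.exp_log (by linarith),
      ← mul_inv]
    have hs : 0 < sfun z ^ N := pow_pos (sfun_pos z) N
    apply inv_anti₀ (mul_pos hs (hMpos z))
    linarith [hMle z]
  have hK : 0 < lam * (Real.exp (a * M) * (Wm * Real.exp M)) := by
    have : 0 < Wm := by linarith
    positivity
  have haN : 0 ≤ a * N := by positivity
  refine ⟨lam, hlam0, ?_⟩
  have key := exists_solution (F := Fn p a lam)
    (K := lam * (Real.exp (a * M) * (Wm * Real.exp M))) (m := -C₀) (M := M)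
    (C := lam * (Real.exp (a * M) * (Wm * Real.exp M + 1)) + 4 * N) hK
    (Fn_cont p a lam) (Fn_meas p ha0.le lam) (fun k v hv => Fn_B p ha0.le lam k v hv)
    ?_ ?_ vm ?_ hvm_ge ?_ (vplus p d) (vplus_cont p hMpos) hvpM hvple ?_
  · obtain ⟨v, hv1, -, -, hv2⟩ := key
    exact ⟨v, hv1, hv2⟩
  · -- bounds
    intro z v _ h2
    have e1 := abs_gn_le ha0.le (Wf_nonneg p z) (hWm' z) h2
    have e2 : sfun z ^ (a * N) ≤ 1 := Real.rpow_le_one (sfun_pos z).le (sfun_le_one z) haN
    have e3 : 0 ≤ sfun z ^ (a * N) := Real.rpow_nonneg (sfun_pos z).le _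
    have e4 : sfun z ^ 2 ≤ 1 := pow_le_one₀ (sfun_pos z).le (sfun_le_one z)
    have e5 : Fn p a lam z v = lam * sfun z ^ (a * N) * gn a (Wf p z) v + 4 * N * sfun z ^ 2 := rfl
    rw [e5]
    refine (abs_add_le _ _).trans (add_le_add ?_ ?_)
    · rw [abs_mul, abs_of_nonneg (by positivity : 0 ≤ lam * sfun z ^ (a * N))]
      apply mul_le_mul _ e1 (abs_nonneg _) hlam0.le
      nlinarith
    · rw [abs_of_nonneg (by positivity)]
      nlinarith [mul_nonneg (by positivity : (0 : ℝ) ≤ 4 * N) (sub_nonneg.2 e4)]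
  · -- monotonicity
    intro z v v' _ h2 h3
    have e1 := gn_sub_le ha0.le (Wf_nonneg p z) (hWm' z) h2 h3
    have e2 : sfun z ^ (a * N) ≤ 1 := Real.rpow_le_one (sfun_pos z).le (sfun_le_one z) haN
    have e3 : 0 ≤ sfun z ^ (a * N) := Real.rpow_nonneg (sfun_pos z).le _
    have e5 : ∀ v, Fn p a lam z v = lam * sfun z ^ (a * N) * gn a (Wf p z) v + 4 * N * sfun z ^ 2 :=
      fun v => rfl
    rw [e5, e5]
    have e6 : 0 ≤ Real.exp (a * M) * (Wm * Real.exp M) * (v' - v) := by
      have : 0 ≤ v' - v := by linarith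
      have : 0 < Wm := by linarith
      positivity
    have e7 : sfun z ^ (a * N) * (gn a (Wf p z) v' - gn a (Wf p z) v) ≤
        Real.exp (a * M) * (Wm * Real.exp M) * (v' - v) := by
      calc _ ≤ sfun z ^ (a * N) * (Real.exp (a * M) * (Wm * Real.exp M) * (v' - v)) :=
            mul_le_mul_of_nonneg_left e1 e3
        _ ≤ 1 * (Real.exp (a * M) * (Wm * Real.exp M) * (v' - v)) :=
            mul_le_mul_of_nonneg_right e2 e6
        _ = _ := one_mul _
    have e8 := mul_le_mul_of_nonneg_left e7 hlam0.le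
    linarith
  · -- regularity of the subsolution
    intro k
    exact (B.const _ k).add ((B_subsum N k).const_mul _)
  · -- subsolution
    intro z
    have hl : lap vm z = N * (4 * sfun z ^ 2 - 4 * (N + 1) * sfun z ^ (N + 2)) := by
      have h2 : ContDiffAt ℝ 2 (subsum N) z := (B_subsum N 2).contDiff.contDiffAt
      rw [hvm, lap_add contDiffAt_const (contDiffAt_const.mul h2), lap_const, lap_const_mul _ h2,
        lap_subsum]
      ring
    rw [hl]
    have e5 : Fn p a lam z (vm z) = lam * sfun z ^ (a * N) * gn a (Wf p z) (vm z) + 4 * N * sfun z ^ 2 :=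
      rfl
    rw [e5]
    have e3 : 0 ≤ sfun z ^ (a * N) := Real.rpow_nonneg (sfun_pos z).le _
    have e6 : sfun z ^ (N + 2) ≤ sfun z ^ (a * N) := by
      rw [← Real.rpow_natCast]
      apply Real.rpow_le_rpow_of_exponent_ge (sfun_pos z) (sfun_le_one z)
      push_cast
      nlinarith
    have e7 : gn a (Wf p z) (vm z) ≤ - (Real.exp (-(a * C₀ + a / 2)) * (1 / 2)) := by
      unfold gn
      have h1 := hWvm z
      have h2 : Real.exp (-(a * C₀ + a / 2)) ≤
          Real.exp (a * vm z - a * (Wf p z * Real.exp (vm z))) := by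
        apply Real.exp_le_exp.2
        have h3 := mul_le_mul_of_nonneg_left (hvm_ge z) ha0.le
        have h4 := mul_le_mul_of_nonneg_left h1 ha0.le
        linarith
      have h5 : Real.exp (-(a * C₀ + a / 2)) * (1 / 2) ≤
          Real.exp (a * vm z - a * (Wf p z * Real.exp (vm z))) * (1 - Wf p z * Real.exp (vm z)) :=
        mul_le_mul h2 (by linarith) (by norm_num) (Real.exp_pos _).le
      linarith
    have e8 : lam * Real.exp (-(a * C₀ + a / 2)) = 8 * N * (N + 1) := by
      rw [hlam, mul_assoc, ← Real.exp_add]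
      simp
    have e9 : lam * sfun z ^ (a * N) * gn a (Wf p z) (vm z) ≤
        lam * sfun z ^ (a * N) * (- (Real.exp (-(a * C₀ + a / 2)) * (1 / 2))) :=
      mul_le_mul_of_nonneg_left e7 (by positivity)
    have e10 : lam * sfun z ^ (a * N) * (- (Real.exp (-(a * C₀ + a / 2)) * (1 / 2))) =
        - (4 * N * (N + 1) * sfun z ^ (a * N)) := by
      calc _ = - (sfun z ^ (a * N) * (lam * Real.exp (-(a * C₀ + a / 2))) / 2) := by ring
        _ = _ := by rw [e8]; ring
    have e11 : 4 * N * (N + 1) * sfun z ^ (N + 2) ≤ 4 * N * (N + 1) * sfun z ^ (a * N) :=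
      mul_le_mul_of_nonneg_left e6 (by positivity)
    linarith
  · -- supersolution
    intro z
    have hτ := tau_nonneg p z
    have hs : 0 < sfun z ^ N := pow_pos (sfun_pos z) N
    have hL : ContDiffAt ℝ 2 (fun z : ℂ => Real.log (1 + ‖z‖ ^ 2)) z :=
      contDiff_log_one_add.contDiffAt.of_le (by exact le_top)
    have e5 : ∀ v, Fn p a lam z v = lam * sfun z ^ (a * N) * gn a (Wf p z) v + 4 * N * sfun z ^ 2 :=
      fun v => rfl
    rcases Mx_eq p d z with h | ⟨i, h, hi⟩
    · have hτ0 : 0 < tau p z := h ▸ hMpos z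
      have hpos : 0 < (0 : ℝ) + ‖(polyP p).eval z‖ ^ 2 := by rw [zero_add]; exact hτ0
      have hC := contDiffAt_log_polynomial (polyP p) hpos
      refine ⟨fun z => N * Real.log (1 + ‖z‖ ^ 2) - Real.log (0 + ‖(polyP p).eval z‖ ^ 2),
        (contDiffAt_const.mul hL).sub hC, ?_, ?_, ?_⟩
      · simp only [vplus, h, zero_add]
        rfl
      · have : ∀ᶠ y in 𝓝 z, 0 < tau p y := (tau_cont p).continuousAt.eventually (lt_mem_nhds hτ0)
        filter_upwards [this] with y hy
        simp only [vplus, zero_add]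
        have : Real.log (‖(polyP p).eval y‖ ^ 2) ≤ Real.log (Mx p d y) :=
          Real.log_le_log hy (tau_le_Mx p d y)
        linarith
      · rw [lap_sub (contDiffAt_const.mul hL) hC, lap_const_mul _ hL, lap_log_one_add,
          lap_log_polynomial _ hpos, e5]
        have h1 : Wf p z * Real.exp (vplus p d z) = 1 := by
          rw [exp_vplus p z (hMpos z), h, Wf]
          field_simp
        have h2 : gn a (Wf p z) (vplus p d z) = 0 := by
          unfold gn; rw [h1]; ring
        rw [h2]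
        simp
        linarith
    · -- near the string `p i`
      set ρ : ℝ := ‖z - p i‖ ^ 2 with hρ
      have hρ0 : 0 ≤ ρ := by positivity
      set n : ℕ := mult p i with hn
      have hn1 : (1 : ℝ) ≤ n := by exact_mod_cast mult_pos p i
      have hmz : mi p d i z = tauQ p i z * ((d + ρ) / 2) ^ n := rfl
      have hmipos : 0 < mi p d i z := hτ.trans_lt hi
      have hQpos : 0 < tauQ p i z := by
        rcases (tauQ_nonneg p i z).lt_or_eq with h1 | h1
        · exact h1
        · rw [hmz, ← h1, zero_mul] at hmipos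
          exact absurd hmipos (lt_irrefl _)
      have hρd : ρ < d := by
        by_contra hcon
        push Not at hcon
        rw [hmz, tau_split p i z] at hi
        have h1 : ((d + ρ) / 2) ^ n ≤ ρ ^ n := pow_le_pow_left₀ (by positivity) (by linarith) n
        have h2 := mul_le_mul_of_nonneg_left h1 hQpos.le
        exact absurd hi (not_lt.2 h2)
      have hposQ : 0 < (0 : ℝ) + ‖(polyQ p i).eval z‖ ^ 2 := by rw [zero_add]; exact hQpos
      have hposL : 0 < d + ‖(Polynomial.X - Polynomial.C (p i)).eval z‖ ^ 2 := by positivity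
      have hCQ := contDiffAt_log_polynomial (polyQ p i) hposQ
      have hCL := contDiffAt_log_polynomial (Polynomial.X - Polynomial.C (p i)) hposL
      have hCn : ContDiffAt ℝ 2 (fun w : ℂ => (n : ℝ) *
          (Real.log (d + ‖(Polynomial.X - Polynomial.C (p i)).eval w‖ ^ 2) - Real.log 2)) z :=
        contDiffAt_const.mul (hCL.sub contDiffAt_const)
      have hform : ∀ w, 0 < tauQ p i w →
          Real.log (0 + ‖(polyQ p i).eval w‖ ^ 2) + (n : ℝ) *
            (Real.log (d + ‖(Polynomial.X - Polynomial.C (p i)).eval w‖ ^ 2) - Real.log 2) =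
          Real.log (mi p d i w) := by
        intro w hw
        have h1 : 0 < (d + ‖w - p i‖ ^ 2) / 2 := by positivity
        have h2 : 0 < d + ‖w - p i‖ ^ 2 := by positivity
        unfold mi
        rw [Real.log_mul hw.ne' (pow_pos h1 _).ne', Real.log_pow, Real.log_div h2.ne' two_ne_zero,
          zero_add]
        simp only [Polynomial.eval_sub, Polynomial.eval_X, Polynomial.eval_C]
        rfl
      refine ⟨fun w => N * Real.log (1 + ‖w‖ ^ 2) - (Real.log (0 + ‖(polyQ p i).eval w‖ ^ 2) + (n : ℝ) *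
            (Real.log (d + ‖(Polynomial.X - Polynomial.C (p i)).eval w‖ ^ 2) - Real.log 2)),
        (contDiffAt_const.mul hL).sub (hCQ.add hCn), ?_, ?_, ?_⟩
      · simp only [vplus, h]
        rw [hform z hQpos]
      · have : ∀ᶠ y in 𝓝 z, 0 < tauQ p i y :=
          (tauQ_cont p i).continuousAt.eventually (lt_mem_nhds hQpos)
        filter_upwards [this] with y hy
        simp only [vplus]
        rw [hform y hy]
        have h1 : 0 < mi p d i y := mul_pos hy (by positivity)
        have : Real.log (mi p d i y) ≤ Real.log (Mx p d y) := Real.log_le_log h1 (mi_le_Mx p d i y)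
        linarith
      · rw [lap_sub (contDiffAt_const.mul hL) (hCQ.add hCn), lap_const_mul _ hL, lap_add hCQ hCn,
          lap_const_mul _ (hCL.sub contDiffAt_const), lap_sub hCL contDiffAt_const, lap_const,
          lap_log_one_add, lap_log_polynomial _ hposQ, lap_log_polynomial _ hposL, e5]
        have hder : ‖(Polynomial.derivative (Polynomial.X - Polynomial.C (p i))).eval z‖ = 1 := by simp
        have hev : ‖(Polynomial.X - Polynomial.C (p i)).eval z‖ = ‖z - p i‖ := by simp
        rw [hder, hev, ← hρ]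
        have hexp : Real.exp (vplus p d z) = (sfun z ^ N)⁻¹ * (mi p d i z)⁻¹ := by
          rw [exp_vplus p z (hMpos z), h]
        have h1 : Wf p z * Real.exp (vplus p d z) = tau p z / mi p d i z := by
          rw [hexp, Wf]
          field_simp
        have h1a : 0 ≤ Wf p z * Real.exp (vplus p d z) := mul_nonneg (Wf_nonneg p z) (Real.exp_pos _).le
        have h2 : sfun z ^ (a * N) * Real.exp (a * vplus p d z) = ((mi p d i z)⁻¹) ^ a := by
          have h3 : sfun z ^ (a * N) = (sfun z ^ N) ^ a := by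
            rw [← Real.rpow_natCast, ← Real.rpow_mul (sfun_pos z).le, mul_comm]
          have h4 : Real.exp (a * vplus p d z) = (Real.exp (vplus p d z)) ^ a := by
            rw [mul_comm, Real.exp_mul]
          rw [h3, h4, ← Real.mul_rpow hs.le (Real.exp_pos _).le, hexp, ← mul_assoc,
            mul_inv_cancel₀ hs.ne', one_mul]
        have h5 : sfun z ^ (a * N) * (- gn a (Wf p z) (vplus p d z)) ≤ ((mi p d i z)⁻¹) ^ a := by
          unfold gn
          have h6 : Real.exp (a * vplus p d z - a * (Wf p z * Real.exp (vplus p d z))) ≤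
              Real.exp (a * vplus p d z) := by
            apply Real.exp_le_exp.2
            have : 0 ≤ a * (Wf p z * Real.exp (vplus p d z)) := mul_nonneg ha0.le h1a
            linarith
          have h8 : 0 ≤ 1 - Wf p z * Real.exp (vplus p d z) := by
            rw [h1, sub_nonneg, div_le_one hmipos]
            exact hi.le
          calc _ = sfun z ^ (a * N) *
                (Real.exp (a * vplus p d z - a * (Wf p z * Real.exp (vplus p d z))) *
                (1 - Wf p z * Real.exp (vplus p d z))) := by ring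
            _ ≤ sfun z ^ (a * N) * (Real.exp (a * vplus p d z) * 1) := by
                apply mul_le_mul_of_nonneg_left _ (Real.rpow_nonneg (sfun_pos z).le _)
                exact mul_le_mul h6 (by linarith) h8 (Real.exp_pos _).le
            _ = (sfun z ^ (a * N) * Real.exp (a * vplus p d z)) := by ring
            _ = _ := by rw [h2]
        -- lower bound of `mi`
        have hgz : ‖z - p i‖ ≤ g / 2 := by
          apply le_of_sq_le_sq _ (by positivity)
          nlinarith
        have hQc : c ≤ tauQ p i z := tauQ_ge hg0 hg1 hg i z hgz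
        have hmlow : c * (d / 2) ^ n ≤ mi p d i z := by
          rw [hmz]
          apply mul_le_mul hQc _ (by positivity) hQpos.le
          exact pow_le_pow_left₀ (by positivity) (by linarith) n
        have hκn : κ ≤ 1 - a * n := hκ i
        have hca : 0 < c ^ a := Real.rpow_pos_of_pos hc0 a
        have h10 : lam * ((mi p d i z)⁻¹) ^ a ≤ 1 / d := by
          have h11 : ((mi p d i z)⁻¹) ^ a ≤ ((c * (d / 2) ^ n)⁻¹) ^ a :=
            Real.rpow_le_rpow (by positivity) (inv_anti₀ (by positivity) hmlow) ha0.le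
          have h12 : ((c * (d / 2) ^ n)⁻¹) ^ a = (c ^ a)⁻¹ * (2 ^ (a * n) * (d ^ (a * n))⁻¹) := by
            rw [Real.inv_rpow (by positivity), Real.mul_rpow hc0.le (by positivity),
              ← Real.rpow_natCast, ← Real.rpow_mul (by positivity), mul_comm (n : ℝ) a,
              Real.div_rpow hd0.le (by norm_num), mul_inv, inv_div]
            rfl
          have h13 : (2 : ℝ) ^ (a * n) ≤ 2 := by
            calc (2 : ℝ) ^ (a * n) ≤ 2 ^ (1 : ℝ) :=
                  Real.rpow_le_rpow_of_exponent_le (by norm_num) (by linarith)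
              _ = 2 := Real.rpow_one 2
          have h14 : (d ^ (a * n))⁻¹ ≤ d ^ κ * (1 / d) := by
            have h15 : (d ^ (a * n))⁻¹ = d ^ (1 - a * n) * (1 / d) := by
              rw [Real.rpow_sub hd0, Real.rpow_one]
              field_simp
            rw [h15]
            apply mul_le_mul_of_nonneg_right _ (by positivity)
            exact Real.rpow_le_rpow_of_exponent_ge hd0 hd1 hκn
          calc lam * ((mi p d i z)⁻¹) ^ a ≤ lam * ((c ^ a)⁻¹ * (2 * (d ^ κ * (1 / d)))) := by
                apply mul_le_mul_of_nonneg_left _ hlam0.le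
                rw [h12] at h11
                refine h11.trans ?_
                apply mul_le_mul_of_nonneg_left _ (by positivity)
                exact mul_le_mul h13 h14 (by positivity) (by norm_num)
            _ = (2 * lam * d ^ κ) * ((c ^ a)⁻¹ * (1 / d)) := by ring
            _ ≤ c ^ a * ((c ^ a)⁻¹ * (1 / d)) := mul_le_mul_of_nonneg_right hd (by positivity)
            _ = 1 / d := by field_simp
        have h15 := mul_le_mul_of_nonneg_left h5 hlam0.le
        have h16 : 1 / d ≤ n * (4 * d / (d + ρ) ^ 2) := by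
          have h17 : 1 / d ≤ 4 * d / (d + ρ) ^ 2 := by
            rw [div_le_div_iff₀ hd0 (by positivity)]
            nlinarith
          have h18 : 0 ≤ 4 * d / (d + ρ) ^ 2 := by positivity
          nlinarith
        simp only [mul_zero, zero_mul, zero_div, one_pow, mul_one, zero_add, sub_zero]
        linarith

end Pool.Agent.Work.MP_e9f444_mp
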