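import Mathlib

set_option autoImplicit false

open MeasureTheory Complex
open scoped ContDiff

namespace Pool.Agent.Work.MP_e9f444_mp

/-- The plane `ℝ²` is identified with `ℂ`; the coordinate vectors are `e 0 = 1`, `e 1 = i`. -/
noncomputable def e (j : Fin 2) : ℂ := if j = 0 then 1 else Complex.I

/-- The partial derivative `∂_j` (the problem's `∂₁`, `∂₂` are `pd 0`, `pd 1`). -/
noncomputable def pd {E : Type} [NormedAddCommGroup E] [NormedSpace ℝ E] (j : Fin 2) (f : ℂ → E)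
    (z : ℂ) : E := fderiv ℝ f z (e j)

/-- The metric `g_{jk} = e^η δ_{jk}`. -/
noncomputable def gLow (η : ℂ → ℝ) (j k : Fin 2) (z : ℂ) : ℝ := if j = k then Real.exp (η z) else 0

/-- The inverse metric `g^{jk} = e^{-η} δ_{jk}`. -/
noncomputable def gUp (η : ℂ → ℝ) (j k : Fin 2) (z : ℂ) : ℝ := if j = k then Real.exp (-η z) else 0

/-- `√g = e^η`. -/
noncomputable def sqrtg (η : ℂ → ℝ) (z : ℂ) : ℝ := Real.exp (η z)

/-- Gauss curvature of the metric `e^η δ_{jk}`. -/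
noncomputable def gaussK (η : ℂ → ℝ) (z : ℂ) : ℝ :=
  -(pd 0 (pd 0 η) z + pd 1 (pd 1 η) z) / (2 * Real.exp (η z))

/-- The field strength `F_{jk} = ∂_j A_k - ∂_k A_j`. -/
noncomputable def curv (A : Fin 2 → ℂ → ℝ) (j k : Fin 2) (z : ℂ) : ℝ := pd j (A k) z - pd k (A j) z

/-- The covariant derivative `D_j ψ = ∂_j ψ - i A_j ψ`. -/
noncomputable def cov (A : Fin 2 → ℂ → ℝ) (j : Fin 2) (ψ : ℂ → ℂ) (z : ℂ) : ℂ :=
  pd j ψ z - Complex.I * (A j z : ℂ) * ψ z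

/-- The energy density `ℋ`. -/
noncomputable def energyDensity (ε : ℝ) (η : ℂ → ℝ) (φ : ℂ → ℂ) (A : Fin 2 → ℂ → ℝ) (z : ℂ) : ℝ :=
  1 / 4 * ∑ j, ∑ j', ∑ k, ∑ k', gUp η j j' z * gUp η k k' z * curv A j k z * curv A j' k' z +
    1 / 2 * ∑ j, ∑ k, gUp η j k z * (cov A j φ z * (starRingEnd ℂ) (cov A k φ z)).re +
    1 / 8 * (‖φ z‖ ^ 2 - ε ^ 2) ^ 2

/-- The energy-momentum tensor `T_{jk}`. -/
noncomputable def stress (ε : ℝ) (η : ℂ → ℝ) (φ : ℂ → ℂ) (A : Fin 2 → ℂ → ℝ) (j k : Fin 2)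
    (z : ℂ) : ℝ :=
  ∑ j', ∑ k', gUp η j' k' z * curv A j j' z * curv A k k' z +
    1 / 2 * (cov A j φ z * (starRingEnd ℂ) (cov A k φ z) +
      (starRingEnd ℂ) (cov A j φ z) * cov A k φ z).re -
    gLow η j k z * energyDensity ε η φ A z

/-- The coupled Einstein and Abelian Higgs equations. -/
structure IsSolution (ε G : ℝ) (η : ℂ → ℝ) (φ : ℂ → ℂ) (A : Fin 2 → ℂ → ℝ) : Prop where
  curvature : ∀ z, gaussK η z = 8 * Real.pi * G * energyDensity ε η φ A z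
  stress_eq : ∀ j k z, stress ε η φ A j k z = 0
  higgs : ∀ z, (1 / sqrtg η z : ℝ) *
      ∑ j, ∑ k, cov A j (fun w => ((gUp η j k w * sqrtg η w : ℝ) : ℂ) * cov A k φ w) z =
    1 / 2 * ((‖φ z‖ ^ 2 - ε ^ 2 : ℝ) : ℂ) * φ z
  maxwell : ∀ j z, ((1 / sqrtg η z *
      ∑ j', ∑ k, ∑ k', pd j' (fun w => gUp η j k w * gUp η j' k' w * sqrtg η w * curv A k k' w) z : ℝ) : ℂ) =
    Complex.I / 2 * ∑ k, (gUp η j k z : ℂ) *
      (φ z * (starRingEnd ℂ) (cov A k φ z) - (starRingEnd ℂ) (φ z) * cov A k φ z)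

/-- Finite energy: both the energy and the total curvature are finite. -/
def FiniteEnergy (ε : ℝ) (η : ℂ → ℝ) (φ : ℂ → ℂ) (A : Fin 2 → ℂ → ℝ) : Prop :=
  Integrable (fun z => energyDensity ε η φ A z * Real.exp (η z)) ∧
    Integrable (fun z => gaussK η z * Real.exp (η z))

/-- The zeros of `φ`, counted with multiplicity, are exactly `p 0, …, p (N-1)`: `φ` is the product
of the `z - p i` and a continuous function without zeros. -/
def HasStringsAt {N : ℕ} (p : Fin N → ℂ) (φ : ℂ → ℂ) : Prop :=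
  ∃ ψ : ℂ → ℂ, Continuous ψ ∧ (∀ z, ψ z ≠ 0) ∧ ∀ z, φ z = (∏ i, (z - p i)) * ψ z

/-- There is a smooth finite-energy solution on the plane whose strings are exactly at the points
`p 0, …, p (N-1)` (an `N`-string solution). -/
def ExistsStrings {N : ℕ} (ε G : ℝ) (p : Fin N → ℂ) : Prop :=
  ∃ (η : ℂ → ℝ) (φ : ℂ → ℂ) (A : Fin 2 → ℂ → ℝ),
    ContDiff ℝ ∞ η ∧ ContDiff ℝ ∞ φ ∧ (∀ j, ContDiff ℝ ∞ (A j)) ∧
    IsSolution ε G η φ A ∧ FiniteEnergy ε η φ A ∧ HasStringsAt p φ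

end Pool.Agent.Work.MP_e9f444_mp
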