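import Mathlib
import Pool.Agent.Work.MP_e9f444_mp.Defs
import Pool.Agent.Work.MP_e9f444_mp.MaxPrin

set_option autoImplicit false

open MeasureTheory Set Filter Topology Complex

namespace Pool.Agent.Work.MP_e9f444_mp

lemma pd_zero {E : Type} [NormedAddCommGroup E] [NormedSpace ℝ E] (f : ℂ → E) : pd 0 f = dx f := by
  funext z; simp [pd, e, dx]

lemma pd_one {E : Type} [NormedAddCommGroup E] [NormedSpace ℝ E] (f : ℂ → E) : pd 1 f = dy f := by
  funext z; simp [pd, e, dy]

lemma gaussK_eq (η : ℂ → ℝ) (z : ℂ) : gaussK η z = - lap η z / (2 * Real.exp (η z)) := by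
  unfold gaussK lap
  rw [pd_zero, pd_zero, pd_one, pd_one]

/-! ### Derivatives of complex valued functions -/

lemma dxC_mul {f g : ℂ → ℂ} {x : ℂ} (hf : DifferentiableAt ℝ f x) (hg : DifferentiableAt ℝ g x) :
    dx (fun z => f z * g z) x = f x * dx g x + g x * dx f x := by
  unfold dx; rw [fderiv_fun_mul hf hg]; simp

lemma dyC_mul {f g : ℂ → ℂ} {x : ℂ} (hf : DifferentiableAt ℝ f x) (hg : DifferentiableAt ℝ g x) :
    dy (fun z => f z * g z) x = f x * dy g x + g x * dy f x := by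
  unfold dy; rw [fderiv_fun_mul hf hg]; simp

lemma dxC_add {f g : ℂ → ℂ} {x : ℂ} (hf : DifferentiableAt ℝ f x) (hg : DifferentiableAt ℝ g x) :
    dx (fun z => f z + g z) x = dx f x + dx g x := by
  unfold dx; rw [fderiv_fun_add hf hg]; rfl

lemma dyC_add {f g : ℂ → ℂ} {x : ℂ} (hf : DifferentiableAt ℝ f x) (hg : DifferentiableAt ℝ g x) :
    dy (fun z => f z + g z) x = dy f x + dy g x := by
  unfold dy; rw [fderiv_fun_add hf hg]; rfl

lemma dxC_const (c : ℂ) (x : ℂ) : dx (fun _ : ℂ => c) x = 0 := by simp [dx]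

lemma dyC_const (c : ℂ) (x : ℂ) : dy (fun _ : ℂ => c) x = 0 := by simp [dy]

lemma hasFDerivAt_ofReal {g : ℂ → ℝ} {x : ℂ} (hg : DifferentiableAt ℝ g x) :
    HasFDerivAt (fun z => (g z : ℂ)) (Complex.ofRealCLM.comp (fderiv ℝ g x)) x :=
  (Complex.ofRealCLM.hasFDerivAt (x := g x)).comp x hg.hasFDerivAt

lemma dx_ofReal {g : ℂ → ℝ} {x : ℂ} (hg : DifferentiableAt ℝ g x) :
    dx (fun z => (g z : ℂ)) x = ((dx g x : ℝ) : ℂ) := by
  unfold dx; rw [(hasFDerivAt_ofReal hg).fderiv]; simp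

lemma dy_ofReal {g : ℂ → ℝ} {x : ℂ} (hg : DifferentiableAt ℝ g x) :
    dy (fun z => (g z : ℂ)) x = ((dy g x : ℝ) : ℂ) := by
  unfold dy; rw [(hasFDerivAt_ofReal hg).fderiv]; simp

lemma dx_poly (p : Polynomial ℂ) (x : ℂ) : dx (fun z => p.eval z) x = p.derivative.eval x := by
  unfold dx; rw [(polynomial_fderiv p x).fderiv]; simp

lemma dy_poly (p : Polynomial ℂ) (x : ℂ) :
    dy (fun z => p.eval z) x = Complex.I * p.derivative.eval x := by
  unfold dy; rw [(polynomial_fderiv p x).fderiv]; simp [mul_comm]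

lemma diff_poly (p : Polynomial ℂ) (x : ℂ) : DifferentiableAt ℝ (fun z : ℂ => p.eval z) x :=
  (polynomial_fderiv p x).differentiableAt

/-! ### Mixed second derivatives -/

lemma dy_dx_comm {f : ℂ → ℝ} {x : ℂ} (hf : ContDiffAt ℝ 2 f x) : dy (dx f) x = dx (dy f) x := by
  have h1 : IsSymmSndFDerivAt ℝ f x := hf.isSymmSndFDerivAt (by simp)
  have h2 : DifferentiableAt ℝ (fderiv ℝ f) x :=
    (hf.fderiv_right (m := 1) (by norm_num)).differentiableAt one_ne_zero
  have h3 : ∀ v w : ℂ, fderiv ℝ (fun z => fderiv ℝ f z v) x w = fderiv ℝ (fderiv ℝ f) x w v := by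
    intro v w
    rw [fderiv_clm_apply h2 (differentiableAt_const v)]
    simp
  change fderiv ℝ (fun z => fderiv ℝ f z 1) x Complex.I = fderiv ℝ (fun z => fderiv ℝ f z Complex.I) x 1
  rw [h3, h3]
  exact h1 _ _

/-! ### The fields -/

/-- `η = log (λ/ε²) + a f - a |P|² e^f`. -/
noncomputable def etaF (P : Polynomial ℂ) (ε a lam : ℝ) (f : ℂ → ℝ) (z : ℂ) : ℝ :=
  Real.log (lam / ε ^ 2) + a * f z - a * (‖P.eval z‖ ^ 2 * Real.exp (f z))

/-- `φ = ε P e^{f/2}`. -/
noncomputable def phiF (P : Polynomial ℂ) (ε : ℝ) (f : ℂ → ℝ) (z : ℂ) : ℂ :=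
  P.eval z * ((ε * Real.exp (f z / 2) : ℝ) : ℂ)

/-- `A₁ = f_y / 2`, `A₂ = - f_x / 2`. -/
noncomputable def AF (f : ℂ → ℝ) (j : Fin 2) (z : ℂ) : ℝ :=
  if j = 0 then dy f z / 2 else - dx f z / 2

/-- The common factor `P' + P (f_x - i f_y) / 2`. -/
noncomputable def XF (P : Polynomial ℂ) (f : ℂ → ℝ) (z : ℂ) : ℂ :=
  P.derivative.eval z + P.eval z * (((dx f z : ℝ) : ℂ) / 2 - Complex.I * ((dy f z : ℝ) : ℂ) / 2)

lemma hasDerivAt_exp_half (t : ℝ) : HasDerivAt (fun t : ℝ => Real.exp (t / 2)) (Real.exp (t / 2) / 2) t := by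
  have := ((hasDerivAt_id t).div_const 2).exp
  convert! this using 1
  simp only [id]
  ring

section verify

variable {P : Polynomial ℂ} {ε a lam : ℝ} {f : ℂ → ℝ}

lemma diff_expf (hf : Differentiable ℝ f) (z : ℂ) :
    DifferentiableAt ℝ (fun z => ε * Real.exp (f z / 2)) z := by
  have := hf z
  fun_prop

lemma dx_expf (hf : Differentiable ℝ f) (z : ℂ) :
    dx (fun z => ε * Real.exp (f z / 2)) z = ε * Real.exp (f z / 2) / 2 * dx f z := by
  have h := dx_comp (hasDerivAt_exp_half (f z)) (hf z)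
  have h2 : DifferentiableAt ℝ (fun z => Real.exp (f z / 2)) z := by
    have := hf z; fun_prop
  rw [dx_mul' (differentiableAt_const _) h2, h]
  simp [dx_const]
  ring

lemma dy_expf (hf : Differentiable ℝ f) (z : ℂ) :
    dy (fun z => ε * Real.exp (f z / 2)) z = ε * Real.exp (f z / 2) / 2 * dy f z := by
  have h := dy_comp (hasDerivAt_exp_half (f z)) (hf z)
  have h2 : DifferentiableAt ℝ (fun z => Real.exp (f z / 2)) z := by
    have := hf z; fun_prop
  rw [dy_mul' (differentiableAt_const _) h2, h]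
  simp [dy_const]
  ring

lemma diff_ofReal {g : ℂ → ℝ} {x : ℂ} (hg : DifferentiableAt ℝ g x) :
    DifferentiableAt ℝ (fun z => (g z : ℂ)) x := (hasFDerivAt_ofReal hg).differentiableAt

lemma cov_zero (hf : Differentiable ℝ f) (z : ℂ) :
    cov (AF f) 0 (phiF P ε f) z = ((ε * Real.exp (f z / 2) : ℝ) : ℂ) * XF P f z := by
  have h1 : pd 0 (phiF P ε f) z = P.eval z * ((ε * Real.exp (f z / 2) / 2 * dx f z : ℝ) : ℂ) +
      ((ε * Real.exp (f z / 2) : ℝ) : ℂ) * P.derivative.eval z := by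
    rw [pd_zero]
    have := dxC_mul (diff_poly P z) (diff_ofReal (diff_expf (ε := ε) hf z))
    rw [dx_ofReal (diff_expf hf z), dx_expf hf, dx_poly] at this
    exact this
  unfold cov
  rw [h1]
  unfold XF phiF AF
  simp only [if_true]
  push_cast
  ring

lemma cov_one (hf : Differentiable ℝ f) (z : ℂ) :
    cov (AF f) 1 (phiF P ε f) z = Complex.I * (((ε * Real.exp (f z / 2) : ℝ) : ℂ) * XF P f z) := by
  have h1 : pd 1 (phiF P ε f) z = P.eval z * ((ε * Real.exp (f z / 2) / 2 * dy f z : ℝ) : ℂ) +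
      ((ε * Real.exp (f z / 2) : ℝ) : ℂ) * (Complex.I * P.derivative.eval z) := by
    rw [pd_one]
    have := dyC_mul (diff_poly P z) (diff_ofReal (diff_expf (ε := ε) hf z))
    rw [dy_ofReal (diff_expf hf z), dy_expf hf, dy_poly] at this
    exact this
  unfold cov
  rw [h1]
  unfold XF phiF AF
  simp only [one_ne_zero, if_false]
  push_cast
  linear_combination ((ε : ℂ) * Complex.exp (f z / 2) * P.eval z * ((dy f z : ℝ) : ℂ) / 2) * Complex.I_sq

lemma curv_01 (hf : ContDiff ℝ 2 f) (z : ℂ) : curv (AF f) 0 1 z = - lap f z / 2 := by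
  unfold curv
  rw [pd_zero, pd_one]
  have h1 : AF f 1 = fun z => (-1 / 2) * dx f z := by funext z; simp [AF]; ring
  have h0 : AF f 0 = fun z => (1 / 2) * dy f z := by funext z; simp [AF]; ring
  rw [h1, h0]
  unfold lap
  have e1 : dx (fun z => (-1 / 2) * dx f z) z = (-1 / 2) * dx (dx f) z := by
    rw [dx_mul' (differentiableAt_const _) (diff_dx hf.contDiffAt)]
    simp [dx_const]
  have e2 : dy (fun z => (1 / 2) * dy f z) z = (1 / 2) * dy (dy f) z := by
    rw [dy_mul' (differentiableAt_const _) (diff_dy hf.contDiffAt)]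
    simp [dy_const]
  rw [e1, e2]
  ring

lemma curv_10 (hf : ContDiff ℝ 2 f) (z : ℂ) : curv (AF f) 1 0 z = lap f z / 2 := by
  have := curv_01 hf z
  unfold curv at this ⊢
  linarith

lemma curv_00 (A : Fin 2 → ℂ → ℝ) (z : ℂ) : curv A 0 0 z = 0 := by unfold curv; ring

lemma curv_11 (A : Fin 2 → ℂ → ℝ) (z : ℂ) : curv A 1 1 z = 0 := by unfold curv; ring

/-- `q = |P|² e^f`, so that `|φ|² = ε² q`. -/
noncomputable def qF (P : Polynomial ℂ) (f : ℂ → ℝ) (z : ℂ) : ℝ := ‖P.eval z‖ ^ 2 * Real.exp (f z)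

lemma norm_phi (z : ℂ) : ‖phiF P ε f z‖ ^ 2 = ε ^ 2 * qF P f z := by
  unfold phiF qF
  rw [norm_mul, Complex.norm_real, mul_pow, Real.norm_eq_abs, sq_abs, mul_pow, ← Real.exp_nat_mul]
  have : ((2 : ℕ) : ℝ) * (f z / 2) = f z := by push_cast; ring
  rw [this]
  ring

lemma exp_eta (hε : 0 < ε) (hlam : 0 < lam) (z : ℂ) :
    Real.exp (etaF P ε a lam f z) = lam / ε ^ 2 * Real.exp (a * f z - a * qF P f z) := by
  unfold etaF qF
  rw [add_sub_assoc, Real.exp_add, Real.exp_log (by positivity)]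

lemma lap_f_eq (hε : 0 < ε) (hlam : 0 < lam)
    (hlap : ∀ z, lap f z = lam * Real.exp (a * f z - a * qF P f z) * (qF P f z - 1)) (z : ℂ) :
    lap f z = Real.exp (etaF P ε a lam f z) * (ε ^ 2 * (qF P f z - 1)) := by
  rw [exp_eta hε hlam, hlap z]
  field_simp

lemma lap_mul {g h : ℂ → ℝ} {x : ℂ} (hg : ContDiffAt ℝ 2 g x) (hh : ContDiffAt ℝ 2 h x) :
    lap (fun z => g z * h z) x =
      g x * lap h x + h x * lap g x + 2 * (dx g x * dx h x + dy g x * dy h x) := by
  have h1 : dx (fun z => g z * h z) =ᶠ[𝓝 x] fun z => g z * dx h z + h z * dx g z := by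
    filter_upwards [eventually_differentiableAt hg, eventually_differentiableAt hh] with z h1 h2
    exact dx_mul' h1 h2
  have h2 : dy (fun z => g z * h z) =ᶠ[𝓝 x] fun z => g z * dy h z + h z * dy g z := by
    filter_upwards [eventually_differentiableAt hg, eventually_differentiableAt hh] with z h1 h2
    exact dy_mul' h1 h2
  have dg : DifferentiableAt ℝ g x := hg.differentiableAt (by norm_num)
  have dh : DifferentiableAt ℝ h x := hh.differentiableAt (by norm_num)
  unfold lap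
  rw [dx_congr h1, dy_congr h2, dx_add' (dg.fun_mul (diff_dx hh)) (dh.fun_mul (diff_dx hg)),
    dy_add' (dg.fun_mul (diff_dy hh)) (dh.fun_mul (diff_dy hg)), dx_mul' dg (diff_dx hh),
    dx_mul' dh (diff_dx hg), dy_mul' dg (diff_dy hh), dy_mul' dh (diff_dy hg)]
  ring

lemma lap_exp (hf : ContDiff ℝ 2 f) (z : ℂ) :
    lap (fun z => Real.exp (f z)) z =
      Real.exp (f z) * lap f z + Real.exp (f z) * ((dx f z) ^ 2 + (dy f z) ^ 2) :=
  lap_comp (Eventually.of_forall fun t => Real.hasDerivAt_exp t) (Real.hasDerivAt_exp _)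
    hf.contDiffAt

lemma contDiff_q (hf : ContDiff ℝ 2 f) : ContDiff ℝ 2 (qF P f) :=
  ((contDiff_normSq_polynomial P).of_le (by exact le_top)).mul hf.exp

lemma normSq_XF (z : ℂ) : 4 * Complex.normSq (XF P f z) =
    4 * ‖P.derivative.eval z‖ ^ 2 +
    2 * (dx (fun z => ‖P.eval z‖ ^ 2) z * dx f z + dy (fun z => ‖P.eval z‖ ^ 2) z * dy f z) +
    ‖P.eval z‖ ^ 2 * ((dx f z) ^ 2 + (dy f z) ^ 2) := by
  rw [dx_normSq_polynomial, dy_normSq_polynomial, ← Complex.normSq_eq_norm_sq,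
    ← Complex.normSq_eq_norm_sq, Complex.normSq_apply, Complex.normSq_apply, Complex.normSq_apply]
  have hre : (XF P f z).re = (P.derivative.eval z).re +
      ((P.eval z).re * dx f z / 2 + (P.eval z).im * dy f z / 2) := by
    unfold XF
    simp
    ring
  have him : (XF P f z).im = (P.derivative.eval z).im +
      ((P.eval z).im * dx f z / 2 - (P.eval z).re * dy f z / 2) := by
    unfold XF
    simp
    ring
  rw [hre, him]
  ring

lemma lap_q (hf : ContDiff ℝ 2 f) (z : ℂ) :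
    lap (qF P f) z = 4 * Real.exp (f z) * Complex.normSq (XF P f z) + qF P f z * lap f z := by
  have h0 : ContDiffAt ℝ 2 (fun z : ℂ => ‖P.eval z‖ ^ 2) z :=
    (contDiff_normSq_polynomial P).contDiffAt.of_le (by exact le_top)
  have h1 : lap (qF P f) z = lap (fun z => ‖P.eval z‖ ^ 2 * Real.exp (f z)) z := rfl
  have hd : DifferentiableAt ℝ f z := hf.contDiffAt.differentiableAt (by norm_num)
  rw [h1, lap_mul h0 hf.contDiffAt.exp, lap_exp hf, lap_normSq_polynomial,
    dx_comp (Real.hasDerivAt_exp _) hd, dy_comp (Real.hasDerivAt_exp _) hd]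
  have h2 := normSq_XF (P := P) (f := f) z
  unfold qF
  linear_combination (-Real.exp (f z)) * h2

lemma lap_eta (hf : ContDiff ℝ 2 f) (z : ℂ) :
    lap (etaF P ε a lam f) z = a * lap f z -
      a * (4 * Real.exp (f z) * Complex.normSq (XF P f z) + qF P f z * lap f z) := by
  have h1 : etaF P ε a lam f = fun z => (Real.log (lam / ε ^ 2) + a * f z) - a * qF P f z := rfl
  have hq : ContDiffAt ℝ 2 (qF P f) z := (contDiff_q hf).contDiffAt
  rw [h1, lap_sub (contDiffAt_const.add (contDiffAt_const.mul hf.contDiffAt))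
    (contDiffAt_const.mul hq), lap_add contDiffAt_const (contDiffAt_const.mul hf.contDiffAt),
    lap_const, lap_const_mul _ hf.contDiffAt, lap_const_mul _ hq, lap_q hf]
  ring

lemma energy_eq (hf : ContDiff ℝ 2 f) (z : ℂ) :
    energyDensity ε (etaF P ε a lam f) (phiF P ε f) (AF f) z =
      1 / 2 * (Real.exp (-etaF P ε a lam f z) * (lap f z / 2)) ^ 2 +
      Real.exp (-etaF P ε a lam f z) * (ε ^ 2 * Real.exp (f z) * Complex.normSq (XF P f z)) +
      1 / 8 * (ε ^ 2 * (qF P f z - 1)) ^ 2 := by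
  have hd : Differentiable ℝ f := hf.differentiable (by norm_num)
  have h2 : Real.exp (f z / 2) * Real.exp (f z / 2) = Real.exp (f z) := by
    rw [← Real.exp_add]; congr 1; ring
  have h0 : (cov (AF f) 0 (phiF P ε f) z * (starRingEnd ℂ) (cov (AF f) 0 (phiF P ε f) z)).re =
      ε ^ 2 * Real.exp (f z) * Complex.normSq (XF P f z) := by
    rw [Complex.mul_conj, Complex.ofReal_re, cov_zero hd, map_mul, Complex.normSq_ofReal, ← h2]
    ring
  have h1 : (cov (AF f) 1 (phiF P ε f) z * (starRingEnd ℂ) (cov (AF f) 1 (phiF P ε f) z)).re =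
      ε ^ 2 * Real.exp (f z) * Complex.normSq (XF P f z) := by
    rw [Complex.mul_conj, Complex.ofReal_re, cov_one hd, map_mul, map_mul, Complex.normSq_I,
      Complex.normSq_ofReal, ← h2]
    ring
  unfold energyDensity
  simp only [Fin.sum_univ_two, gUp, if_true, zero_ne_one, one_ne_zero, if_false, curv_00, curv_11,
    curv_01 hf, curv_10 hf, h0, h1, norm_phi]
  ring

end verify

end Pool.Agent.Work.MP_e9f444_mp
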