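import Mathlib
import Pool.Agent.Work.MP_e9f444_mp.Fields

set_option autoImplicit false
set_option linter.unusedSimpArgs false

open MeasureTheory Set Filter Topology Complex

namespace Pool.Agent.Work.MP_e9f444_mp

variable {P : Polynomial ℂ} {ε G a lam : ℝ} {f : ℂ → ℝ}

lemma curvature_eq (hε : 0 < ε) (hlam : 0 < lam) (ha : a = 4 * Real.pi * ε ^ 2 * G)
    (hf : ContDiff ℝ 2 f)
    (hlap : ∀ z, lap f z = lam * Real.exp (a * f z - a * qF P f z) * (qF P f z - 1)) (z : ℂ) :
    gaussK (etaF P ε a lam f) z =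
      8 * Real.pi * G * energyDensity ε (etaF P ε a lam f) (phiF P ε f) (AF f) z := by
  rw [gaussK_eq, energy_eq hf, lap_eta hf, lap_f_eq hε hlam hlap z, Real.exp_neg]
  have hE : Real.exp (etaF P ε a lam f z) ≠ 0 := (Real.exp_pos _).ne'
  set E := Real.exp (etaF P ε a lam f z)
  rw [ha]
  field_simp
  ring

lemma re_mul_conj_aux (w : ℂ) :
    (w * (starRingEnd ℂ) (Complex.I * w) + (starRingEnd ℂ) w * (Complex.I * w)).re = 0 := by
  simp
  ring

lemma re_mul_conj_aux' (w : ℂ) :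
    (Complex.I * w * (starRingEnd ℂ) w + (starRingEnd ℂ) (Complex.I * w) * w).re = 0 := by
  simp
  ring

lemma re_self (w : ℂ) :
    (w * (starRingEnd ℂ) w + (starRingEnd ℂ) w * w).re = 2 * Complex.normSq w := by
  simp [Complex.normSq_apply]
  ring

lemma normSq_cov0 (z : ℂ) :
    Complex.normSq (((ε * Real.exp (f z / 2) : ℝ) : ℂ) * XF P f z) =
      ε ^ 2 * Real.exp (f z) * Complex.normSq (XF P f z) := by
  have h2 : Real.exp (f z / 2) * Real.exp (f z / 2) = Real.exp (f z) := by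
    rw [← Real.exp_add]; congr 1; ring
  rw [map_mul, Complex.normSq_ofReal, ← h2]
  ring

lemma stress_zero (hε : 0 < ε) (hlam : 0 < lam)
    (hf : ContDiff ℝ 2 f)
    (hlap : ∀ z, lap f z = lam * Real.exp (a * f z - a * qF P f z) * (qF P f z - 1)) (j k : Fin 2)
    (z : ℂ) :
    stress ε (etaF P ε a lam f) (phiF P ε f) (AF f) j k z = 0 := by
  have hd : Differentiable ℝ f := hf.differentiable (by norm_num)
  have hE : Real.exp (etaF P ε a lam f z) ≠ 0 := (Real.exp_pos _).ne'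
  have hmain : Real.exp (-etaF P ε a lam f z) * (lap f z / 2) ^ 2 +
      ε ^ 2 * Real.exp (f z) * Complex.normSq (XF P f z) -
      Real.exp (etaF P ε a lam f z) * energyDensity ε (etaF P ε a lam f) (phiF P ε f) (AF f) z = 0 := by
    rw [energy_eq hf, lap_f_eq hε hlam hlap z, Real.exp_neg]
    set E := Real.exp (etaF P ε a lam f z)
    field_simp
    ring
  fin_cases j <;> fin_cases k
  · simp only [Fin.zero_eta, stress, Fin.sum_univ_two, gUp, gLow, if_true, zero_ne_one, one_ne_zero,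
      if_false, curv_00, curv_11, curv_01 hf, curv_10 hf, cov_zero hd, re_self, normSq_cov0]
    linear_combination hmain
  · simp only [Fin.zero_eta, Fin.mk_one, stress, Fin.sum_univ_two, gUp, gLow, if_true, zero_ne_one,
      one_ne_zero, if_false, curv_00, curv_11, curv_01 hf, curv_10 hf, cov_zero hd, cov_one hd,
      re_mul_conj_aux]
    ring
  · simp only [Fin.zero_eta, Fin.mk_one, stress, Fin.sum_univ_two, gUp, gLow, if_true, zero_ne_one,
      one_ne_zero, if_false, curv_00, curv_11, curv_01 hf, curv_10 hf, cov_zero hd, cov_one hd,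
      re_mul_conj_aux']
    ring
  · simp only [Fin.mk_one, stress, Fin.sum_univ_two, gUp, gLow, if_true, zero_ne_one, one_ne_zero,
      if_false, curv_00, curv_11, curv_01 hf, curv_10 hf, cov_one hd, re_self]
    rw [Complex.normSq_mul Complex.I, Complex.normSq_I, one_mul, normSq_cov0]
    linear_combination hmain

lemma gUp_mul_sqrtg (η : ℂ → ℝ) (j k : Fin 2) (w : ℂ) :
    gUp η j k w * sqrtg η w = if j = k then 1 else 0 := by
  unfold gUp sqrtg
  split_ifs
  · rw [← Real.exp_add]; simp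
  · simp

lemma diff_comb {g h : ℂ → ℂ} {z : ℂ} (hg : DifferentiableAt ℝ g z) (hh : DifferentiableAt ℝ h z) :
    DifferentiableAt ℝ (fun z => g z / 2 - Complex.I * h z / 2) z := by
  have e : (fun z => g z / 2 - Complex.I * h z / 2) =
      fun z => g z * (1 / 2) + h z * (-Complex.I / 2) := by
    funext z; ring
  rw [e]
  exact (hg.fun_mul (differentiableAt_const _)).fun_add (hh.fun_mul (differentiableAt_const _))

lemma diff_XF (hf : ContDiff ℝ 2 f) (z : ℂ) : DifferentiableAt ℝ (XF P f) z := by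
  have h1 := diff_poly P.derivative z
  have h2 := diff_poly P z
  have h3 := diff_ofReal (diff_dx (hf.contDiffAt (x := z)))
  have h4 := diff_ofReal (diff_dy (hf.contDiffAt (x := z)))
  unfold XF
  exact h1.fun_add (h2.fun_mul (diff_comb h3 h4))

lemma dx_XF (hf : ContDiff ℝ 2 f) (z : ℂ) : dx (XF P f) z = P.derivative.derivative.eval z +
    (P.eval z * (((dx (dx f) z : ℝ) : ℂ) / 2 - Complex.I * ((dx (dy f) z : ℝ) : ℂ) / 2) +
      (((dx f z : ℝ) : ℂ) / 2 - Complex.I * ((dy f z : ℝ) : ℂ) / 2) * P.derivative.eval z) := by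
  have h1 := diff_poly P.derivative z
  have h2 := diff_poly P z
  have h3 := diff_ofReal (diff_dx (hf.contDiffAt (x := z)))
  have h4 := diff_ofReal (diff_dy (hf.contDiffAt (x := z)))
  have h5 : DifferentiableAt ℝ
      (fun z => ((dx f z : ℝ) : ℂ) / 2 - Complex.I * ((dy f z : ℝ) : ℂ) / 2) z :=
    diff_comb h3 h4
  have e5 : dx (fun z => ((dx f z : ℝ) : ℂ) / 2 - Complex.I * ((dy f z : ℝ) : ℂ) / 2) z =
      ((dx (dx f) z : ℝ) : ℂ) / 2 - Complex.I * ((dx (dy f) z : ℝ) : ℂ) / 2 := by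
    have e6 : (fun z => ((dx f z : ℝ) : ℂ) / 2 - Complex.I * ((dy f z : ℝ) : ℂ) / 2) =
        fun z => ((dx f z : ℝ) : ℂ) * (1 / 2) + ((dy f z : ℝ) : ℂ) * (- Complex.I / 2) := by
      funext z; ring
    rw [e6, dxC_add (h3.fun_mul (differentiableAt_const _)) (h4.fun_mul (differentiableAt_const _)),
      dxC_mul h3 (differentiableAt_const _), dxC_mul h4 (differentiableAt_const _),
      dx_ofReal (diff_dx (hf.contDiffAt (x := z))), dx_ofReal (diff_dy (hf.contDiffAt (x := z))),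
      dxC_const, dxC_const]
    ring
  have h6 : XF P f = fun z => P.derivative.eval z +
      P.eval z * (((dx f z : ℝ) : ℂ) / 2 - Complex.I * ((dy f z : ℝ) : ℂ) / 2) := rfl
  rw [h6, dxC_add h1 (h2.fun_mul h5), dxC_mul h2 h5, e5, dx_poly, dx_poly]

lemma dy_XF (hf : ContDiff ℝ 2 f) (z : ℂ) : dy (XF P f) z = Complex.I * P.derivative.derivative.eval z +
    (P.eval z * (((dy (dx f) z : ℝ) : ℂ) / 2 - Complex.I * ((dy (dy f) z : ℝ) : ℂ) / 2) +
      (((dx f z : ℝ) : ℂ) / 2 - Complex.I * ((dy f z : ℝ) : ℂ) / 2) *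
        (Complex.I * P.derivative.eval z)) := by
  have h1 := diff_poly P.derivative z
  have h2 := diff_poly P z
  have h3 := diff_ofReal (diff_dx (hf.contDiffAt (x := z)))
  have h4 := diff_ofReal (diff_dy (hf.contDiffAt (x := z)))
  have h5 : DifferentiableAt ℝ
      (fun z => ((dx f z : ℝ) : ℂ) / 2 - Complex.I * ((dy f z : ℝ) : ℂ) / 2) z :=
    diff_comb h3 h4
  have e5 : dy (fun z => ((dx f z : ℝ) : ℂ) / 2 - Complex.I * ((dy f z : ℝ) : ℂ) / 2) z =
      ((dy (dx f) z : ℝ) : ℂ) / 2 - Complex.I * ((dy (dy f) z : ℝ) : ℂ) / 2 := by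
    have e6 : (fun z => ((dx f z : ℝ) : ℂ) / 2 - Complex.I * ((dy f z : ℝ) : ℂ) / 2) =
        fun z => ((dx f z : ℝ) : ℂ) * (1 / 2) + ((dy f z : ℝ) : ℂ) * (- Complex.I / 2) := by
      funext z; ring
    rw [e6, dyC_add (h3.fun_mul (differentiableAt_const _)) (h4.fun_mul (differentiableAt_const _)),
      dyC_mul h3 (differentiableAt_const _), dyC_mul h4 (differentiableAt_const _),
      dy_ofReal (diff_dx (hf.contDiffAt (x := z))), dy_ofReal (diff_dy (hf.contDiffAt (x := z))),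
      dyC_const, dyC_const]
    ring
  have h6 : XF P f = fun z => P.derivative.eval z +
      P.eval z * (((dx f z : ℝ) : ℂ) / 2 - Complex.I * ((dy f z : ℝ) : ℂ) / 2) := rfl
  rw [h6, dyC_add h1 (h2.fun_mul h5), dyC_mul h2 h5, e5, dy_poly, dy_poly]

/-- The first covariant derivative of `φ`. -/
noncomputable def YF (P : Polynomial ℂ) (ε : ℝ) (f : ℂ → ℝ) (z : ℂ) : ℂ :=
  ((ε * Real.exp (f z / 2) : ℝ) : ℂ) * XF P f z

lemma dbar_Y (hf : ContDiff ℝ 2 f) (z : ℂ) :
    dx (YF P ε f) z + Complex.I * dy (YF P ε f) z =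
      (((dx f z : ℝ) : ℂ) / 2 + Complex.I * ((dy f z : ℝ) : ℂ) / 2) * YF P ε f z +
      ((lap f z : ℝ) : ℂ) / 2 * phiF P ε f z := by
  have hd : Differentiable ℝ f := hf.differentiable (by norm_num)
  have h6 : YF P ε f = fun z => ((ε * Real.exp (f z / 2) : ℝ) : ℂ) * XF P f z := rfl
  have e1 : dx (YF P ε f) z = ((ε * Real.exp (f z / 2) : ℝ) : ℂ) * dx (XF P f) z +
      XF P f z * ((ε * Real.exp (f z / 2) / 2 * dx f z : ℝ) : ℂ) := by
    rw [h6, dxC_mul (diff_ofReal (diff_expf hd z)) (diff_XF hf z), dx_ofReal (diff_expf hd z),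
      dx_expf hd]
  have e2 : dy (YF P ε f) z = ((ε * Real.exp (f z / 2) : ℝ) : ℂ) * dy (XF P f) z +
      XF P f z * ((ε * Real.exp (f z / 2) / 2 * dy f z : ℝ) : ℂ) := by
    rw [h6, dyC_mul (diff_ofReal (diff_expf hd z)) (diff_XF hf z), dy_ofReal (diff_expf hd z),
      dy_expf hd]
  rw [e1, e2, dx_XF hf, dy_XF hf, dy_dx_comm (hf.contDiffAt)]
  unfold YF phiF lap
  set X := XF P f z
  push_cast
  linear_combination ((ε : ℂ) * Complex.exp (f z / 2) * (P.derivative.derivative.eval z -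
    P.eval z * ((dy (dy f) z : ℝ) : ℂ) / 2 + (((dx f z : ℝ) : ℂ) / 2 - Complex.I * ((dy f z : ℝ) : ℂ) / 2) *
        (P.derivative.eval z))) * Complex.I_sq



lemma cov_zero_fun (A : Fin 2 → ℂ → ℝ) (j : Fin 2) (z : ℂ) : cov A j (fun _ => 0) z = 0 := by
  unfold cov pd
  simp

lemma diff_YF (hf : ContDiff ℝ 2 f) (z : ℂ) : DifferentiableAt ℝ (YF P ε f) z := by
  have hd : Differentiable ℝ f := hf.differentiable (by norm_num)
  exact (diff_ofReal (diff_expf hd z)).fun_mul (diff_XF hf z)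

lemma higgs_eq (hε : 0 < ε) (hlam : 0 < lam) (hf : ContDiff ℝ 2 f)
    (hlap : ∀ z, lap f z = lam * Real.exp (a * f z - a * qF P f z) * (qF P f z - 1)) (z : ℂ) :
    (1 / sqrtg (etaF P ε a lam f) z : ℝ) *
      ∑ j, ∑ k, cov (AF f) j (fun w => ((gUp (etaF P ε a lam f) j k w *
        sqrtg (etaF P ε a lam f) w : ℝ) : ℂ) * cov (AF f) k (phiF P ε f) w) z =
    1 / 2 * ((‖phiF P ε f z‖ ^ 2 - ε ^ 2 : ℝ) : ℂ) * phiF P ε f z := by
  have hd : Differentiable ℝ f := hf.differentiable (by norm_num)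
  have e00 : (fun w => ((1 : ℝ) : ℂ) * cov (AF f) 0 (phiF P ε f) w) = YF P ε f := by
    funext w; rw [cov_zero hd]; simp [YF]
  have e11 : (fun w => ((1 : ℝ) : ℂ) * cov (AF f) 1 (phiF P ε f) w) =
      fun w => Complex.I * YF P ε f w := by
    funext w; rw [cov_one hd]; simp [YF]
  have ez : ∀ k : Fin 2, (fun w => ((0 : ℝ) : ℂ) * cov (AF f) k (phiF P ε f) w) = fun _ => 0 := by
    intro k; funext w; simp
  simp only [Fin.sum_univ_two, gUp_mul_sqrtg, if_true, zero_ne_one, one_ne_zero, if_false]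
  rw [e00, e11, ez, ez, cov_zero_fun, cov_zero_fun, add_zero, zero_add]
  have c0 : cov (AF f) 0 (YF P ε f) z = dx (YF P ε f) z -
      Complex.I * ((dy f z : ℝ) : ℂ) / 2 * YF P ε f z := by
    unfold cov
    rw [pd_zero]
    simp only [AF, if_true]
    push_cast
    ring
  have c1 : cov (AF f) 1 (fun w => Complex.I * YF P ε f w) z = Complex.I * dy (YF P ε f) z -
      ((dx f z : ℝ) : ℂ) / 2 * YF P ε f z := by
    unfold cov
    rw [pd_one, dyC_mul (differentiableAt_const _) (diff_YF hf z), dyC_const]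
    simp only [AF, one_ne_zero, if_false]
    push_cast
    linear_combination (((dx f z : ℝ) : ℂ) / 2 * YF P ε f z) * Complex.I_sq
  have hsum : cov (AF f) 0 (YF P ε f) z + cov (AF f) 1 (fun w => Complex.I * YF P ε f w) z =
      ((lap f z : ℝ) : ℂ) / 2 * phiF P ε f z := by
    rw [c0, c1]
    have := dbar_Y (P := P) (ε := ε) hf z
    linear_combination this
  rw [hsum, lap_f_eq hε hlam hlap z, norm_phi]
  have hE : Real.exp (etaF P ε a lam f z) ≠ 0 := (Real.exp_pos _).ne'
  have hE' : ((Real.exp (etaF P ε a lam f z) : ℝ) : ℂ) ≠ 0 := by exact_mod_cast hE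
  unfold sqrtg
  rw [Complex.ofReal_div, Complex.ofReal_one, Complex.ofReal_mul (Real.exp _)]
  have e3 : (((ε ^ 2 * (qF P f z - 1)) : ℝ) : ℂ) = ((ε ^ 2 * qF P f z - ε ^ 2 : ℝ) : ℂ) := by
    congr 1; ring
  rw [e3]
  field_simp

lemma dx_q (hf : ContDiff ℝ 2 f) (z : ℂ) : dx (qF P f) z =
    ‖P.eval z‖ ^ 2 * (Real.exp (f z) * dx f z) + Real.exp (f z) * dx (fun z => ‖P.eval z‖ ^ 2) z := by
  have hd : Differentiable ℝ f := hf.differentiable (by norm_num)
  have h0 : DifferentiableAt ℝ (fun z : ℂ => ‖P.eval z‖ ^ 2) z :=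
    (contDiff_normSq_polynomial P).contDiffAt.differentiableAt (by simp)
  have h1 : qF P f = fun z => ‖P.eval z‖ ^ 2 * Real.exp (f z) := rfl
  rw [h1, dx_mul' h0 (hd z).exp, dx_comp (Real.hasDerivAt_exp _) (hd z)]

lemma dy_q (hf : ContDiff ℝ 2 f) (z : ℂ) : dy (qF P f) z =
    ‖P.eval z‖ ^ 2 * (Real.exp (f z) * dy f z) + Real.exp (f z) * dy (fun z => ‖P.eval z‖ ^ 2) z := by
  have hd : Differentiable ℝ f := hf.differentiable (by norm_num)
  have h0 : DifferentiableAt ℝ (fun z : ℂ => ‖P.eval z‖ ^ 2) z :=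
    (contDiff_normSq_polynomial P).contDiffAt.differentiableAt (by simp)
  have h1 : qF P f = fun z => ‖P.eval z‖ ^ 2 * Real.exp (f z) := rfl
  rw [h1, dy_mul' h0 (hd z).exp, dy_comp (Real.hasDerivAt_exp _) (hd z)]

lemma phi_conj_Y (z : ℂ) : phiF P ε f z * (starRingEnd ℂ) (YF P ε f z) =
    ((ε ^ 2 * Real.exp (f z) : ℝ) : ℂ) * (P.eval z * (starRingEnd ℂ) (XF P f z)) := by
  have h2 : Real.exp (f z) = Real.exp (f z / 2) * Real.exp (f z / 2) := by
    rw [← Real.exp_add]; congr 1; ring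
  unfold phiF YF
  rw [map_mul, Complex.conj_ofReal, h2]
  push_cast
  ring

lemma XF_re (z : ℂ) : (XF P f z).re = (P.derivative.eval z).re +
      ((P.eval z).re * dx f z / 2 + (P.eval z).im * dy f z / 2) := by
  unfold XF
  simp
  ring

lemma XF_im (z : ℂ) : (XF P f z).im = (P.derivative.eval z).im +
      ((P.eval z).im * dx f z / 2 - (P.eval z).re * dy f z / 2) := by
  unfold XF
  simp
  ring

lemma re_phi_Y (hf : ContDiff ℝ 2 f) (z : ℂ) :
    (phiF P ε f z * (starRingEnd ℂ) (YF P ε f z)).re = ε ^ 2 / 2 * dx (qF P f) z := by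
  rw [phi_conj_Y, Complex.re_ofReal_mul, dx_q hf, dx_normSq_polynomial,
    ← Complex.normSq_eq_norm_sq, Complex.normSq_apply, Complex.mul_re, Complex.conj_re,
    Complex.conj_im, XF_re, XF_im]
  ring

lemma im_phi_Y (hf : ContDiff ℝ 2 f) (z : ℂ) :
    (phiF P ε f z * (starRingEnd ℂ) (YF P ε f z)).im = ε ^ 2 / 2 * dy (qF P f) z := by
  rw [phi_conj_Y, Complex.im_ofReal_mul, dy_q hf, dy_normSq_polynomial,
    ← Complex.normSq_eq_norm_sq, Complex.normSq_apply, Complex.mul_im, Complex.conj_re,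
    Complex.conj_im, XF_re, XF_im]
  ring

lemma half_I_aux (u c : ℂ) : Complex.I / 2 * (u * (starRingEnd ℂ) c - (starRingEnd ℂ) u * c) =
    ((-(u * (starRingEnd ℂ) c).im : ℝ) : ℂ) := by
  have h1 : (starRingEnd ℂ) u * c = (starRingEnd ℂ) (u * (starRingEnd ℂ) c) := by
    rw [map_mul, Complex.conj_conj]
  rw [h1, Complex.sub_conj]
  push_cast
  linear_combination (((u * (starRingEnd ℂ) c).im : ℝ) : ℂ) * Complex.I_sq

lemma maxwell_eq (hε : 0 < ε) (hlam : 0 < lam) (hf : ContDiff ℝ 2 f)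
    (hlap : ∀ z, lap f z = lam * Real.exp (a * f z - a * qF P f z) * (qF P f z - 1)) (j : Fin 2)
    (z : ℂ) :
    ((1 / sqrtg (etaF P ε a lam f) z *
      ∑ j', ∑ k, ∑ k', pd j' (fun w => gUp (etaF P ε a lam f) j k w * gUp (etaF P ε a lam f) j' k' w *
        sqrtg (etaF P ε a lam f) w * curv (AF f) k k' w) z : ℝ) : ℂ) =
    Complex.I / 2 * ∑ k, (gUp (etaF P ε a lam f) j k z : ℂ) *
      (phiF P ε f z * (starRingEnd ℂ) (cov (AF f) k (phiF P ε f) z) -
        (starRingEnd ℂ) (phiF P ε f z) * cov (AF f) k (phiF P ε f) z) := by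
  have hd : Differentiable ℝ f := hf.differentiable (by norm_num)
  set η := etaF P ε a lam f with hη
  have hz : ∀ j' : Fin 2, pd j' (fun _ : ℂ => (0 : ℝ)) z = 0 := by intro j'; simp [pd]
  have hdq : DifferentiableAt ℝ (qF P f) z := (contDiff_q hf).contDiffAt.differentiableAt (by norm_num)
  have hEE : ∀ w, Real.exp (-η w) * Real.exp (η w) = 1 := by intro w; rw [← Real.exp_add]; simp
  fin_cases j
  · simp only [Fin.zero_eta, Fin.sum_univ_two, gUp, sqrtg, if_true, zero_ne_one, one_ne_zero, if_false,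
      zero_mul, mul_zero, curv_00, curv_11, curv_01 hf, curv_10 hf, hz, add_zero, zero_add,
      Complex.ofReal_zero]
    have h1 : (fun w => Real.exp (-η w) * Real.exp (-η w) * Real.exp (η w) * (-lap f w / 2)) =
        fun w => (-ε ^ 2 / 2) * qF P f w + ε ^ 2 / 2 := by
      funext w
      rw [lap_f_eq hε hlam hlap w]
      have := hEE w
      linear_combination ((-ε ^ 2 / 2) * (qF P f w - 1) *
        (Real.exp (-η w) * Real.exp (η w) + 1)) * this
    rw [h1, pd_one, dy_add' ((differentiableAt_const _).fun_mul hdq) (differentiableAt_const _),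
      dy_mul' (differentiableAt_const _) hdq, dy_const, dy_const, cov_zero hd]
    have h2 := im_phi_Y (P := P) (ε := ε) hf z
    have h3 : Complex.I / 2 * ((Real.exp (-η z) : ℝ) * (phiF P ε f z *
        (starRingEnd ℂ) (YF P ε f z) - (starRingEnd ℂ) (phiF P ε f z) * YF P ε f z)) =
        ((Real.exp (-η z) * (-(ε ^ 2 / 2 * dy (qF P f) z)) : ℝ) : ℂ) := by
      rw [← h2, Complex.ofReal_mul, ← half_I_aux]
      ring
    change _ = Complex.I / 2 * ((Real.exp (-η z) : ℝ) * (phiF P ε f z *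
        (starRingEnd ℂ) (YF P ε f z) - (starRingEnd ℂ) (phiF P ε f z) * YF P ε f z))
    rw [h3, Real.exp_neg]
    congr 1
    ring
  · simp only [Fin.mk_one, Fin.sum_univ_two, gUp, sqrtg, if_true, zero_ne_one, one_ne_zero, if_false,
      zero_mul, mul_zero, curv_00, curv_11, curv_01 hf, curv_10 hf, hz, add_zero, zero_add,
      Complex.ofReal_zero]
    have h1 : (fun w => Real.exp (-η w) * Real.exp (-η w) * Real.exp (η w) * (lap f w / 2)) =
        fun w => (ε ^ 2 / 2) * qF P f w + (-(ε ^ 2 / 2)) := by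
      funext w
      rw [lap_f_eq hε hlam hlap w]
      have := hEE w
      linear_combination ((ε ^ 2 / 2) * (qF P f w - 1) *
        (Real.exp (-η w) * Real.exp (η w) + 1)) * this
    rw [h1, pd_zero, dx_add' ((differentiableAt_const _).fun_mul hdq) (differentiableAt_const _),
      dx_mul' (differentiableAt_const _) hdq, dx_const, dx_const, cov_one hd]
    have h2 := re_phi_Y (P := P) (ε := ε) hf z
    have h4 : (phiF P ε f z * (starRingEnd ℂ) (Complex.I * YF P ε f z)).im =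
        -(ε ^ 2 / 2 * dx (qF P f) z) := by
      rw [← h2, map_mul, Complex.conj_I]
      have : phiF P ε f z * (-Complex.I * (starRingEnd ℂ) (YF P ε f z)) =
        -Complex.I * (phiF P ε f z * (starRingEnd ℂ) (YF P ε f z)) := by ring
      rw [this]
      simp
    have h3 : Complex.I / 2 * ((Real.exp (-η z) : ℝ) * (phiF P ε f z *
        (starRingEnd ℂ) (Complex.I * YF P ε f z) -
        (starRingEnd ℂ) (phiF P ε f z) * (Complex.I * YF P ε f z))) =
        ((Real.exp (-η z) * (ε ^ 2 / 2 * dx (qF P f) z) : ℝ) : ℂ) := by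
      have h5 := half_I_aux (phiF P ε f z) (Complex.I * YF P ε f z)
      rw [h4, neg_neg] at h5
      rw [Complex.ofReal_mul, ← h5]
      ring
    change _ = Complex.I / 2 * ((Real.exp (-η z) : ℝ) * (phiF P ε f z *
        (starRingEnd ℂ) (Complex.I * YF P ε f z) -
        (starRingEnd ℂ) (phiF P ε f z) * (Complex.I * YF P ε f z)))
    rw [h3, Real.exp_neg]
    congr 1
    ring

theorem isSolution_of_scalar (hε : 0 < ε) (hlam : 0 < lam) (ha : a = 4 * Real.pi * ε ^ 2 * G)
    (hf : ContDiff ℝ 2 f)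
    (hlap : ∀ z, lap f z = lam * Real.exp (a * f z - a * qF P f z) * (qF P f z - 1)) :
    IsSolution ε G (etaF P ε a lam f) (phiF P ε f) (AF f) where
  curvature := curvature_eq hε hlam ha hf hlap
  stress_eq := stress_zero hε hlam hf hlap
  higgs := higgs_eq hε hlam hf hlap
  maxwell := maxwell_eq hε hlam hf hlap

end Pool.Agent.Work.MP_e9f444_mp
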