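import Mathlib
import Pool.Agent.Work.MP_e9f444_mp.Exist
import Pool.Agent.Work.MP_e9f444_mp.Verify
import Pool.Agent.Work.MP_e9f444_mp.Energy

set_option autoImplicit false

open MeasureTheory Set Filter Topology
open scoped ContDiff

namespace Pool.Agent.Work.MP_e9f444_mp

/-- `f = v - N log (1 + |z|²)`. -/
noncomputable def fv (N : ℕ) (v : ℂ → ℝ) (z : ℂ) : ℝ := v z - N * Real.log (1 + ‖z‖ ^ 2)

lemma qF_fv {N : ℕ} (p : Fin N → ℂ) (v : ℂ → ℝ) (z : ℂ) :
    qF (polyP p) (fv N v) z = Wf p z * Real.exp (v z) := by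
  unfold qF fv Wf tau
  rw [Real.exp_sub, exp_N_log]
  have : sfun z ^ N ≠ 0 := pow_ne_zero _ (sfun_pos z).ne'
  field_simp

lemma contDiff_fv {N : ℕ} {v : ℂ → ℝ} (hv : ∀ k, B k v) : ContDiff ℝ ∞ (fv N v) := by
  have h1 : ContDiff ℝ ∞ v := contDiff_infty.2 fun n => (hv n).contDiff
  have h2 : ContDiff ℝ ∞ (fun z : ℂ => Real.log (1 + ‖z‖ ^ 2)) :=
    contDiff_log_one_add.of_le (by exact le_top)
  exact h1.sub (contDiff_const.mul h2)

lemma lap_fv {N : ℕ} {v : ℂ → ℝ} (hv : ∀ k, B k v) (z : ℂ) :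
    lap (fv N v) z = lap v z - 4 * N * sfun z ^ 2 := by
  have h1 : ContDiffAt ℝ 2 v z := (hv 2).contDiff.contDiffAt
  have h2 : ContDiffAt ℝ 2 (fun z : ℂ => Real.log (1 + ‖z‖ ^ 2)) z :=
    contDiff_log_one_add.contDiffAt.of_le (by exact le_top)
  have h3 : fv N v = fun z => v z - N * Real.log (1 + ‖z‖ ^ 2) := rfl
  rw [h3, lap_sub h1 (contDiffAt_const.mul h2), lap_const_mul _ h2, lap_log_one_add]
  ring

lemma scalar_eq {N : ℕ} {p : Fin N → ℂ} {a lam : ℝ} {v : ℂ → ℝ} (hv : ∀ k, B k v)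
    (hlap : ∀ z, lap v z = Fn p a lam z (v z)) (z : ℂ) :
    lap (fv N v) z = lam * Real.exp (a * fv N v z - a * qF (polyP p) (fv N v) z) *
      (qF (polyP p) (fv N v) z - 1) := by
  rw [lap_fv hv, hlap, qF_fv]
  have h1 : Real.exp (a * fv N v z - a * (Wf p z * Real.exp (v z))) =
      sfun z ^ (a * N) * Real.exp (a * v z - a * (Wf p z * Real.exp (v z))) := by
    rw [Real.rpow_def_of_pos (sfun_pos z), ← Real.exp_add]
    congr 1
    have : Real.log (sfun z) = - Real.log (1 + ‖z‖ ^ 2) := by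
      rw [sfun_eq_inv, Real.log_inv, neg_neg]
    rw [this]
    unfold fv
    ring
  rw [h1]
  unfold Fn
  ring

lemma eta_eq {N : ℕ} (p : Fin N → ℂ) (ε a lam : ℝ) (v : ℂ → ℝ) (hv : ∀ k, B k v) (z : ℂ) :
    lap (etaF (polyP p) ε a lam (fv N v)) z =
      a * lap (fun z => v z - Wf p z * Real.exp (v z)) z - 4 * (a * N) * sfun z ^ 2 := by
  have h1 : ContDiffAt ℝ 2 (fun z => v z - Wf p z * Real.exp (v z)) z :=
    ((hv 2).sub ((B_Wf p 2).mul (hv 2).exp)).contDiff.contDiffAt
  have h2 : ContDiffAt ℝ 2 (fun z : ℂ => Real.log (1 + ‖z‖ ^ 2)) z :=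
    contDiff_log_one_add.contDiffAt.of_le (by exact le_top)
  have h3 : etaF (polyP p) ε a lam (fv N v) = fun z => (Real.log (lam / ε ^ 2) +
      a * (v z - Wf p z * Real.exp (v z))) - (a * N) * Real.log (1 + ‖z‖ ^ 2) := by
    funext z
    have := qF_fv p v z
    unfold qF at this
    unfold etaF
    rw [this]
    unfold fv
    ring
  rw [h3, lap_sub (contDiffAt_const.add (contDiffAt_const.mul h1)) (contDiffAt_const.mul h2),
    lap_add contDiffAt_const (contDiffAt_const.mul h1), lap_const, lap_const_mul _ h1,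
    lap_const_mul _ h2, lap_log_one_add]
  ring

lemma energy_nonneg (ε : ℝ) {η : ℂ → ℝ} (φ : ℂ → ℂ) (A : Fin 2 → ℂ → ℝ) (z : ℂ) :
    0 ≤ energyDensity ε η φ A z := by
  unfold energyDensity
  have h1 : 0 < Real.exp (-η z) := Real.exp_pos _
  simp only [Fin.sum_univ_two, gUp, if_true, zero_ne_one, one_ne_zero, if_false, zero_mul, mul_zero,
    add_zero, zero_add, Complex.mul_conj, Complex.ofReal_re]
  have h2 := Complex.normSq_nonneg (cov A 0 φ z)
  have h3 := Complex.normSq_nonneg (cov A 1 φ z)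
  have h4 : 0 ≤ Real.exp (-η z) * Real.exp (-η z) := by positivity
  have h5 := mul_nonneg h4 (mul_self_nonneg (curv A 0 0 z))
  have h6 := mul_nonneg h4 (mul_self_nonneg (curv A 0 1 z))
  have h7 := mul_nonneg h4 (mul_self_nonneg (curv A 1 0 z))
  have h8 := mul_nonneg h4 (mul_self_nonneg (curv A 1 1 z))
  have h9 := mul_nonneg h1.le h2
  have h10 := mul_nonneg h1.le h3
  nlinarith [sq_nonneg (‖φ z‖ ^ 2 - ε ^ 2)]

lemma finite_energy {ε G a lam : ℝ} (hG : 0 < G) {N : ℕ} (p : Fin N → ℂ)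
    {v : ℂ → ℝ} (hv : ∀ k, B k v)
    (hsol : IsSolution ε G (etaF (polyP p) ε a lam (fv N v)) (phiF (polyP p) ε (fv N v))
      (AF (fv N v))) :
    FiniteEnergy ε (etaF (polyP p) ε a lam (fv N v)) (phiF (polyP p) ε (fv N v)) (AF (fv N v)) := by
  set η := etaF (polyP p) ε a lam (fv N v) with hη
  have hG' : 0 < 8 * Real.pi * G := by positivity
  have hw : B 2 (fun z => a * (v z - Wf p z * Real.exp (v z))) :=
    ((hv 2).sub ((B_Wf p 2).mul (hv 2).exp)).const_mul a
  have h1 : ContDiff ℝ 2 (fun z => v z - Wf p z * Real.exp (v z)) :=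
    ((hv 2).sub ((B_Wf p 2).mul (hv 2).exp)).contDiff
  have hlapη : ∀ z, - lap η z = - lap (fun z => a * (v z - Wf p z * Real.exp (v z))) z +
      4 * (a * N) * sfun z ^ 2 := by
    intro z
    rw [hη, eta_eq p ε a lam v hv, lap_const_mul _ h1.contDiffAt]
    ring
  have hK : ∀ z, gaussK η z * Real.exp (η z) = (1 / 2) * (- lap η z) := by
    intro z
    rw [gaussK_eq]
    have := (Real.exp_pos (η z)).ne'
    field_simp
  have hnn : ∀ z, 0 ≤ - lap (fun z => a * (v z - Wf p z * Real.exp (v z))) z +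
      4 * (a * N) * sfun z ^ 2 := by
    intro z
    rw [← hlapη]
    have e1 := hK z
    rw [hsol.curvature z] at e1
    have e2 := energy_nonneg ε (η := η) (phiF (polyP p) ε (fv N v)) (AF (fv N v)) z
    have e3 : 0 ≤ 8 * Real.pi * G * energyDensity ε η (phiF (polyP p) ε (fv N v)) (AF (fv N v)) z *
      Real.exp (η z) := by positivity
    linarith
  have hint := integrable_of_lap hw (int_sfun_sq.const_mul (4 * (a * N)))
    (((B_sfun 0).pow 2).const_mul _).continuous hnn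
  have hintK : Integrable (fun z => gaussK η z * Real.exp (η z)) := by
    have : (fun z => gaussK η z * Real.exp (η z)) = fun z => (1 / 2) *
        (- lap (fun z => a * (v z - Wf p z * Real.exp (v z))) z + 4 * (a * N) * sfun z ^ 2) := by
      funext z; rw [hK, hlapη]
    rw [this]
    exact hint.const_mul _
  refine ⟨?_, hintK⟩
  have : (fun z => energyDensity ε η (phiF (polyP p) ε (fv N v)) (AF (fv N v)) z * Real.exp (η z)) =
      fun z => (8 * Real.pi * G)⁻¹ * (gaussK η z * Real.exp (η z)) := by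
    funext z
    rw [hsol.curvature z]
    field_simp
  rw [this]
  exact hintK.const_mul _

theorem exists_strings (ε G : ℝ) (hε : 0 < ε) (hG : 0 < G) (N : ℕ) (hN : 1 ≤ N) (p : Fin N → ℂ)
    (hmult : ∀ i, 4 * Real.pi * ε ^ 2 * G * (Finset.univ.filter fun j => p j = p i).card < 1) :
    ∃ (η : ℂ → ℝ) (φ : ℂ → ℂ) (A : Fin 2 → ℂ → ℝ),
      ContDiff ℝ ∞ η ∧ ContDiff ℝ ∞ φ ∧ (∀ j, ContDiff ℝ ∞ (A j)) ∧
      IsSolution ε G η φ A ∧ FiniteEnergy ε η φ A ∧ HasStringsAt p φ := by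
  set a : ℝ := 4 * Real.pi * ε ^ 2 * G with ha'
  have ha0 : 0 < a := by positivity
  obtain ⟨lam, hlam, v, hv, hlap⟩ := exists_v hN p ha0 hmult
  have hf := contDiff_fv (N := N) hv
  have hf2 : ContDiff ℝ 2 (fv N v) := by exact_mod_cast contDiff_infty.1 hf 2
  have hsol := isSolution_of_scalar (G := G) (P := polyP p) hε hlam ha' hf2 (scalar_eq hv hlap)
  have hP : ContDiff ℝ ∞ (fun z : ℂ => (polyP p).eval z) :=
    (contDiff_polynomial _).of_le (by exact le_top)
  refine ⟨etaF (polyP p) ε a lam (fv N v), phiF (polyP p) ε (fv N v), AF (fv N v), ?_, ?_, ?_, hsol,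
    finite_energy hG p hv hsol, ?_⟩
  · exact (contDiff_const.add (contDiff_const.mul hf)).sub
      (contDiff_const.mul (((contDiff_normSq_polynomial _).of_le (by exact le_top)).mul hf.exp))
  · have h1 : ContDiff ℝ ∞ (fun z => ε * Real.exp (fv N v z / 2)) :=
      contDiff_const.mul (hf.div_const 2).exp
    exact hP.mul (Complex.ofRealCLM.contDiff.comp h1)
  · intro j
    have h1 : ∀ w : ℂ, ContDiff ℝ ∞ (fun z => fderiv ℝ (fv N v) z w) := fun w =>
      (hf.fderiv_right (m := ∞) (by simp)).clm_apply contDiff_const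
    unfold AF
    split_ifs
    · exact (h1 Complex.I).div_const 2
    · exact (h1 1).neg.div_const 2
  · refine ⟨fun z => ((ε * Real.exp (fv N v z / 2) : ℝ) : ℂ), ?_, ?_, ?_⟩
    · have := hf.continuous
      fun_prop
    · intro z
      have : ε * Real.exp (fv N v z / 2) ≠ 0 := by positivity
      exact Complex.ofReal_ne_zero.2 this
    · intro z
      unfold phiF polyP
      rw [Polynomial.eval_prod]
      simp

end Pool.Agent.Work.MP_e9f444_mp
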